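import Pool.Agent.helper82.QB.BlkA
import Pool.Agent.helper31.IB.Blk

/-!
# QB-3: products and bounds, 27 blocks

Adapt `IB/Blk.lean` (private lemmas may be copied).  New: the product of two linear parts.  With
`l`, `k` linear parts (seven blocks, the blocks `2, 3, 5` are `0`, fields `< 2^61`) at most two
products of blocks contribute to one block of `l * k`, so all fields of the sums below are
`< 2^126`; the fields `4..6` of a block of a product are folded, no field `7` or overlap of blocks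
occurs.  (proofs: helper41)
-/

namespace Pool.Agent.helper82.QB

open Complex
open Pool.Agent.helper31.IA (Z)
open Pool.Agent.helper31.IB (fd m512 m1024 m128 One bz mg ofZ)
open Pool.Agent.helper31.IB (fd_lt fd_land land_zero_right land_mask fd_shr fd_shl fd_add fd_sub
  fd_shr_gen fd_shr_mask fd_mul_one fd_zero fd_of_lt fd_zero_left conv fd_mul lt_of_one cyc bz_cyc)

/-! ### products -/

/-- block `j` of the product of two linear parts -/
noncomputable def lprod (X Y j : Nat) : ℂ :=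
  ∑ a ∈ Finset.range 7, ∑ b ∈ Finset.range 7, if a + b = j then bz X (a + 7) * bz Y (b + 7) else 0

private theorem blk_land_full {a : Nat} (h : a < 2 ^ 128) : Nat.land a (2 ^ 128 - 1) = a := by
  rw [land_mask]
  exact Nat.mod_eq_of_lt h

private theorem blk_index {i : Nat} (h : i % 8 < 4) : ∃ j m, m < 4 ∧ i = 8 * j + m :=
  ⟨i / 8, i % 8, h, by omega⟩

/-! #### the product with one block -/

private theorem blk_conv_lt {n k X c : Nat} (hX : Clean n X) (hc : One k c) (i : Nat) :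
    conv X c i ≤ 4 * (n * k) := by
  have key : ∀ a b : Nat, a < n → b < k → a * b ≤ n * k := by
    intro a b ha hb
    exact Nat.mul_le_mul ha.le hb.le
  have k0 := key _ _ (hX i).1 (hc 0).1
  have k1 := key _ _ (hX (i - 1)).1 (hc 1).1
  have k2 := key _ _ (hX (i - 2)).1 (hc 2).1
  have k3 := key _ _ (hX (i - 3)).1 (hc 3).1
  unfold conv
  generalize fd X i * fd c 0 = a0 at *
  generalize fd X (i - 1) * fd c 1 = a1 at *
  generalize fd X (i - 2) * fd c 2 = a2 at *
  generalize fd X (i - 3) * fd c 3 = a3 at *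
  generalize n * k = q at *
  split_ifs <;> omega

private theorem blk_fd_mul {n k X c : Nat} (hnk : 4 * (n * k) < 2 ^ 128) (hX : Clean n X)
    (hc : One k c) (i : Nat) : fd (Nat.mul X c) i = conv X c i := by
  have h := fd_mul (X := X) (c := c) (lt_of_one hc) (fun i => by
    have h1 := blk_conv_lt hX hc i
    omega) i
  exact h

private theorem blk_conv_cyc {n X c : Nat} (hX : Clean n X) (j m : Nat) (hm : m < 4) :
    conv X c (8 * j + m) + conv X c (8 * j + m + 4) = cyc X c j m := by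
  have z : ∀ i b : Nat, i % 8 < b → b ≤ 3 → (if b ≤ i then fd X (i - b) * fd c b else 0) = 0 := by
    intro i b h1 h2
    by_cases h : b ≤ i
    · rw [if_pos h, (hX (i - b)).2 (Or.inr (by omega)), Nat.zero_mul]
    · rw [if_neg h]
  have y : ∀ i b : Nat, 4 ≤ i % 8 → b + 4 ≤ i % 8 → (if b ≤ i then fd X (i - b) * fd c b else 0) = 0 := by
    intro i b h1 h2
    by_cases h : b ≤ i
    · rw [if_pos h, (hX (i - b)).2 (Or.inr (by omega)), Nat.zero_mul]
    · rw [if_neg h]
  have w : ∀ i b k : Nat, i = k + b → (if b ≤ i then fd X (i - b) * fd c b else 0) = fd X k * fd c b := by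
    intro i b k h
    rw [if_pos (by omega), h, Nat.add_sub_cancel]
  have v : ∀ i : Nat, 4 ≤ i % 8 → fd X i * fd c 0 = 0 := by
    intro i h
    rw [(hX i).2 (Or.inr h), Nat.zero_mul]
  unfold conv cyc
  rcases (by omega : m = 0 ∨ m = 1 ∨ m = 2 ∨ m = 3) with rfl | rfl | rfl | rfl
  · rw [z _ 1 (by omega) (by omega), z _ 2 (by omega) (by omega), z _ 3 (by omega) (by omega),
      v (8 * j + 0 + 4) (by omega), w (8 * j + 0 + 4) 1 (8 * j + 3) (by omega),
      w (8 * j + 0 + 4) 2 (8 * j + 2) (by omega), w (8 * j + 0 + 4) 3 (8 * j + 1) (by omega)]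
    simp only [Nat.add_zero, Nat.zero_add, Nat.zero_mod, Nat.reduceMod]
    ring
  · rw [w (8 * j + 1) 1 (8 * j) (by omega), z (8 * j + 1) 2 (by omega) (by omega),
      z (8 * j + 1) 3 (by omega) (by omega),
      v (8 * j + 1 + 4) (by omega), y (8 * j + 1 + 4) 1 (by omega) (by omega),
      w (8 * j + 1 + 4) 2 (8 * j + 3) (by omega), w (8 * j + 1 + 4) 3 (8 * j + 2) (by omega)]
    simp only [Nat.add_zero, Nat.zero_add, Nat.reduceMod, Nat.reduceAdd]
    ring
  · rw [w (8 * j + 2) 1 (8 * j + 1) (by omega), w (8 * j + 2) 2 (8 * j) (by omega),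
      z (8 * j + 2) 3 (by omega) (by omega),
      v (8 * j + 2 + 4) (by omega), y (8 * j + 2 + 4) 1 (by omega) (by omega),
      y (8 * j + 2 + 4) 2 (by omega) (by omega), w (8 * j + 2 + 4) 3 (8 * j + 3) (by omega)]
    simp only [Nat.add_zero, Nat.zero_add, Nat.reduceMod, Nat.reduceAdd]
    ring
  · rw [w (8 * j + 3) 1 (8 * j + 2) (by omega), w (8 * j + 3) 2 (8 * j + 1) (by omega),
      w (8 * j + 3) 3 (8 * j) (by omega),
      v (8 * j + 3 + 4) (by omega), y (8 * j + 3 + 4) 1 (by omega) (by omega),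
      y (8 * j + 3 + 4) 2 (by omega) (by omega), y (8 * j + 3 + 4) 3 (by omega) (by omega)]
    simp only [Nat.add_zero, Nat.reduceMod, Nat.reduceAdd]
    ring

private theorem blk_fd_fold {P : Nat} (hP : ∀ i, i % 8 < 4 → fd P i + fd P (i + 4) < 2 ^ 128)
    (i : Nat) : fd (fold P) i = if i < 216 ∧ i % 8 < 4 then fd P i + fd P (i + 4) else 0 := by
  have hA : ∀ i, fd (Nat.land P mB) i = if i < 216 ∧ i % 8 < 4 then fd P i else 0 := by
    intro i
    rw [fd_land, fd_mB]
    split_ifs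
    · exact blk_land_full (fd_lt P i)
    · exact land_zero_right _
  have hB : ∀ i, fd (Nat.land (Nat.shiftRight P 512) mB) i =
      if i < 216 ∧ i % 8 < 4 then fd P (i + 4) else 0 := by
    intro i
    have e : fd (Nat.shiftRight P 512) i = fd P (i + 4) := fd_shr P 4 i
    rw [fd_land, fd_mB, e]
    split_ifs
    · exact blk_land_full (fd_lt P (i + 4))
    · exact land_zero_right _
  have h := fd_add (X := Nat.land P mB) (Y := Nat.land (Nat.shiftRight P 512) mB) (fun i => by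
    rw [hA, hB]
    by_cases h1 : i < 216 ∧ i % 8 < 4
    · rw [if_pos h1, if_pos h1]
      exact hP i h1.2
    · rw [if_neg h1, if_neg h1]
      norm_num) i
  have h2 : fd (fold P) i = fd (Nat.land P mB) i + fd (Nat.land (Nat.shiftRight P 512) mB) i := h
  rw [h2, hA, hB]
  split_ifs <;> rfl

private theorem blk_cyc_zero {n X : Nat} (hX : Clean n X) (c j m : Nat) (hj : 27 ≤ j) :
    cyc X c j m = 0 := by
  unfold cyc
  rw [(hX (8 * j)).2 (Or.inl (by omega)), (hX (8 * j + 1)).2 (Or.inl (by omega)),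
    (hX (8 * j + 2)).2 (Or.inl (by omega)), (hX (8 * j + 3)).2 (Or.inl (by omega))]
  simp

private theorem blk_cyc_le {n k X c : Nat} (hX : Clean n X) (hc : One k c) (j m : Nat) :
    cyc X c j m ≤ 4 * (n * k) := by
  have key : ∀ a b : Nat, a < n → b < k → a * b ≤ n * k := by
    intro a b ha hb
    exact Nat.mul_le_mul ha.le hb.le
  have k0 := key _ _ (hX (8 * j)).1 (hc (m % 4)).1
  have k1 := key _ _ (hX (8 * j + 1)).1 (hc ((m + 3) % 4)).1
  have k2 := key _ _ (hX (8 * j + 2)).1 (hc ((m + 2) % 4)).1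
  have k3 := key _ _ (hX (8 * j + 3)).1 (hc ((m + 1) % 4)).1
  unfold cyc
  generalize fd X (8 * j) * fd c (m % 4) = a0 at *
  generalize fd X (8 * j + 1) * fd c ((m + 3) % 4) = a1 at *
  generalize fd X (8 * j + 2) * fd c ((m + 2) % 4) = a2 at *
  generalize fd X (8 * j + 3) * fd c ((m + 1) % 4) = a3 at *
  generalize n * k = q at *
  omega

/-- the two fields which are folded -/
private theorem blk_two {n k X c : Nat} (hnk : 4 * (n * k) < 2 ^ 128) (hX : Clean n X)
    (hc : One k c) (j m : Nat) (hm : m < 4) :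
    fd (Nat.mul X c) (8 * j + m) + fd (Nat.mul X c) (8 * j + m + 4) = cyc X c j m := by
  rw [blk_fd_mul hnk hX hc, blk_fd_mul hnk hX hc, blk_conv_cyc hX j m hm]

/-! #### the product of two block numbers -/

/-- product of the block `a` of `X` and the block `b` of `Y` -/
private def cy (X Y a b m : Nat) : Nat :=
  fd X (8 * a) * fd Y (8 * b + m % 4) + fd X (8 * a + 1) * fd Y (8 * b + (m + 3) % 4) +
    fd X (8 * a + 2) * fd Y (8 * b + (m + 2) % 4) + fd X (8 * a + 3) * fd Y (8 * b + (m + 1) % 4)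

private theorem bz_cy (X Y a b : Nat) :
    (((cy X Y a b 0 : ℝ) - cy X Y a b 2 : ℝ) : ℂ) + (((cy X Y a b 1 : ℝ) - cy X Y a b 3 : ℝ) : ℂ) * I =
      2 ^ 80 * (bz X a * bz Y b) := by
  have h0 : cy X Y a b 0 = fd X (8 * a) * fd Y (8 * b) + fd X (8 * a + 1) * fd Y (8 * b + 3) +
      fd X (8 * a + 2) * fd Y (8 * b + 2) + fd X (8 * a + 3) * fd Y (8 * b + 1) := rfl
  have h1 : cy X Y a b 1 = fd X (8 * a) * fd Y (8 * b + 1) + fd X (8 * a + 1) * fd Y (8 * b) +
      fd X (8 * a + 2) * fd Y (8 * b + 3) + fd X (8 * a + 3) * fd Y (8 * b + 2) := rfl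
  have h2 : cy X Y a b 2 = fd X (8 * a) * fd Y (8 * b + 2) + fd X (8 * a + 1) * fd Y (8 * b + 1) +
      fd X (8 * a + 2) * fd Y (8 * b) + fd X (8 * a + 3) * fd Y (8 * b + 3) := rfl
  have h3 : cy X Y a b 3 = fd X (8 * a) * fd Y (8 * b + 3) + fd X (8 * a + 1) * fd Y (8 * b + 2) +
      fd X (8 * a + 2) * fd Y (8 * b + 1) + fd X (8 * a + 3) * fd Y (8 * b) := rfl
  rw [h0, h1, h2, h3]
  unfold bz
  generalize fd X (8 * a) = x0
  generalize fd X (8 * a + 1) = x1
  generalize fd X (8 * a + 2) = x2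
  generalize fd X (8 * a + 3) = x3
  generalize fd Y (8 * b) = c0
  generalize fd Y (8 * b + 1) = c1
  generalize fd Y (8 * b + 2) = c2
  generalize fd Y (8 * b + 3) = c3
  push_cast
  have hI : I ^ 2 = -1 := I_sq
  linear_combination (-(((x1 : ℂ) - x3) * ((c1 : ℂ) - c3))) * hI

/-- block `j` of the product -/
private def SS (X Y j m : Nat) : Nat := ∑ a ∈ Finset.range (j + 1), cy X Y a (j - a) m

private theorem sum_blocks (n : Nat) (F : Nat → Nat) :
    ∑ u ∈ Finset.range (8 * n), F u = ∑ a ∈ Finset.range n, ∑ s ∈ Finset.range 8, F (8 * a + s) := by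
  induction n with
  | zero => simp
  | succ n ih =>
    rw [Finset.sum_range_succ, ← ih, Nat.mul_succ, Finset.sum_range_add]

private theorem convG_blocks (X Y i j : Nat) (hi : i < 8 * (j + 1)) :
    convG X Y i = ∑ a ∈ Finset.range (j + 1), ∑ s ∈ Finset.range 8,
      if 8 * a + s ≤ i then fd X (8 * a + s) * fd Y (i - (8 * a + s)) else 0 := by
  rw [← sum_blocks (j + 1) (fun u => if u ≤ i then fd X u * fd Y (i - u) else 0)]
  unfold convG
  rw [← Finset.sum_subset (Finset.range_subset_range.2 (by omega : i + 1 ≤ 8 * (j + 1)))]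
  · refine Finset.sum_congr rfl fun u hu => ?_
    have := Finset.mem_range.1 hu
    rw [if_pos (by omega)]
  · intro u _ hu
    rw [Finset.mem_range, not_lt] at hu
    rw [if_neg (by omega)]

private theorem blk_term {X Y : Nat} (hX : ∀ i, 4 ≤ i % 8 → fd X i = 0)
    (hY : ∀ i, 4 ≤ i % 8 → fd Y i = 0) (a b m : Nat) (hm : m < 4) :
    (∑ s ∈ Finset.range 8, if 8 * a + s ≤ 8 * (a + b) + m then
      fd X (8 * a + s) * fd Y (8 * (a + b) + m - (8 * a + s)) else 0) +
    (∑ s ∈ Finset.range 8, if 8 * a + s ≤ 8 * (a + b) + m + 4 then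
      fd X (8 * a + s) * fd Y (8 * (a + b) + m + 4 - (8 * a + s)) else 0) = cy X Y a b m := by
  have xz : ∀ (s : Nat) (p : Prop) [Decidable p] (t : Nat), 4 ≤ s → s < 8 →
      (if p then fd X (8 * a + s) * t else 0) = 0 := by
    intro s p _ t h1 h2
    rw [hX (8 * a + s) (by omega), Nat.zero_mul]
    split_ifs <;> rfl
  have yz : ∀ s, m < s → s < 4 → (if 8 * a + s ≤ 8 * (a + b) + m then
      fd X (8 * a + s) * fd Y (8 * (a + b) + m - (8 * a + s)) else 0) = 0 := by
    intro s h1 h2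
    by_cases h : 8 * a + s ≤ 8 * (a + b) + m
    · rw [if_pos h, hY _ (by omega), Nat.mul_zero]
    · rw [if_neg h]
  have yn : ∀ s, s ≤ m → (if 8 * a + s ≤ 8 * (a + b) + m then
      fd X (8 * a + s) * fd Y (8 * (a + b) + m - (8 * a + s)) else 0) =
      fd X (8 * a + s) * fd Y (8 * b + (m - s)) := by
    intro s h1
    rw [if_pos (by omega)]
    congr 2
    omega
  have zz : ∀ s, s ≤ m → (if 8 * a + s ≤ 8 * (a + b) + m + 4 then
      fd X (8 * a + s) * fd Y (8 * (a + b) + m + 4 - (8 * a + s)) else 0) = 0 := by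
    intro s h1
    rw [if_pos (by omega), hY _ (by omega), Nat.mul_zero]
  have zn : ∀ s, m < s → s < 4 → (if 8 * a + s ≤ 8 * (a + b) + m + 4 then
      fd X (8 * a + s) * fd Y (8 * (a + b) + m + 4 - (8 * a + s)) else 0) =
      fd X (8 * a + s) * fd Y (8 * b + (m + 4 - s)) := by
    intro s h1 h2
    rw [if_pos (by omega)]
    congr 2
    omega
  simp only [Finset.sum_range_succ, Finset.sum_range_zero, Nat.zero_add]
  rw [xz 4 _ _ (by norm_num) (by norm_num), xz 5 _ _ (by norm_num) (by norm_num),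
    xz 6 _ _ (by norm_num) (by norm_num), xz 7 _ _ (by norm_num) (by norm_num),
    xz 4 _ _ (by norm_num) (by norm_num), xz 5 _ _ (by norm_num) (by norm_num),
    xz 6 _ _ (by norm_num) (by norm_num), xz 7 _ _ (by norm_num) (by norm_num)]
  unfold cy
  rcases (by omega : m = 0 ∨ m = 1 ∨ m = 2 ∨ m = 3) with rfl | rfl | rfl | rfl
  · rw [yn 0 (by norm_num), yz 1 (by norm_num) (by norm_num), yz 2 (by norm_num) (by norm_num),
      yz 3 (by norm_num) (by norm_num), zz 0 (by norm_num), zn 1 (by norm_num) (by norm_num),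
      zn 2 (by norm_num) (by norm_num), zn 3 (by norm_num) (by norm_num)]
    simp only [Nat.add_zero, Nat.zero_add, Nat.zero_mod, Nat.reduceMod, Nat.reduceSub]
    all_goals ring
  · rw [yn 0 (by norm_num), yn 1 (by norm_num), yz 2 (by norm_num) (by norm_num),
      yz 3 (by norm_num) (by norm_num), zz 0 (by norm_num), zz 1 (by norm_num),
      zn 2 (by norm_num) (by norm_num), zn 3 (by norm_num) (by norm_num)]
    simp only [Nat.add_zero, Nat.zero_add, Nat.reduceMod, Nat.reduceSub, Nat.reduceAdd]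
    all_goals ring
  · rw [yn 0 (by norm_num), yn 1 (by norm_num), yn 2 (by norm_num),
      yz 3 (by norm_num) (by norm_num), zz 0 (by norm_num), zz 1 (by norm_num),
      zz 2 (by norm_num), zn 3 (by norm_num) (by norm_num)]
    simp only [Nat.add_zero, Nat.zero_add, Nat.reduceMod, Nat.reduceSub, Nat.reduceAdd]
    all_goals ring
  · rw [yn 0 (by norm_num), yn 1 (by norm_num), yn 2 (by norm_num), yn 3 (by norm_num),
      zz 0 (by norm_num), zz 1 (by norm_num), zz 2 (by norm_num), zz 3 (by norm_num)]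
    simp only [Nat.add_zero, Nat.zero_add, Nat.reduceMod, Nat.reduceSub, Nat.reduceAdd]
    all_goals ring

private theorem convG_SS {X Y : Nat} (hX : ∀ i, 4 ≤ i % 8 → fd X i = 0)
    (hY : ∀ i, 4 ≤ i % 8 → fd Y i = 0) (j m : Nat) (hm : m < 4) :
    convG X Y (8 * j + m) + convG X Y (8 * j + m + 4) = SS X Y j m := by
  rw [convG_blocks X Y (8 * j + m) j (by omega), convG_blocks X Y (8 * j + m + 4) j (by omega),
    ← Finset.sum_add_distrib]
  unfold SS
  refine Finset.sum_congr rfl fun a ha => ?_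
  have h1 := Finset.mem_range.1 ha
  have h2 := blk_term hX hY a (j - a) m hm
  have h3 : a + (j - a) = j := by omega
  rw [h3] at h2
  exact h2

private theorem bz_SS (X Y j : Nat) :
    (((SS X Y j 0 : ℝ) - SS X Y j 2 : ℝ) : ℂ) + (((SS X Y j 1 : ℝ) - SS X Y j 3 : ℝ) : ℂ) * I =
      2 ^ 80 * ∑ a ∈ Finset.range (j + 1), bz X a * bz Y (j - a) := by
  rw [Finset.mul_sum, ← Finset.sum_congr rfl (fun a _ => bz_cy X Y a (j - a))]
  unfold SS
  rw [Finset.sum_add_distrib, ← Finset.sum_mul]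
  push_cast
  simp only [Finset.sum_sub_distrib]

/-- at most two block products contribute -/
private theorem two_terms (f : Nat → Nat → Nat) (M : Nat)
    (h1 : ∀ a b, (a = 2 ∨ a = 3 ∨ a = 5 ∨ 7 ≤ a) → f a b = 0)
    (h2 : ∀ a b, (b = 2 ∨ b = 3 ∨ b = 5 ∨ 7 ≤ b) → f a b = 0)
    (hM : ∀ a b, f a b ≤ M) (j : Nat) :
    ∑ a ∈ Finset.range (j + 1), f a (j - a) ≤ 2 * M ∧
      (13 ≤ j → ∑ a ∈ Finset.range (j + 1), f a (j - a) = 0) := by
  have hz : 13 ≤ j → ∑ a ∈ Finset.range (j + 1), f a (j - a) = 0 := by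
    intro hj
    refine Finset.sum_eq_zero fun a ha => ?_
    have := Finset.mem_range.1 ha
    by_cases h : 7 ≤ a
    · exact h1 a _ (by omega)
    · exact h2 a _ (by omega)
  refine ⟨?_, hz⟩
  by_cases hj : 13 ≤ j
  · rw [hz hj]
    exact Nat.zero_le _
  · have z1 : ∀ b, f 2 b = 0 := fun b => h1 2 b (by norm_num)
    have z2 : ∀ b, f 3 b = 0 := fun b => h1 3 b (by norm_num)
    have z3 : ∀ b, f 5 b = 0 := fun b => h1 5 b (by norm_num)
    have z4 : ∀ b, f 7 b = 0 := fun b => h1 7 b (by norm_num)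
    have z5 : ∀ b, f 8 b = 0 := fun b => h1 8 b (by norm_num)
    have z6 : ∀ b, f 9 b = 0 := fun b => h1 9 b (by norm_num)
    have z7 : ∀ b, f 10 b = 0 := fun b => h1 10 b (by norm_num)
    have z8 : ∀ b, f 11 b = 0 := fun b => h1 11 b (by norm_num)
    have z9 : ∀ b, f 12 b = 0 := fun b => h1 12 b (by norm_num)
    have y1 : ∀ a, f a 2 = 0 := fun a => h2 a 2 (by norm_num)
    have y2 : ∀ a, f a 3 = 0 := fun a => h2 a 3 (by norm_num)
    have y3 : ∀ a, f a 5 = 0 := fun a => h2 a 5 (by norm_num)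
    have y4 : ∀ a, f a 7 = 0 := fun a => h2 a 7 (by norm_num)
    have y5 : ∀ a, f a 8 = 0 := fun a => h2 a 8 (by norm_num)
    have y6 : ∀ a, f a 9 = 0 := fun a => h2 a 9 (by norm_num)
    have y7 : ∀ a, f a 10 = 0 := fun a => h2 a 10 (by norm_num)
    have y8 : ∀ a, f a 11 = 0 := fun a => h2 a 11 (by norm_num)
    have y9 : ∀ a, f a 12 = 0 := fun a => h2 a 12 (by norm_num)
    have l00 := hM 0 0
    have l01 := hM 0 1
    have l10 := hM 1 0
    have l11 := hM 1 1
    have l04 := hM 0 4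
    have l40 := hM 4 0
    have l14 := hM 1 4
    have l41 := hM 4 1
    have l06 := hM 0 6
    have l60 := hM 6 0
    have l16 := hM 1 6
    have l61 := hM 6 1
    have l44 := hM 4 4
    have l46 := hM 4 6
    have l64 := hM 6 4
    have l66 := hM 6 6
    interval_cases j <;>
      simp only [Finset.sum_range_succ, Finset.sum_range_zero, Nat.zero_add, Nat.reduceSub,
        Nat.sub_zero, Nat.sub_self, Nat.reduceAdd, z1, z2, z3, z4, z5, z6, z7, z8, z9, y1, y2, y3,
        y4, y5, y6, y7, y8, y9, Nat.add_zero] <;> omega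

private theorem cy_zero_left {X : Nat} (Y : Nat) {a : Nat} (h : ∀ i, i / 8 = a → fd X i = 0)
    (b m : Nat) : cy X Y a b m = 0 := by
  unfold cy
  rw [h (8 * a) (by omega), h (8 * a + 1) (by omega), h (8 * a + 2) (by omega),
    h (8 * a + 3) (by omega)]
  simp

private theorem cy_zero_right (X : Nat) {Y b : Nat} (h : ∀ i, i / 8 = b → fd Y i = 0)
    (a m : Nat) : cy X Y a b m = 0 := by
  unfold cy
  rw [h (8 * b + m % 4) (by omega), h (8 * b + (m + 3) % 4) (by omega),
    h (8 * b + (m + 2) % 4) (by omega), h (8 * b + (m + 1) % 4) (by omega)]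
  simp

private theorem cy_le {n X Y : Nat} (hX : ∀ i, fd X i < n) (hY : ∀ i, fd Y i < n) (a b m : Nat) :
    cy X Y a b m ≤ 4 * (n * n) := by
  have key : ∀ i j : Nat, fd X i * fd Y j ≤ n * n := by
    intro i j
    exact Nat.mul_le_mul (hX i).le (hY j).le
  have k0 := key (8 * a) (8 * b + m % 4)
  have k1 := key (8 * a + 1) (8 * b + (m + 3) % 4)
  have k2 := key (8 * a + 2) (8 * b + (m + 2) % 4)
  have k3 := key (8 * a + 3) (8 * b + (m + 1) % 4)
  unfold cy
  generalize n * n = q at *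
  omega

/-- everything about the product of two linear parts -/
private theorem lin_facts {X Y : Nat} (hX : Clean (2 ^ 61) X) (hY : Clean (2 ^ 61) Y)
    (sX : Sparse X) (sY : Sparse Y) :
    (∀ j m, SS (lin X) (lin Y) j m ≤ 2 ^ 125 ∧ (13 ≤ j → SS (lin X) (lin Y) j m = 0)) ∧
    (∀ j m, m < 4 → fd (Nat.mul (lin X) (lin Y)) (8 * j + m) +
      fd (Nat.mul (lin X) (lin Y)) (8 * j + m + 4) = SS (lin X) (lin Y) j m) := by
  obtain ⟨cX, -, -, -⟩ := clean_lin hX
  obtain ⟨cY, -, -, -⟩ := clean_lin hY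
  have zX := lin_sparse sX
  have zY := lin_sparse sY
  have hle : ∀ j m, SS (lin X) (lin Y) j m ≤ 2 ^ 125 ∧
      (13 ≤ j → SS (lin X) (lin Y) j m = 0) := by
    intro j m
    have h := two_terms (fun a b => cy (lin X) (lin Y) a b m) (4 * (2 ^ 61 * 2 ^ 61))
      (fun a b ha => cy_zero_left _ (fun i hi => zX i (by omega)) b m)
      (fun a b hb => cy_zero_right _ (fun i hi => zY i (by omega)) a m)
      (fun a b => cy_le (fun i => (cX i).1) (fun i => (cY i).1) a b m) j
    refine ⟨?_, h.2⟩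
    have h1 := h.1
    unfold SS
    refine le_trans h1 ?_
    norm_num
  refine ⟨hle, ?_⟩
  have hX4 : ∀ i, 4 ≤ i % 8 → fd (lin X) i = 0 := fun i hi => (cX i).2 (Or.inr hi)
  have hY4 : ∀ i, 4 ≤ i % 8 → fd (lin Y) i = 0 := fun i hi => (cY i).2 (Or.inr hi)
  have hlt : ∀ i, convG (lin X) (lin Y) i < 2 ^ 128 := by
    intro i
    by_cases hi : i % 8 < 4
    · obtain ⟨j, m, hm, rfl⟩ := blk_index hi
      have h1 := convG_SS hX4 hY4 j m hm
      have h2 := (hle j m).1
      omega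
    · obtain ⟨j, m, hm, e⟩ := blk_index (i := i - 4) (by omega)
      have e2 : i = 8 * j + m + 4 := by omega
      have h1 := convG_SS hX4 hY4 j m hm
      have h2 := (hle j m).1
      rw [e2]
      omega
  intro j m hm
  have e : ∀ i, fd (Nat.mul (lin X) (lin Y)) i = convG (lin X) (lin Y) i := fd_mul_gen hlt
  rw [e, e, convG_SS hX4 hY4 j m hm]

/-- the block values of the product of the linear parts -/
private theorem lin_val {X Y : Nat} (hX : Clean (2 ^ 61) X) (hY : Clean (2 ^ 61) Y) (j : Nat) :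
    ∑ a ∈ Finset.range (j + 1), bz (lin X) a * bz (lin Y) (j - a) = lprod X Y j := by
  obtain ⟨-, -, -, bX⟩ := clean_lin hX
  obtain ⟨-, -, -, bY⟩ := clean_lin hY
  have hin : ∀ a, (∑ b ∈ Finset.range 7, if a + b = j then bz X (a + 7) * bz Y (b + 7) else 0) =
      if a ≤ j ∧ j - a < 7 then bz X (a + 7) * bz Y (j - a + 7) else 0 := by
    intro a
    by_cases h : a ≤ j ∧ j - a < 7
    · rw [if_pos h, Finset.sum_eq_single (j - a)]
      · rw [if_pos (by omega)]
      · intro b _ hb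
        rw [if_neg (by omega)]
      · intro hb
        exact absurd (Finset.mem_range.2 h.2) hb
    · rw [if_neg h]
      refine Finset.sum_eq_zero fun b hb => ?_
      have := Finset.mem_range.1 hb
      rw [if_neg (by omega)]
  unfold lprod
  rw [Finset.sum_congr rfl (fun a _ => hin a)]
  have h1 : ∑ a ∈ Finset.range 7,
      (if a ≤ j ∧ j - a < 7 then bz X (a + 7) * bz Y (j - a + 7) else 0) =
      ∑ a ∈ Finset.range (j + 8), if a < 7 ∧ a ≤ j ∧ j - a < 7 then
        bz X (a + 7) * bz Y (j - a + 7) else 0 := by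
    rw [← Finset.sum_subset (Finset.range_subset_range.2 (by omega : 7 ≤ j + 8))]
    · refine Finset.sum_congr rfl fun a ha => ?_
      have := Finset.mem_range.1 ha
      by_cases h : a ≤ j ∧ j - a < 7
      · rw [if_pos h, if_pos ⟨this, h⟩]
      · rw [if_neg h, if_neg (fun h2 => h h2.2)]
    · intro a _ ha
      rw [Finset.mem_range, not_lt] at ha
      rw [if_neg (by omega)]
  have h2 : ∑ a ∈ Finset.range (j + 1), bz (lin X) a * bz (lin Y) (j - a) =
      ∑ a ∈ Finset.range (j + 8), if a < 7 ∧ a ≤ j ∧ j - a < 7 then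
        bz X (a + 7) * bz Y (j - a + 7) else 0 := by
    rw [← Finset.sum_subset (Finset.range_subset_range.2 (by omega : j + 1 ≤ j + 8))]
    · refine Finset.sum_congr rfl fun a ha => ?_
      have := Finset.mem_range.1 ha
      have hle : a ≤ j := by omega
      rw [bX, bY]
      by_cases ha7 : a < 7
      · by_cases hb7 : j - a < 7
        · simp only [ha7, hb7, hle, if_true, and_self]
        · simp only [ha7, hb7, if_true, if_false, and_false, mul_zero]
      · simp only [ha7, if_false, false_and, zero_mul]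
    · intro a _ ha
      rw [Finset.mem_range, not_lt] at ha
      rw [if_neg (by omega)]
  rw [h1, h2]

/-! #### shifts -/

/-- the shift by `40` in all fields -/
private theorem blk_fd_sh {P : Nat} (hP : Clean (2 ^ 128) P) (i : Nat) :
    fd (sh P) i = fd P i / 2 ^ 40 := by
  by_cases hi : i < 216 ∧ i % 8 < 4
  · have h := fd_shr_mask (X := P) (M := mS) (k := 40) (i := i) (by norm_num) (by
      rw [fd_mS, if_pos hi])
    exact h
  · have h : fd (sh P) i = Nat.land (fd (Nat.shiftRight P 40) i) (fd mS i) := fd_land _ _ i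
    rw [h, fd_mS, if_neg hi, land_zero_right, (hP i).2 (by omega), Nat.zero_div]

private theorem blk_fd_sh1 {P : Nat} (hP : Clean (2 ^ 128) P) (i : Nat) :
    fd (sh1 P) i = fd P i / 2 ^ 41 := by
  by_cases hi : i < 216 ∧ i % 8 < 4
  · have h := fd_shr_mask (X := P) (M := mS1) (k := 41) (i := i) (by norm_num) (by
      rw [fd_mS1, if_pos hi])
    exact h
  · have h : fd (sh1 P) i = Nat.land (fd (Nat.shiftRight P 41) i) (fd mS1 i) := fd_land _ _ i
    rw [h, fd_mS1, if_neg hi, land_zero_right, (hP i).2 (by omega), Nat.zero_div]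

private theorem blk_clean_sh {P n : Nat} (hn : n * 2 ^ 40 ≤ 2 ^ 128) (hP : Clean (n * 2 ^ 40) P) :
    Clean n (sh P) := by
  intro i
  rw [blk_fd_sh (clean_mono hP hn)]
  refine ⟨?_, fun h => ?_⟩
  · rw [Nat.div_lt_iff_lt_mul (by positivity)]
    exact (hP i).1
  · rw [(hP i).2 h, Nat.zero_div]

private theorem blk_clean_sh1 {P n : Nat} (hn : n * 2 ^ 41 ≤ 2 ^ 128) (hP : Clean (n * 2 ^ 41) P) :
    Clean n (sh1 P) := by
  intro i
  rw [blk_fd_sh1 (clean_mono hP hn)]
  refine ⟨?_, fun h => ?_⟩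
  · rw [Nat.div_lt_iff_lt_mul (by positivity)]
    exact (hP i).1
  · rw [(hP i).2 h, Nat.zero_div]

/-- rounding of the four fields -/
private theorem blk_round (k : Nat) {a b c d : Nat} {z : ℂ}
    (hz : z = (((((a : ℝ) - b) / (2 ^ k * 2 ^ 40) : ℝ) : ℂ)) +
      (((((c : ℝ) - d) / (2 ^ k * 2 ^ 40) : ℝ) : ℂ)) * I) :
    ‖((((((a / 2 ^ k : Nat) : ℝ) - ((b / 2 ^ k : Nat) : ℝ)) / 2 ^ 40 : ℝ) : ℂ) +
      (((((c / 2 ^ k : Nat) : ℝ) - ((d / 2 ^ k : Nat) : ℝ)) / 2 ^ 40 : ℝ) : ℂ) * I) - z‖ ≤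
      2 / 2 ^ 40 := by
  have key : ∀ x y : Nat, |((((x / 2 ^ k : Nat) : ℝ) - ((y / 2 ^ k : Nat) : ℝ)) / 2 ^ 40) -
      (((x : ℝ) - y) / (2 ^ k * 2 ^ 40))| ≤ 1 / 2 ^ 40 := by
    intro x y
    have hx := Nat.div_add_mod x (2 ^ k)
    have hy := Nat.div_add_mod y (2 ^ k)
    have hx2 := Nat.mod_lt x (y := 2 ^ k) (by positivity)
    have hy2 := Nat.mod_lt y (y := 2 ^ k) (by positivity)
    set q := x / 2 ^ k with hq
    set r := x % 2 ^ k with hr
    set s := y / 2 ^ k with hs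
    set t := y % 2 ^ k with ht
    have ex : (x : ℝ) = 2 ^ k * q + r := by
      rw [← hx]
      push_cast
      ring
    have ey : (y : ℝ) = 2 ^ k * s + t := by
      rw [← hy]
      push_cast
      ring
    have hr2 : (r : ℝ) ≤ 2 ^ k := by
      exact_mod_cast hx2.le
    have ht2 : (t : ℝ) ≤ 2 ^ k := by
      exact_mod_cast hy2.le
    have hr0 : (0 : ℝ) ≤ r := Nat.cast_nonneg r
    have ht0 : (0 : ℝ) ≤ t := Nat.cast_nonneg t
    have hk : (0 : ℝ) < 2 ^ k := by positivity
    rw [ex, ey]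
    have e : (((q : ℝ) - s) / 2 ^ 40) - ((2 ^ k * (q : ℝ) + r - (2 ^ k * (s : ℝ) + t)) /
        (2 ^ k * 2 ^ 40)) = ((t : ℝ) - r) / (2 ^ k * 2 ^ 40) := by
      field_simp
      ring
    have e1 : (1 : ℝ) / 2 ^ 40 = 2 ^ k / (2 ^ k * 2 ^ 40) := by
      field_simp
    rw [e, e1, abs_div, abs_of_pos (by positivity : (0 : ℝ) < 2 ^ k * 2 ^ 40)]
    apply div_le_div_of_nonneg_right _ (by positivity)
    rw [abs_le]
    constructor <;> linarith
  have h1 := key a b
  have h2 := key c d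
  rw [hz]
  set u : ℝ := ((((a / 2 ^ k : Nat) : ℝ) - ((b / 2 ^ k : Nat) : ℝ)) / 2 ^ 40) with hu
  set v : ℝ := ((((c / 2 ^ k : Nat) : ℝ) - ((d / 2 ^ k : Nat) : ℝ)) / 2 ^ 40) with hv
  set u' : ℝ := (((a : ℝ) - b) / (2 ^ k * 2 ^ 40)) with hu'
  set v' : ℝ := (((c : ℝ) - d) / (2 ^ k * 2 ^ 40)) with hv'
  have e : ((u : ℂ) + (v : ℂ) * I) - ((u' : ℂ) + (v' : ℂ) * I) =
      ((u - u' : ℝ) : ℂ) + ((v - v' : ℝ) : ℂ) * I := by
    push_cast
    ring
  rw [e]
  have h3 := norm_add_le (((u - u' : ℝ) : ℂ)) (((v - v' : ℝ) : ℂ) * I)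
  rw [norm_mul, norm_I, mul_one, norm_real, norm_real, Real.norm_eq_abs, Real.norm_eq_abs] at h3
  have h4 : (2 : ℝ) / 2 ^ 40 = 1 / 2 ^ 40 + 1 / 2 ^ 40 := by ring
  rw [h4]
  linarith

private theorem blk_sh_err {P : Nat} (hP : Clean (2 ^ 128) P) (j : Nat) :
    ‖bz (sh P) j - bz P j / 2 ^ 40‖ ≤ 2 / 2 ^ 40 := by
  have h := blk_round 40 (a := fd P (8 * j)) (b := fd P (8 * j + 2)) (c := fd P (8 * j + 1))
    (d := fd P (8 * j + 3)) (z := bz P j / 2 ^ 40) (by
      unfold bz
      push_cast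
      ring)
  have e : bz (sh P) j =
      ((((((fd P (8 * j) / 2 ^ 40 : Nat) : ℝ) - ((fd P (8 * j + 2) / 2 ^ 40 : Nat) : ℝ)) / 2 ^ 40 : ℝ) : ℂ) +
      (((((fd P (8 * j + 1) / 2 ^ 40 : Nat) : ℝ) - ((fd P (8 * j + 3) / 2 ^ 40 : Nat) : ℝ)) / 2 ^ 40 : ℝ) : ℂ) * I) := by
    unfold bz
    rw [blk_fd_sh hP, blk_fd_sh hP, blk_fd_sh hP, blk_fd_sh hP]
  rw [e]
  exact h

private theorem blk_sh1_err {P : Nat} (hP : Clean (2 ^ 128) P) (j : Nat) :
    ‖bz (sh1 P) j - bz P j / 2 ^ 41‖ ≤ 2 / 2 ^ 40 := by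
  have h := blk_round 41 (a := fd P (8 * j)) (b := fd P (8 * j + 2)) (c := fd P (8 * j + 1))
    (d := fd P (8 * j + 3)) (z := bz P j / 2 ^ 41) (by
      unfold bz
      push_cast
      ring)
  have e : bz (sh1 P) j =
      ((((((fd P (8 * j) / 2 ^ 41 : Nat) : ℝ) - ((fd P (8 * j + 2) / 2 ^ 41 : Nat) : ℝ)) / 2 ^ 40 : ℝ) : ℂ) +
      (((((fd P (8 * j + 1) / 2 ^ 41 : Nat) : ℝ) - ((fd P (8 * j + 3) / 2 ^ 41 : Nat) : ℝ)) / 2 ^ 40 : ℝ) : ℂ) * I) := by
    unfold bz
    rw [blk_fd_sh1 hP, blk_fd_sh1 hP, blk_fd_sh1 hP, blk_fd_sh1 hP]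
  rw [e]
  exact h

/-- the block value from four numbers -/
private theorem bz_of {P j : Nat} {z : ℂ} {s0 s1 s2 s3 : Nat} (h0 : fd P (8 * j + 0) = s0)
    (h1 : fd P (8 * j + 1) = s1) (h2 : fd P (8 * j + 2) = s2) (h3 : fd P (8 * j + 3) = s3)
    (h : (((s0 : ℝ) - s2 : ℝ) : ℂ) + (((s1 : ℝ) - s3 : ℝ) : ℂ) * I = 2 ^ 80 * z) :
    bz P j / 2 ^ 40 = z := by
  have e : z = ((((s0 : ℝ) - s2 : ℝ) : ℂ) + (((s1 : ℝ) - s3 : ℝ) : ℂ) * I) / 2 ^ 80 := by
    rw [h]
    field_simp
  rw [e]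
  rw [Nat.add_zero] at h0
  unfold bz
  rw [h0, h1, h2, h3]
  push_cast
  ring

/-- all blocks times `c` -/
theorem mulX_spec {X c : Nat} (hX : Clean (2 ^ 61) X) (hc : One (2 ^ 62) c) :
    Clean (2 ^ 87) (mulX X c) ∧ ∀ j, ‖bz (mulX X c) j - bz X j * bz c 0‖ ≤ 2 / 2 ^ 40 := by
  have hnk : 4 * (2 ^ 61 * 2 ^ 62) < 2 ^ 128 := by norm_num
  have htwo := blk_two hnk hX hc
  have hle := blk_cyc_le hX hc
  have hfold : ∀ i, fd (fold (Nat.mul X c)) i =
      if i < 216 ∧ i % 8 < 4 then fd (Nat.mul X c) i + fd (Nat.mul X c) (i + 4) else 0 :=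
    blk_fd_fold (fun i hi => by
      obtain ⟨j, m, hm, rfl⟩ := blk_index hi
      rw [htwo j m hm]
      have := hle j m
      norm_num at this ⊢
      omega)
  have hf : ∀ j m, m < 4 → fd (fold (Nat.mul X c)) (8 * j + m) = cyc X c j m := by
    intro j m hm
    rw [hfold]
    by_cases hj : j < 27
    · rw [if_pos (by omega), htwo j m hm]
    · rw [if_neg (by omega), blk_cyc_zero hX c j m (by omega)]
  have h1 : Clean (2 ^ 126) (fold (Nat.mul X c)) := by
    intro i
    by_cases hi : i % 8 < 4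
    · obtain ⟨j, m, hm, rfl⟩ := blk_index hi
      rw [hf j m hm]
      have := hle j m
      refine ⟨by norm_num at this ⊢; omega, fun h => ?_⟩
      exact blk_cyc_zero hX c j m (by omega)
    · rw [hfold, if_neg (by omega)]
      exact ⟨by norm_num, fun _ => rfl⟩
  have h2 : Clean (2 ^ 87) (sh (fold (Nat.mul X c))) :=
    blk_clean_sh (by norm_num) (clean_mono h1 (by norm_num))
  have h3 := clean_nrm (by norm_num) h2
  refine ⟨h3.1, fun j => ?_⟩
  have h4 : bz (mulX X c) j = bz (sh (fold (Nat.mul X c))) j := h3.2 j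
  have h5 : bz (fold (Nat.mul X c)) j / 2 ^ 40 = bz X j * bz c 0 :=
    bz_of (hf j 0 (by norm_num)) (hf j 1 (by norm_num)) (hf j 2 (by norm_num))
      (hf j 3 (by norm_num)) (bz_cyc X c j)
  rw [h4, ← h5]
  exact blk_sh_err (clean_mono h1 (by norm_num)) j

private theorem sqr_aux {X : Nat} (hX : Clean (2 ^ 61) X) (hs : Sparse X) :
    Clean (2 ^ 126) (fold (Nat.mul (lin X) (lin X))) ∧
      (∀ i, 8 * 13 ≤ i → fd (fold (Nat.mul (lin X) (lin X))) i = 0) ∧
      ∀ j, bz (fold (Nat.mul (lin X) (lin X))) j / 2 ^ 40 = lprod X X j := by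
  obtain ⟨hle, htwo⟩ := lin_facts hX hX hs hs
  have hfold : ∀ i, fd (fold (Nat.mul (lin X) (lin X))) i =
      if i < 216 ∧ i % 8 < 4 then fd (Nat.mul (lin X) (lin X)) i +
        fd (Nat.mul (lin X) (lin X)) (i + 4) else 0 :=
    blk_fd_fold (fun i hi => by
      obtain ⟨j, m, hm, rfl⟩ := blk_index hi
      rw [htwo j m hm]
      have := (hle j m).1
      omega)
  have hf : ∀ j m, m < 4 → fd (fold (Nat.mul (lin X) (lin X))) (8 * j + m) =
      SS (lin X) (lin X) j m := by
    intro j m hm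
    rw [hfold]
    by_cases hj : j < 27
    · rw [if_pos (by omega), htwo j m hm]
    · rw [if_neg (by omega), (hle j m).2 (by omega)]
  have hz : ∀ i, 8 * 13 ≤ i → fd (fold (Nat.mul (lin X) (lin X))) i = 0 := by
    intro i hi
    by_cases h : i % 8 < 4
    · obtain ⟨j, m, hm, rfl⟩ := blk_index h
      rw [hf j m hm]
      exact (hle j m).2 (by omega)
    · rw [hfold, if_neg (by omega)]
  refine ⟨fun i => ?_, hz, fun j => ?_⟩
  · by_cases hi : i % 8 < 4
    · obtain ⟨j, m, hm, rfl⟩ := blk_index hi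
      refine ⟨?_, fun h => hz _ (by omega)⟩
      rw [hf j m hm]
      have := (hle j m).1
      omega
    · rw [hfold, if_neg (by omega)]
      exact ⟨by norm_num, fun _ => rfl⟩
  · rw [← lin_val hX hX j]
    exact bz_of (hf j 0 (by norm_num)) (hf j 1 (by norm_num)) (hf j 2 (by norm_num))
      (hf j 3 (by norm_num)) (bz_SS (lin X) (lin X) j)

theorem sqr_spec {X : Nat} (hX : Clean (2 ^ 61) X) (hs : Sparse X) :
    Clean (2 ^ 88) (sh (fold (Nat.mul (lin X) (lin X)))) ∧
      (∀ i, 8 * 13 ≤ i → fd (sh (fold (Nat.mul (lin X) (lin X)))) i = 0) ∧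
      ∀ j, ‖bz (sh (fold (Nat.mul (lin X) (lin X)))) j - lprod X X j‖ ≤ 2 / 2 ^ 40 := by
  obtain ⟨h1, h2, h3⟩ := sqr_aux hX hs
  have hc := clean_mono h1 (by norm_num : 2 ^ 126 ≤ 2 ^ 128)
  refine ⟨blk_clean_sh (by norm_num) (clean_mono h1 (by norm_num)), fun i hi => ?_, fun j => ?_⟩
  · rw [blk_fd_sh hc, h2 i hi, Nat.zero_div]
  · rw [← h3 j]
    exact blk_sh_err hc j

/-- with an additional factor `1/2` -/
theorem sqr1_spec {X : Nat} (hX : Clean (2 ^ 61) X) (hs : Sparse X) :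
    Clean (2 ^ 88) (sh1 (fold (Nat.mul (lin X) (lin X)))) ∧
      (∀ i, 8 * 13 ≤ i → fd (sh1 (fold (Nat.mul (lin X) (lin X)))) i = 0) ∧
      ∀ j, ‖bz (sh1 (fold (Nat.mul (lin X) (lin X)))) j - lprod X X j / 2‖ ≤ 2 / 2 ^ 40 := by
  obtain ⟨h1, h2, h3⟩ := sqr_aux hX hs
  have hc := clean_mono h1 (by norm_num : 2 ^ 126 ≤ 2 ^ 128)
  refine ⟨clean_mono (blk_clean_sh1 (n := 2 ^ 87) (by norm_num) (clean_mono h1 (by norm_num)))
    (by norm_num), fun i hi => ?_, fun j => ?_⟩
  · rw [blk_fd_sh1 hc, h2 i hi, Nat.zero_div]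
  · have e : lprod X X j / 2 = bz (fold (Nat.mul (lin X) (lin X))) j / 2 ^ 41 := by
      rw [← h3 j]
      ring
    rw [e]
    exact blk_sh1_err hc j

/-- the blocks of a product of two models -/
def core (X Y : Nat) : Nat :=
  nrm (sh (fold (Nat.add (Nat.add (Nat.mul X (Nat.land Y m512))
    (Nat.mul (Nat.sub Y (Nat.land Y m512)) (Nat.land X m512)))
    (Nat.shiftLeft (Nat.mul (lin X) (lin Y)) 14336))))

theorem core_spec {X Y : Nat} (hX : Clean (2 ^ 61) X) (hY : Clean (2 ^ 61) Y) (sX : Sparse X)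
    (sY : Sparse Y) :
    Clean (2 ^ 88) (core X Y) ∧ ‖bz (core X Y) 0 - bz X 0 * bz Y 0‖ ≤ 2 / 2 ^ 40 ∧
      ∀ j, 1 ≤ j → ‖bz (core X Y) j - (bz X j * bz Y 0 + bz Y j * bz X 0 +
        if 14 ≤ j then lprod X Y (j - 14) else 0)‖ ≤ 2 / 2 ^ 40 := by
  have hnk : 4 * (2 ^ 61 * 2 ^ 61) < 2 ^ 128 := by norm_num
  have hcX := clean_head hX
  have hcY := clean_head hY
  have htY := clean_tail hY
  have hA2 := blk_two hnk hX hcY
  have hB2 := blk_two hnk htY hcX
  have hAl : ∀ j m, cyc X (Nat.land Y m512) j m ≤ 2 ^ 124 := fun j m =>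
    (blk_cyc_le hX hcY j m).trans (by norm_num)
  have hBl : ∀ j m, cyc (Nat.sub Y (Nat.land Y m512)) (Nat.land X m512) j m ≤ 2 ^ 124 :=
    fun j m => (blk_cyc_le htY hcX j m).trans (by norm_num)
  obtain ⟨hCl, hC2⟩ := lin_facts hX hY sX sY
  have fC : ∀ i, fd (Nat.shiftLeft (Nat.mul (lin X) (lin Y)) 14336) i =
      if i < 112 then 0 else fd (Nat.mul (lin X) (lin Y)) (i - 112) := by
    intro i
    have e : (14336 : Nat) = 128 * 112 := by norm_num
    rw [e]
    exact fd_shl _ 112 i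
  set A := Nat.mul X (Nat.land Y m512) with eA
  set B := Nat.mul (Nat.sub Y (Nat.land Y m512)) (Nat.land X m512) with eB
  set C := Nat.shiftLeft (Nat.mul (lin X) (lin Y)) 14336 with eC
  -- the folded fields of `C`
  have hC3 : ∀ j m, m < 4 → fd C (8 * j + m) + fd C (8 * j + m + 4) =
      if 14 ≤ j then SS (lin X) (lin Y) (j - 14) m else 0 := by
    intro j m hm
    rw [fC, fC]
    by_cases hj : 14 ≤ j
    · have e1 : 8 * j + m - 112 = 8 * (j - 14) + m := by omega
      have e2 : 8 * j + m + 4 - 112 = 8 * (j - 14) + m + 4 := by omega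
      rw [if_neg (by omega), if_neg (by omega), if_pos hj, ← hC2 (j - 14) m hm, e1, e2]
    · rw [if_pos (by omega), if_pos (by omega), if_neg hj]
  have hCb : ∀ j m, (if 14 ≤ j then SS (lin X) (lin Y) (j - 14) m else 0) ≤ 2 ^ 125 := by
    intro j m
    split_ifs
    · exact (hCl _ m).1
    · exact Nat.zero_le _
  -- bounds of single fields
  have hsum : ∀ i, fd A i + fd B i + fd C i < 2 ^ 127 := by
    intro i
    by_cases hi : i % 8 < 4
    · obtain ⟨j, m, hm, rfl⟩ := blk_index hi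
      have a1 := hA2 j m hm
      have b1 := hB2 j m hm
      have c1 := hC3 j m hm
      have a2 := hAl j m
      have b2 := hBl j m
      have c2 := hCb j m
      omega
    · obtain ⟨j, m, hm, e⟩ := blk_index (i := i - 4) (by omega)
      have e2 : i = 8 * j + m + 4 := by omega
      have a1 := hA2 j m hm
      have b1 := hB2 j m hm
      have c1 := hC3 j m hm
      have a2 := hAl j m
      have b2 := hBl j m
      have c2 := hCb j m
      rw [e2]
      omega
  have hAB : ∀ i, fd (Nat.add A B) i = fd A i + fd B i := fun i =>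
    fd_add (X := A) (Y := B) (fun i => by have := hsum i; omega) i
  have hABC : ∀ i, fd (Nat.add (Nat.add A B) C) i = fd A i + fd B i + fd C i := by
    intro i
    have h := fd_add (X := Nat.add A B) (Y := C) (fun i => by
      rw [hAB]
      have := hsum i
      omega) i
    have h2 : fd (Nat.add (Nat.add A B) C) i = fd (Nat.add A B) i + fd C i := h
    rw [h2, hAB]
  have hfold : ∀ i, fd (fold (Nat.add (Nat.add A B) C)) i =
      if i < 216 ∧ i % 8 < 4 then fd (Nat.add (Nat.add A B) C) i +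
        fd (Nat.add (Nat.add A B) C) (i + 4) else 0 :=
    blk_fd_fold (fun i _ => by
      rw [hABC, hABC]
      have h1 := hsum i
      have h2 := hsum (i + 4)
      omega)
  set P := fold (Nat.add (Nat.add A B) C) with hP
  have hf : ∀ j m, m < 4 → fd P (8 * j + m) = cyc X (Nat.land Y m512) j m +
      cyc (Nat.sub Y (Nat.land Y m512)) (Nat.land X m512) j m +
      (if 14 ≤ j then SS (lin X) (lin Y) (j - 14) m else 0) := by
    intro j m hm
    rw [hfold]
    by_cases hj : j < 27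
    · rw [if_pos (by omega), hABC, hABC, ← hA2 j m hm, ← hB2 j m hm, ← hC3 j m hm]
      omega
    · rw [if_neg (by omega), blk_cyc_zero hX _ j m (by omega), blk_cyc_zero htY _ j m (by omega),
        if_pos (by omega), (hCl _ m).2 (by omega)]
  have hPc : Clean (2 ^ 127) P := by
    intro i
    by_cases hi : i % 8 < 4
    · obtain ⟨j, m, hm, rfl⟩ := blk_index hi
      refine ⟨?_, fun h => ?_⟩
      · rw [hf j m hm]
        have a2 := hAl j m
        have b2 := hBl j m
        have c2 := hCb j m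
        omega
      · rw [hfold, if_neg (by omega)]
    · rw [hfold, if_neg (by omega)]
      exact ⟨by norm_num, fun _ => rfl⟩
  have hPb : ∀ j, bz P j / 2 ^ 40 = bz X j * bz Y 0 + (if j = 0 then 0 else bz Y j) * bz X 0 +
      (if 14 ≤ j then lprod X Y (j - 14) else 0) := by
    intro j
    refine bz_of (hf j 0 (by norm_num)) (hf j 1 (by norm_num)) (hf j 2 (by norm_num))
      (hf j 3 (by norm_num)) ?_
    have k1 := bz_cyc X (Nat.land Y m512) j
    have k2 := bz_cyc (Nat.sub Y (Nat.land Y m512)) (Nat.land X m512) j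
    rw [bz_head] at k1 k2
    rw [bz_tail hY] at k2
    by_cases hj : 14 ≤ j
    · have k3 := bz_SS (lin X) (lin Y) (j - 14)
      rw [lin_val hX hY] at k3
      simp only [if_pos hj]
      push_cast at k1 k2 k3 ⊢
      linear_combination k1 + k2 + k3
    · simp only [if_neg hj]
      push_cast at k1 k2 ⊢
      linear_combination k1 + k2
  have h2 : Clean (2 ^ 88) (sh P) := blk_clean_sh (by norm_num) (clean_mono hPc (by norm_num))
  have h3 := clean_nrm (by norm_num) h2
  have h4 : ∀ j, bz (core X Y) j = bz (sh P) j := h3.2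
  have h5 := blk_sh_err (clean_mono hPc (by norm_num : 2 ^ 127 ≤ 2 ^ 128))
  refine ⟨h3.1, ?_, fun j hj => ?_⟩
  · have h6 := h5 0
    rw [hPb 0, if_pos rfl, zero_mul, add_zero, if_neg (by norm_num), add_zero] at h6
    rw [h4]
    exact h6
  · have h6 := h5 j
    rw [hPb j, if_neg (by omega)] at h6
    rw [h4]
    exact h6

/-! ### bounds -/

private theorem blk_fd_f0m_land (Y i : Nat) :
    fd (Nat.land Y f0m) i = if i < 216 ∧ i % 8 < 1 then fd Y i else 0 := by
  rw [fd_land, fd_f0m]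
  split_ifs
  · exact blk_land_full (fd_lt Y i)
  · exact land_zero_right _

private theorem blk_fd_U {X a b : Nat} (hX : Clean (2 ^ 90) X) (i : Nat) :
    fd (Nat.add (Nat.land (Nat.shiftRight X (128 * a)) f0m)
      (Nat.land (Nat.shiftRight X (128 * b)) f0m)) i =
      if i < 216 ∧ i % 8 < 1 then fd X (i + a) + fd X (i + b) else 0 := by
  have h := fd_add (X := Nat.land (Nat.shiftRight X (128 * a)) f0m)
    (Y := Nat.land (Nat.shiftRight X (128 * b)) f0m) (fun i => by
      rw [blk_fd_f0m_land, blk_fd_f0m_land, fd_shr, fd_shr]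
      have h1 := (hX (i + a)).1
      have h2 := (hX (i + b)).1
      split_ifs <;> omega) i
  have h2 : fd (Nat.add (Nat.land (Nat.shiftRight X (128 * a)) f0m)
      (Nat.land (Nat.shiftRight X (128 * b)) f0m)) i =
      fd (Nat.land (Nat.shiftRight X (128 * a)) f0m) i +
      fd (Nat.land (Nat.shiftRight X (128 * b)) f0m) i := h
  rw [h2, blk_fd_f0m_land, blk_fd_f0m_land, fd_shr, fd_shr]
  split_ifs <;> rfl

private theorem blk_land_bit {a b : Nat} (ha : a < 2 ^ 100) (hb : b < 2 ^ 100) :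
    Nat.land (a + 2 ^ 100 - b) (2 ^ 100) = if b ≤ a then 2 ^ 100 else 0 := by
  have e : Nat.land (a + 2 ^ 100 - b) (2 ^ 100) = (a + 2 ^ 100 - b) &&& 2 ^ 100 := rfl
  rw [e, Nat.and_two_pow]
  have h2 : (a + 2 ^ 100 - b).testBit 100 = decide (b ≤ a) := by
    rw [Nat.testBit_eq_decide_div_mod_eq]
    by_cases h : b ≤ a
    · have h3 : (a + 2 ^ 100 - b) / 2 ^ 100 = 1 := by
        apply Nat.div_eq_of_lt_le <;> omega
      rw [h3]
      simp [h]
    · have h3 : (a + 2 ^ 100 - b) / 2 ^ 100 = 0 := by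
        apply Nat.div_eq_of_lt
        omega
      rw [h3]
      simp [h]
  rw [h2]
  by_cases h : b ≤ a
  · simp [h]
  · simp [h]

/-- truncated difference of two numbers whose fields are at the places `8 j` -/
private theorem blk_diff {U V : Nat} (hU : ∀ i, fd U i < 2 ^ 100) (hV : ∀ i, fd V i < 2 ^ 100)
    (hU0 : ∀ i, ¬ (i < 216 ∧ i % 8 < 1) → fd U i = 0)
    (hV0 : ∀ i, ¬ (i < 216 ∧ i % 8 < 1) → fd V i = 0) (i : Nat) :
    fd (Nat.land (Nat.sub (Nat.add U g0) V)
      (Nat.sub (Nat.land (Nat.sub (Nat.add U g0) V) g0)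
        (Nat.shiftRight (Nat.land (Nat.sub (Nat.add U g0) V) g0) 100))) i = fd U i - fd V i := by
  have hA : ∀ i, fd (Nat.add U g0) i = fd U i + if i < 216 ∧ i % 8 < 1 then 2 ^ 100 else 0 := by
    intro i
    have h1 := fd_add (X := U) (Y := g0) (fun i => by
      rw [fd_g0]
      have := hU i
      split_ifs <;> omega) i
    rw [fd_g0] at h1
    exact h1
  have hT : ∀ i, fd (Nat.sub (Nat.add U g0) V) i =
      if i < 216 ∧ i % 8 < 1 then fd U i + 2 ^ 100 - fd V i else 0 := by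
    intro i
    have h1 := fd_sub (X := Nat.add U g0) (Y := V) (fun i => by
      rw [hA]
      by_cases hi : i < 216 ∧ i % 8 < 1
      · rw [if_pos hi]
        have := hV i
        omega
      · rw [hV0 i hi]
        exact Nat.zero_le _) i
    have h2 : fd (Nat.sub (Nat.add U g0) V) i = fd (Nat.add U g0) i - fd V i := h1
    rw [h2, hA]
    by_cases hi : i < 216 ∧ i % 8 < 1
    · rw [if_pos hi, if_pos hi]
    · rw [if_neg hi, if_neg hi, hU0 i hi, hV0 i hi]
  have hK : ∀ i, fd (Nat.land (Nat.sub (Nat.add U g0) V) g0) i =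
      if (i < 216 ∧ i % 8 < 1) ∧ fd V i ≤ fd U i then 2 ^ 100 else 0 := by
    intro i
    rw [fd_land, fd_g0, hT]
    by_cases hi : i < 216 ∧ i % 8 < 1
    · rw [if_pos hi, if_pos hi, blk_land_bit (hU i) (hV i)]
      by_cases h2 : fd V i ≤ fd U i
      · rw [if_pos h2, if_pos ⟨hi, h2⟩]
      · rw [if_neg h2, if_neg (fun h3 => h2 h3.2)]
    · rw [if_neg hi, if_neg hi, if_neg (fun h3 => hi h3.1)]
      exact land_zero_right _
  have hR : ∀ i, fd (Nat.shiftRight (Nat.land (Nat.sub (Nat.add U g0) V) g0) 100) i =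
      if (i < 216 ∧ i % 8 < 1) ∧ fd V i ≤ fd U i then 1 else 0 := by
    intro i
    rw [fd_shr_gen (by norm_num), hK, hK]
    have e : ((if ((i + 1) < 216 ∧ (i + 1) % 8 < 1) ∧ fd V (i + 1) ≤ fd U (i + 1)
        then 2 ^ 100 else 0) % 2 ^ 100 : Nat) = 0 := by
      split_ifs <;> norm_num
    rw [e, Nat.zero_mul, Nat.add_zero]
    split_ifs <;> norm_num
  have hM : fd (Nat.sub (Nat.land (Nat.sub (Nat.add U g0) V) g0)
      (Nat.shiftRight (Nat.land (Nat.sub (Nat.add U g0) V) g0) 100)) i =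
      if (i < 216 ∧ i % 8 < 1) ∧ fd V i ≤ fd U i then 2 ^ 100 - 1 else 0 := by
    have h1 := fd_sub (X := Nat.land (Nat.sub (Nat.add U g0) V) g0)
      (Y := Nat.shiftRight (Nat.land (Nat.sub (Nat.add U g0) V) g0) 100) (fun i => by
        rw [hK, hR]
        split_ifs <;> norm_num) i
    refine h1.trans ?_
    rw [hK, hR]
    split_ifs <;> norm_num
  rw [fd_land, hM, hT]
  by_cases hi : i < 216 ∧ i % 8 < 1
  · rw [if_pos hi]
    by_cases h2 : fd V i ≤ fd U i
    · rw [if_pos ⟨hi, h2⟩, land_mask]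
      have h3 : fd U i + 2 ^ 100 - fd V i = (fd U i - fd V i) + 2 ^ 100 := by omega
      rw [h3, Nat.add_mod_right]
      apply Nat.mod_eq_of_lt
      have := hU i
      omega
    · have h3 : fd U i - fd V i = 0 := Nat.sub_eq_zero_of_le (by omega)
      rw [if_neg (fun h3 => h2 h3.2), h3]
      exact land_zero_right _
  · rw [if_neg hi, if_neg (fun h3 => hi h3.1), hU0 i hi, Nat.zero_sub]
    exact land_zero_right _

/-- the fields of `rmag` -/
private theorem blk_rmag_fd {X : Nat} (hX : Clean (2 ^ 90) X) (i : Nat) :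
    fd (rmag X) i = if i < 216 ∧ i % 8 < 1 then
      (fd X (i + 1) + fd X (i + 3) +
        (fd X i + fd X (i + 2) - (fd X (i + 1) + fd X (i + 3)))) +
      (fd X i + fd X (i + 2) -
        (fd X i + fd X (i + 2) - (fd X (i + 1) + fd X (i + 3)))) * 425 / 2 ^ 10 else 0 := by
  have hU : ∀ i, fd (Nat.add (Nat.land X f0m) (Nat.land (Nat.shiftRight X 256) f0m)) i =
      if i < 216 ∧ i % 8 < 1 then fd X i + fd X (i + 2) else 0 := fun i =>
    blk_fd_U (a := 0) (b := 2) hX i
  have hV : ∀ i, fd (Nat.add (Nat.land (Nat.shiftRight X 128) f0m)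
      (Nat.land (Nat.shiftRight X 384) f0m)) i =
      if i < 216 ∧ i % 8 < 1 then fd X (i + 1) + fd X (i + 3) else 0 := fun i =>
    blk_fd_U (a := 1) (b := 3) hX i
  have hb : ∀ i, fd X i < 2 ^ 90 := fun i => (hX i).1
  have hU1 : ∀ i, fd (Nat.add (Nat.land X f0m) (Nat.land (Nat.shiftRight X 256) f0m)) i < 2 ^ 91 :=
    fun i => by
      rw [hU]
      have h1 := hb i
      have h2 := hb (i + 2)
      split_ifs <;> omega
  have hV1 : ∀ i, fd (Nat.add (Nat.land (Nat.shiftRight X 128) f0m)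
      (Nat.land (Nat.shiftRight X 384) f0m)) i < 2 ^ 91 := fun i => by
    rw [hV]
    have h1 := hb (i + 1)
    have h2 := hb (i + 3)
    split_ifs <;> omega
  set U := Nat.add (Nat.land X f0m) (Nat.land (Nat.shiftRight X 256) f0m) with eU
  set V := Nat.add (Nat.land (Nat.shiftRight X 128) f0m)
      (Nat.land (Nat.shiftRight X 384) f0m) with eV
  have hD := blk_diff (U := U) (V := V) (fun i => lt_trans (hU1 i) (by norm_num))
    (fun i => lt_trans (hV1 i) (by norm_num)) (fun i h => by rw [hU, if_neg h])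
    (fun i h => by rw [hV, if_neg h])
  set a := Nat.land (Nat.sub (Nat.add U g0) V)
      (Nat.sub (Nat.land (Nat.sub (Nat.add U g0) V) g0)
        (Nat.shiftRight (Nat.land (Nat.sub (Nat.add U g0) V) g0) 100)) with ea
  have hS : ∀ i, fd (Nat.add V a) i = fd V i + (fd U i - fd V i) := by
    intro i
    have h := fd_add (X := V) (Y := a) (fun i => by
      rw [hD]
      have h1 := hU1 i
      have h2 := hV1 i
      omega) i
    have h2 : fd (Nat.add V a) i = fd V i + fd a i := h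
    rw [h2, hD]
  have hW : ∀ i, fd (Nat.sub U a) i = fd U i - (fd U i - fd V i) := by
    intro i
    have h := fd_sub (X := U) (Y := a) (fun i => by
      rw [hD]
      omega) i
    have h2 : fd (Nat.sub U a) i = fd U i - fd a i := h
    rw [h2, hD]
  have hM : ∀ i, fd (Nat.mul (Nat.sub U a) 425) i = (fd U i - (fd U i - fd V i)) * 425 := by
    intro i
    have h := fd_mul_one (X := Nat.sub U a) (c := 425) (fun i => by
      rw [hW]
      have h1 := hU1 i
      omega) i
    have h2 : fd (Nat.mul (Nat.sub U a) 425) i = fd (Nat.sub U a) i * 425 := h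
    rw [h2, hW]
  have hN : ∀ i, fd (Nat.land (Nat.shiftRight (Nat.mul (Nat.sub U a) 425) 10) f0m) i =
      (fd U i - (fd U i - fd V i)) * 425 / 2 ^ 10 := by
    intro i
    rw [blk_fd_f0m_land]
    by_cases hi : i < 216 ∧ i % 8 < 1
    · rw [if_pos hi, fd_shr_gen (by norm_num), hM, hM]
      have e1 : fd U (i + 1) = 0 := by rw [hU, if_neg (by omega)]
      rw [e1]
      simp
    · rw [if_neg hi]
      have e1 : fd U i = 0 := by rw [hU, if_neg hi]
      rw [e1]
      simp
  have hT : fd (rmag X) i = (fd V i + (fd U i - fd V i)) +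
      (fd U i - (fd U i - fd V i)) * 425 / 2 ^ 10 := by
    have h := fd_add (X := Nat.add V a)
      (Y := Nat.land (Nat.shiftRight (Nat.mul (Nat.sub U a) 425) 10) f0m) (fun i => by
      rw [hS, hN]
      have h1 := hU1 i
      have h2 := hV1 i
      omega) i
    have h2 : fd (rmag X) i = fd (Nat.add V a) i +
      fd (Nat.land (Nat.shiftRight (Nat.mul (Nat.sub U a) 425) 10) f0m) i := h
    rw [h2, hS, hN]
  rw [hT, hU, hV]
  by_cases hi : i < 216 ∧ i % 8 < 1
  · rw [if_pos hi, if_pos hi, if_pos hi]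
  · rw [if_neg hi, if_neg hi, if_neg hi]
    norm_num

/-- only the fields `8 j`, `j < 27`, are nonzero; the shift by `10` loses at most one unit -/
theorem rmag_spec {X : Nat} (hX : Clean (2 ^ 90) X) :
    (∀ i, i % 8 ≠ 0 ∨ 216 ≤ i → fd (rmag X) i = 0) ∧
      (∀ j, ‖bz X j‖ * 2 ^ 40 ≤ (fd (rmag X) (8 * j) : ℝ) + 1) ∧
      ∀ i, fd (rmag X) i < 2 ^ 92 := by
  have key : ∀ j, ‖bz X j‖ * 2 ^ 40 ≤ ((fd X (8 * j + 1) + fd X (8 * j + 3) +
        (fd X (8 * j) + fd X (8 * j + 2) - (fd X (8 * j + 1) + fd X (8 * j + 3))) : Nat) : ℝ) +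
      ((fd X (8 * j) + fd X (8 * j + 2) -
        (fd X (8 * j) + fd X (8 * j + 2) - (fd X (8 * j + 1) + fd X (8 * j + 3))) : Nat) : ℝ) *
        (425 / 1024) := by
    intro j
    generalize hM : fd X (8 * j + 1) + fd X (8 * j + 3) +
        (fd X (8 * j) + fd X (8 * j + 2) - (fd X (8 * j + 1) + fd X (8 * j + 3))) = M
    generalize hm : fd X (8 * j) + fd X (8 * j + 2) -
        (fd X (8 * j) + fd X (8 * j + 2) - (fd X (8 * j + 1) + fd X (8 * j + 3))) = m
    have hmM : m ≤ M := by omega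
    have hcase : (fd X (8 * j) + fd X (8 * j + 2) = M ∧ fd X (8 * j + 1) + fd X (8 * j + 3) = m) ∨
        (fd X (8 * j) + fd X (8 * j + 2) = m ∧ fd X (8 * j + 1) + fd X (8 * j + 3) = M) := by
      omega
    have hn : ‖bz X j‖ * 2 ^ 40 = Real.sqrt (((fd X (8 * j) : ℝ) - fd X (8 * j + 2)) ^ 2 +
        ((fd X (8 * j + 1) : ℝ) - fd X (8 * j + 3)) ^ 2) := by
      have e : bz X j = ((((fd X (8 * j) : ℝ) - fd X (8 * j + 2) : ℝ) : ℂ) +
        (((fd X (8 * j + 1) : ℝ) - fd X (8 * j + 3) : ℝ) : ℂ) * I) / ((2 ^ 40 : ℝ) : ℂ) := by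
        unfold bz
        push_cast
        ring
      rw [e, norm_div, norm_real, Real.norm_eq_abs, abs_of_pos (by positivity : (0 : ℝ) < 2 ^ 40),
        div_mul_cancel₀ _ (by positivity : (2 : ℝ) ^ 40 ≠ 0), norm_add_mul_I]
    rw [hn]
    have hm0 : (0 : ℝ) ≤ m := Nat.cast_nonneg m
    have hM0 : (m : ℝ) ≤ M := by exact_mod_cast hmM
    have hsq : ∀ a b : Nat, ((a : ℝ) - b) ^ 2 ≤ ((a : ℝ) + b) ^ 2 := by
      intro a b
      have ha : (0 : ℝ) ≤ a := Nat.cast_nonneg a
      have hb : (0 : ℝ) ≤ b := Nat.cast_nonneg b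
      nlinarith [mul_nonneg ha hb]
    have h1 := hsq (fd X (8 * j)) (fd X (8 * j + 2))
    have h2 := hsq (fd X (8 * j + 1)) (fd X (8 * j + 3))
    have h3 : ((fd X (8 * j) : ℝ) + fd X (8 * j + 2)) ^ 2 +
        ((fd X (8 * j + 1) : ℝ) + fd X (8 * j + 3)) ^ 2 = (M : ℝ) ^ 2 + (m : ℝ) ^ 2 := by
      rcases hcase with ⟨ha, hb⟩ | ⟨ha, hb⟩
      · rw [← ha, ← hb]
        push_cast
        ring
      · rw [← ha, ← hb]
        push_cast
        ring
    rw [Real.sqrt_le_iff]
    constructor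
    · positivity
    · have h4 : (M : ℝ) ^ 2 + (m : ℝ) ^ 2 ≤ ((M : ℝ) + (m : ℝ) * (425 / 1024)) ^ 2 := by
        nlinarith [mul_nonneg hm0 (sub_nonneg.2 hM0), mul_nonneg hm0 hm0]
      linarith
  refine ⟨fun i hi => ?_, fun j => ?_, fun i => ?_⟩
  · rw [blk_rmag_fd hX, if_neg (by omega)]
  · by_cases hj : j < 27
    · refine le_trans (key j) ?_
      rw [blk_rmag_fd hX, if_pos (by omega)]
      generalize fd X (8 * j + 1) + fd X (8 * j + 3) +
        (fd X (8 * j) + fd X (8 * j + 2) - (fd X (8 * j + 1) + fd X (8 * j + 3))) = S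
      generalize fd X (8 * j) + fd X (8 * j + 2) -
        (fd X (8 * j) + fd X (8 * j + 2) - (fd X (8 * j + 1) + fd X (8 * j + 3))) = s
      have h1 := Nat.div_add_mod (s * 425) (2 ^ 10)
      have h2 := Nat.mod_lt (s * 425) (y := 2 ^ 10) (by norm_num)
      generalize s * 425 / 2 ^ 10 = q at *
      generalize s * 425 % 2 ^ 10 = r at *
      have h3 : (s : ℝ) * 425 = 1024 * q + r := by
        have h4 : ((2 ^ 10 * q + r : Nat) : ℝ) = ((s * 425 : Nat) : ℝ) := by rw [h1]
        push_cast at h4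
        linarith
      have h5 : (r : ℝ) ≤ 1024 := by
        have h6 : r ≤ 1024 := by omega
        exact_mod_cast h6
      push_cast
      have h7 : (s : ℝ) * (425 / 1024) = (1024 * q + r) / 1024 := by
        rw [← h3]
        ring
      rw [h7]
      have h8 : (1024 * (q : ℝ) + r) / 1024 ≤ q + 1 := by
        rw [div_le_iff₀ (by norm_num)]
        linarith
      linarith
    · rw [bz_zero_of_clean hX (by omega), norm_zero, zero_mul]
      positivity
  · rw [blk_rmag_fd hX]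
    have h0 := (hX i).1
    have h1 := (hX (i + 1)).1
    have h2 := (hX (i + 2)).1
    have h3 := (hX (i + 3)).1
    split_ifs
    · omega
    · norm_num

private theorem tot_eq {R n : Nat} (hn : n ≤ 27) (h : ∀ i, i % 8 ≠ 0 ∨ 8 * n ≤ i → fd R i = 0) :
    tot R = ∑ j ∈ Finset.range n, fd R (8 * j) + 27 := by
  have e : tot R = Nat.mod R m1024 + 27 := rfl
  rw [e, mod_m1024N (n := n) (by omega) h]

private theorem tot_rmag {X : Nat} (hX : Clean (2 ^ 90) X) :
    tot (rmag X) = ∑ j ∈ Finset.range 27, fd (rmag X) (8 * j) + 27 :=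
  tot_eq le_rfl (fun i hi => (rmag_spec hX).1 i (by omega))

theorem tot_spec {X : Nat} (hX : Clean (2 ^ 90) X) :
    (∑ j ∈ Finset.range 27, ‖bz X j‖) * 2 ^ 40 ≤ (tot (rmag X) : ℝ) := by
  rw [tot_rmag hX, Finset.sum_mul]
  refine le_trans (Finset.sum_le_sum (fun j _ => (rmag_spec hX).2.1 j)) ?_
  rw [Finset.sum_add_distrib]
  push_cast
  simp

private theorem split27 (f : Nat → Nat) : ∑ j ∈ Finset.range 27, f j =
    ∑ j ∈ Finset.range 13, f j + ∑ j ∈ Finset.range 14, f (j + 13) := by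
  rw [show (27 : Nat) = 13 + 14 by norm_num, Finset.sum_range_add]
  simp only [Nat.add_comm 13]

private theorem GD_aux {S Q : Nat} (hS : Clean (2 ^ 90) S)
    (hm : ∀ i, fd Q i = if i < 104 then fd (rmag S) i else 0) :
    (∑ j ∈ Finset.range 13, ‖bz S j‖) * 2 ^ 40 ≤ (tot Q : ℝ) ∧
      (tot Q : ℝ) + (∑ j ∈ Finset.range 14, ‖bz S (j + 13)‖) * 2 ^ 40 ≤
        (tot (rmag S) : ℝ) + 27 := by
  obtain ⟨h1, h2, h3⟩ := rmag_spec hS
  have e1 : tot Q = ∑ j ∈ Finset.range 13, fd (rmag S) (8 * j) + 27 := by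
    rw [tot_eq (n := 13) (by norm_num) (fun i hi => by
      rw [hm]
      split_ifs with h
      · exact h1 i (by omega)
      · rfl)]
    have e0 : ∀ j ∈ Finset.range 13, fd Q (8 * j) = fd (rmag S) (8 * j) := by
      intro j hj
      have := Finset.mem_range.1 hj
      rw [hm, if_pos (by omega)]
    rw [Finset.sum_congr rfl e0]
  have e2 : tot (rmag S) = ∑ j ∈ Finset.range 13, fd (rmag S) (8 * j) +
      ∑ j ∈ Finset.range 14, fd (rmag S) (8 * (j + 13)) + 27 := by
    rw [tot_rmag hS, split27 (fun j => fd (rmag S) (8 * j))]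
  have h4 : (∑ j ∈ Finset.range 14, ‖bz S (j + 13)‖) * 2 ^ 40 ≤
      ∑ j ∈ Finset.range 14, (fd (rmag S) (8 * (j + 13)) : ℝ) + 14 := by
    rw [Finset.sum_mul]
    refine le_trans (Finset.sum_le_sum (fun j _ => h2 (j + 13))) (le_of_eq ?_)
    rw [Finset.sum_add_distrib]
    simp
  have h5 : (∑ j ∈ Finset.range 13, ‖bz S j‖) * 2 ^ 40 ≤
      ∑ j ∈ Finset.range 13, (fd (rmag S) (8 * j) : ℝ) + 13 := by
    rw [Finset.sum_mul]
    refine le_trans (Finset.sum_le_sum (fun j _ => h2 j)) (le_of_eq ?_)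
    rw [Finset.sum_add_distrib]
    simp
  have e1' : (tot Q : ℝ) = ∑ j ∈ Finset.range 13, (fd (rmag S) (8 * j) : ℝ) + 27 := by
    rw [e1]
    push_cast
    rfl
  have e2' : (tot (rmag S) : ℝ) = ∑ j ∈ Finset.range 13, (fd (rmag S) (8 * j) : ℝ) +
      ∑ j ∈ Finset.range 14, (fd (rmag S) (8 * (j + 13)) : ℝ) + 27 := by
    rw [e2]
    push_cast
    rfl
  rw [e1', e2']
  constructor <;> linarith

/-- the fields `G` and `D` of `mdl` for `S = X >>> 1024`: blocks `0..12` of `S` are the linear ones -/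
theorem GD_spec {S : Nat} (hS : Clean (2 ^ 90) S) :
    (∑ j ∈ Finset.range 13, ‖bz S j‖) * 2 ^ 40 ≤
        (tot (Nat.mod (rmag S) (Nat.pow 2 13312)) : ℝ) ∧
      (tot (Nat.mod (rmag S) (Nat.pow 2 13312)) : ℝ) +
        (∑ j ∈ Finset.range 14, ‖bz S (j + 13)‖) * 2 ^ 40 ≤ (tot (rmag S) : ℝ) + 27 :=
  GD_aux hS (by
    intro i
    have e : (13312 : Nat) = 128 * 104 := by norm_num
    rw [e]
    exact fd_mod_pow (rmag S) 104 i)

theorem reSum_spec {X : Nat} (hX : Clean (2 ^ 90) X) :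
    reSum X = ∑ j ∈ Finset.range 27, (fd X (8 * j) + fd X (8 * j + 2)) := by
  have hU : ∀ i, fd (Nat.add (Nat.land X f0m) (Nat.land (Nat.shiftRight X 256) f0m)) i =
      if i < 216 ∧ i % 8 < 1 then fd X i + fd X (i + 2) else 0 := fun i =>
    blk_fd_U (a := 0) (b := 2) hX i
  have h := mod_m1024N (P := Nat.add (Nat.land X f0m) (Nat.land (Nat.shiftRight X 256) f0m))
    (n := 27) (by norm_num) (fun i hi => by rw [hU, if_neg (by omega)])
  refine h.trans ?_
  apply Finset.sum_congr rfl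
  intro j hj
  rw [Finset.mem_range] at hj
  rw [hU, if_pos (by omega)]

/-! ### construction -/

private theorem blk_fd_small {a : Nat} (ha : a < 2 ^ 128) (i : Nat) :
    fd a i = if i = 0 then a else 0 := by
  by_cases hi : i = 0
  · subst hi
    rw [if_pos rfl, fd_zero]
    exact Nat.mod_eq_of_lt ha
  · rw [if_neg hi]
    exact fd_of_lt (n := 1) (by rw [Nat.mul_one]; exact ha) (by omega)

private theorem blk_fd_shl_small {a : Nat} (ha : a < 2 ^ 128) (k i : Nat) :
    fd (Nat.shiftLeft a (128 * k)) i = if i = k then a else 0 := by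
  rw [fd_shl]
  by_cases h : i < k
  · rw [if_pos h, if_neg (by omega)]
  · rw [if_neg h, blk_fd_small ha]
    by_cases h2 : i = k
    · rw [if_pos (by omega), if_pos h2]
    · rw [if_neg (by omega), if_neg h2]

/-- a real number `c` in the block `0` and `h` in the block `pos j` -/
theorem var_spec {c h j : Nat} (hc : c < 2 ^ 62) (hh : h < 2 ^ 62) (hj : j < 4) :
    Clean (2 ^ 62) (Nat.add c (Nat.shiftLeft h (Nat.mul 1024 (pos j)))) ∧
      ∀ i, bz (Nat.add c (Nat.shiftLeft h (Nat.mul 1024 (pos j)))) i =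
        if i = 0 then (((c : ℝ) / 2 ^ 40 : ℝ) : ℂ) else
          if i = pos j then (((h : ℝ) / 2 ^ 40 : ℝ) : ℂ) else 0 := by
  have hc2 : c < 2 ^ 128 := lt_trans hc (by norm_num)
  have hh2 : h < 2 ^ 128 := lt_trans hh (by norm_num)
  have hp : 7 ≤ pos j ∧ pos j ≤ 13 := by
    rcases (by omega : j = 0 ∨ j = 1 ∨ j = 2 ∨ j = 3) with rfl | rfl | rfl | rfl <;>
      (unfold pos; norm_num)
  generalize pos j = p at *
  have eH : ∀ i, fd (Nat.shiftLeft h (Nat.mul 1024 p)) i =
      if i = 8 * p then h else 0 := by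
    have e : Nat.mul 1024 p = 128 * (8 * p) := by
      change 1024 * p = 128 * (8 * p)
      ring
    rw [e]
    exact blk_fd_shl_small hh2 (8 * p)
  have hf : ∀ i, fd (Nat.add c (Nat.shiftLeft h (Nat.mul 1024 p))) i =
      (if i = 0 then c else 0) + (if i = 8 * p then h else 0) := by
    intro i
    have h1 := fd_add (X := c) (Y := Nat.shiftLeft h (Nat.mul 1024 p)) (fun i => by
      rw [blk_fd_small hc2, eH]
      split_ifs <;> omega) i
    have h2 : fd (Nat.add c (Nat.shiftLeft h (Nat.mul 1024 p))) i =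
      fd c i + fd (Nat.shiftLeft h (Nat.mul 1024 p)) i := h1
    rw [h2, blk_fd_small hc2, eH]
  refine ⟨fun i => ?_, fun i => ?_⟩
  · rw [hf]
    constructor
    · split_ifs <;> omega
    · intro hi
      rw [if_neg (by omega), if_neg (by omega)]
  · have g0 : fd (Nat.add c (Nat.shiftLeft h (Nat.mul 1024 p))) (8 * i) =
        if i = 0 then c else if i = p then h else 0 := by
      rw [hf]
      split_ifs <;> omega
    have g1 : ∀ m, 1 ≤ m → m ≤ 3 →
        fd (Nat.add c (Nat.shiftLeft h (Nat.mul 1024 p))) (8 * i + m) = 0 := by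
      intro m h1 h2
      rw [hf]
      split_ifs <;> omega
    unfold bz
    rw [g0, g1 1 (by norm_num) (by norm_num), g1 2 (by norm_num) (by norm_num),
      g1 3 (by norm_num) (by norm_num)]
    by_cases h0 : i = 0
    · rw [if_pos h0, if_pos h0]
      simp
    · rw [if_neg h0, if_neg h0]
      by_cases h1 : i = p
      · rw [if_pos h1, if_pos h1]
        simp
      · rw [if_neg h1, if_neg h1]
        simp

end Pool.Agent.helper82.QB
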