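import Pool.Agent.helper31.IB.Defs
import Pool.Agent.helper31.IF.Defs

/-!
# QB: packed second order kernel arithmetic, definitions

Same programs, same one-number functions as `IB`.  A model has a centre, a linear and a quadratic
form in (at most four) noise symbols.  Block `0` of `A.X` is the centre, the block `a i` the
coefficient of `ε i`, the block `a i + a j` the coefficient of `ε i ε j`, `a = 7, 8, 11, 13`
(all sums are different and larger than `13`); `27` blocks.
-/

namespace Pool.Agent.helper82.QB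

open Pool.Agent.helper31.IA (Z Op)
open Pool.Agent.helper31.IB (rep4 m512 m1024 m128 mZ mg fd pack mz zinv ofZ)
open Pool.Agent.helper31.IF (zexp zlog)

/-- `Σ_{j < 27} 2^(1024 j)` -/
def rep : Nat := Nat.div (Nat.sub (Nat.pow 2 27648) 1) (Nat.sub (Nat.pow 2 1024) 1)

/-- fields `0..3` of all blocks -/
def mB : Nat := Nat.mul rep m512

/-- fields `0, 1` of all blocks -/
def m01 : Nat := Nat.mul rep (Nat.sub (Nat.pow 2 256) 1)

/-- field `0` of all blocks -/
def f0m : Nat := Nat.mul rep m128

/-- low `88` bits of the fields `0..3` of all blocks -/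
def mS : Nat := Nat.mul rep mZ

/-- low `87` bits of the fields `0..3` of all blocks -/
def mS1 : Nat := Nat.mul rep (Nat.mul rep4 (Nat.sub (Nat.pow 2 87) 1))

/-- guard bits `100` of the fields `0..3` of all blocks -/
def gG : Nat := Nat.mul rep (Nat.mul rep4 (Nat.pow 2 100))

/-- guard bits `100` of the field `0` of all blocks -/
def g0 : Nat := Nat.mul rep (Nat.pow 2 100)

/-- one in the given blocks -/
def bsel : List Nat → Nat
  | [] => 0
  | j :: t => Nat.add (Nat.shiftLeft 1 (Nat.mul 1024 j)) (bsel t)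

/-- allowed blocks -/
def sel : Nat := bsel [0, 7, 8, 11, 13, 14, 15, 16, 18, 19, 20, 21, 22, 24, 26]

/-- all bits but the low `61` bits of the fields `0..3` of the allowed blocks -/
def hB : Nat := Nat.sub (Nat.sub (Nat.pow 2 27648) 1)
  (Nat.mul sel (Nat.mul rep4 (Nat.sub (Nat.pow 2 61) 1)))

/-- all fields are `< 2^61`, only the fields `0..3` of the allowed blocks are nonzero -/
def good (X : Nat) : Bool := Nat.beq (Nat.land X hB) 0 && Nat.beq (Nat.shiftRight X 27648) 0

def fold (P : Nat) : Nat := Nat.add (Nat.land P mB) (Nat.land (Nat.shiftRight P 512) mB)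

def sh (P : Nat) : Nat := Nat.land (Nat.shiftRight P 40) mS

def sh1 (P : Nat) : Nat := Nat.land (Nat.shiftRight P 41) mS1

def swap (X : Nat) : Nat :=
  Nat.add (Nat.land (Nat.shiftRight X 256) m01) (Nat.shiftLeft (Nat.land X m01) 256)

def nrm (X : Nat) : Nat :=
  let t := Nat.sub (Nat.add X gG) (swap X)
  let k := Nat.land t gG
  Nat.land t (Nat.sub k (Nat.shiftRight k 100))

def mulX (X c : Nat) : Nat := nrm (sh (fold (Nat.mul X c)))

/-- linear part, block `a i - 7` is the coefficient of `ε i` -/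
def lin (X : Nat) : Nat := Nat.mod (Nat.shiftRight X 7168) (Nat.pow 2 7168)

/-- per block upper bound of `2^40 ‖ ‖` in the field `0` -/
def rmag (X : Nat) : Nat :=
  let U := Nat.add (Nat.land X f0m) (Nat.land (Nat.shiftRight X 256) f0m)
  let V := Nat.add (Nat.land (Nat.shiftRight X 128) f0m) (Nat.land (Nat.shiftRight X 384) f0m)
  let t := Nat.sub (Nat.add U g0) V
  let k := Nat.land t g0
  let a := Nat.land t (Nat.sub k (Nat.shiftRight k 100))
  Nat.add (Nat.add V a) (Nat.land (Nat.shiftRight (Nat.mul (Nat.sub U a) 425) 10) f0m)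

/-- sum of the fields `8 j` -/
def tot (R : Nat) : Nat := Nat.add (Nat.mod R m1024) 27

/-- second order model: blocks, bound of the linear part, bound of `‖value - centre‖` (in units),
error, validity -/
structure A where
  X : Nat
  G : Nat
  D : Nat
  r : Nat
  ok : Bool
deriving Repr, Inhabited

def mdl (X r : Nat) (b : Bool) : A :=
  let R := rmag (Nat.shiftRight X 1024)
  ⟨X, tot (Nat.mod R (Nat.pow 2 13312)), Nat.add (Nat.add (tot R) 27) r, r,
    b && good X && Nat.ble r 4611686018427387904⟩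

def A.const (z : Z) : A := mdl (Pool.Agent.helper31.IB.ofZ z) 0
  (Nat.ble (Nat.add (Nat.add z.a z.b) (Nat.add z.c z.d)) 4611686018427387903)

def A.add (x y : A) : A := mdl (nrm (Nat.add x.X y.X)) (Nat.add x.r y.r) (x.ok && y.ok)

def A.neg (x : A) : A := mdl (swap x.X) x.r x.ok

def A.sub (x y : A) : A := mdl (nrm (Nat.add x.X (swap y.X))) (Nat.add x.r y.r) (x.ok && y.ok)

def A.mul (x y : A) : A :=
  let c1 := Nat.land x.X m512
  let c2 := Nat.land y.X m512
  mdl (nrm (sh (fold (Nat.add (Nat.add (Nat.mul x.X c2) (Nat.mul (Nat.sub y.X c2) c1))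
      (Nat.shiftLeft (Nat.mul (lin x.X) (lin y.X)) 14336)))))
    (Nat.add (Nat.shiftRight
       (Nat.add (Nat.add (Nat.mul (mg c1) y.r) (Nat.mul (mg c2) x.r))
         (Nat.sub (Nat.mul x.D y.D) (Nat.mul x.G y.G))) 40) 60)
    (x.ok && y.ok)

def A.scale (z : Z) (x : A) : A :=
  let c := ofZ z
  mdl (mulX x.X c) (Nat.add (Nat.shiftRight (Nat.mul (mg c) x.r) 40) 60)
    (x.ok && Nat.ble (Nat.add (Nat.add z.a z.b) (Nat.add z.c z.d)) 4611686018427387903)

def A.inv (x : A) : A :=
  let c := Nat.land x.X m512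
  let u := zinv c
  let U := Nat.add (Pool.Agent.helper31.IB.dmag u.1) 2
  let h := Nat.add (Nat.shiftRight (Nat.mul U x.D) 40) 1
  let y := mulX (Nat.sub x.X c) u.1
  let l := lin y
  let w := nrm (Nat.add (swap y) (Nat.shiftLeft (sh (fold (Nat.mul l l))) 14336))
  bif x.ok && Nat.ble 1099511627776 u.2 && Nat.ble h 549755813888 && good u.1 && good y && good w then
    mdl (Nat.add u.1 (mulX w u.1))
      (Nat.add
        (Nat.add
          (Nat.shiftRight (Nat.mul (Nat.mul U U) (Nat.add (Nat.shiftLeft x.r 80)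
            (Nat.mul U (Nat.sub (Nat.mul x.D x.D) (Nat.mul x.G x.G))))) 160)
          (Nat.div (Nat.mul U (Nat.mul h (Nat.mul h h)))
            (Nat.shiftLeft (Nat.sub 1099511627776 h) 80)))
        (Nat.add (Nat.shiftRight (Nat.mul 300 U) 40) 100))
      true
  else ⟨0, 0, 0, 0, false⟩

def A.exp (x : A) : A :=
  let c := Nat.land x.X m512
  let E := zexp c
  let M := Nat.add (Pool.Agent.helper31.IB.dmag E.1) E.2.1
  let l := lin x.X
  let w := nrm (Nat.add (Nat.sub x.X c) (Nat.shiftLeft (sh1 (fold (Nat.mul l l))) 14336))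
  let q := Nat.add (Nat.add (Nat.shiftRight (Nat.sub (Nat.mul x.D x.D) (Nat.mul x.G x.G)) 41)
    (Nat.div (Nat.mul (Nat.mul x.D (Nat.mul x.D x.D)) (Nat.add 3298534883328 x.D))
      (Nat.shiftLeft 18 120))) 60
  bif x.ok && E.2.2 && Nat.ble x.D 1099511627776 && good E.1 && good w then
    mdl (Nat.add E.1 (mulX w E.1))
      (Nat.add
        (Nat.add E.2.1 (Nat.shiftRight (Nat.mul E.2.1 (Nat.mul 2 x.D)) 40))
        (Nat.add (Nat.shiftRight (Nat.mul M (Nat.add x.r q)) 40) 100))
      true
  else ⟨0, 0, 0, 0, false⟩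

def A.log (x : A) : A :=
  let c := Nat.land x.X m512
  let l := zlog c
  let u := zinv c
  let U := Nat.add (Pool.Agent.helper31.IB.dmag u.1) 2
  let h := Nat.add (Nat.shiftRight (Nat.mul U x.D) 40) 1
  let im := Nat.add (Nat.sub (fd l.1 1) (fd l.1 3)) (Nat.sub (fd l.1 3) (fd l.1 1))
  let y := mulX (Nat.sub x.X c) u.1
  let k := lin y
  let w := nrm (Nat.add y (swap (Nat.shiftLeft (sh1 (fold (Nat.mul k k))) 14336)))
  bif x.ok && l.2.2 && Nat.ble 1099511627776 u.2 && Nat.ble h 549755813888 && good u.1 && good l.1 &&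
     Nat.ble (Nat.add im (Nat.add l.2.1 (Nat.mul 2 h))) 3452466511216 && good y && good w then
    mdl (Nat.add l.1 w)
      (Nat.add
        (Nat.add (Nat.add l.2.1 (Nat.shiftRight (Nat.mul 4 x.D) 40))
          (Nat.shiftRight (Nat.mul U (Nat.add (Nat.shiftLeft x.r 81)
            (Nat.mul U (Nat.sub (Nat.mul x.D x.D) (Nat.mul x.G x.G))))) 121))
        (Nat.add (Nat.div (Nat.mul h (Nat.mul h h))
            (Nat.mul 3 (Nat.shiftLeft (Nat.sub 1099511627776 h) 40))) 400))
      true
  else ⟨0, 0, 0, 0, false⟩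

/-- the blocks of products of real noise symbols, without the centre -/
def rm : Nat → List Nat
  | 0 => []
  | 1 => [7, 14]
  | 2 => [7, 8, 14, 15, 16]
  | 3 => [7, 8, 11, 14, 15, 16, 18, 19, 22]
  | _ => [7, 8, 11, 13, 14, 15, 16, 18, 19, 20, 21, 22, 24, 26]

def rmask (n : Nat) : Nat := Nat.mul (bsel (rm n)) m512

def cmask (n : Nat) : Nat := Nat.sub (Nat.sub mB m512) (rmask n)

/-- sum of `|Re|` over all blocks -/
def reSum (X : Nat) : Nat :=
  Nat.mod (Nat.add (Nat.land X f0m) (Nat.land (Nat.shiftRight X 256) f0m)) m1024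

/-- `0 < Re`; the first `nr` noise symbols are real -/
def A.isPos (nr : Nat) (x : A) : Bool :=
  x.ok && Nat.ble nr 4 && Nat.ble (Nat.add (Nat.add (fd x.X 2)
    (Nat.add (reSum (Nat.land x.X (rmask nr))) (tot (rmag (Nat.land x.X (cmask nr))))))
      (Nat.add x.r 1)) (fd x.X 0)

/-- `‖ ‖ < B / 2^40` -/
def A.isLt (x : A) (B : Nat) : Bool :=
  let p := Nat.add (Nat.sub (fd x.X 0) (fd x.X 2)) (Nat.sub (fd x.X 2) (fd x.X 0))
  let q := Nat.add (Nat.sub (fd x.X 1) (fd x.X 3)) (Nat.sub (fd x.X 3) (fd x.X 1))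
  x.ok && Nat.ble (Nat.add x.D 1) B &&
    Nat.ble (Nat.add (Nat.add (Nat.mul p p) (Nat.mul q q)) 1)
      (Nat.mul (Nat.sub B x.D) (Nat.sub B x.D))

/-- the block of the noise symbol `j` -/
def pos : Nat → Nat
  | 0 => 7
  | 1 => 8
  | 2 => 11
  | _ => 13

/-- models of complex unit discs, `j` is the number of the first one -/
def discs : Nat → Nat → List A
  | 0, _ => []
  | nd + 1, j => mdl (Nat.shiftLeft 1099511627776 (Nat.mul 1024 (pos j))) 0 true ::
      discs nd (j + 1)

/-- models of the real variables -/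
def models : List (Nat × Nat) → Nat → Nat → List A
  | [], j, nd => discs nd j
  | (c, h) :: b, j, nd => mdl (Nat.add c (Nat.shiftLeft h (Nat.mul 1024 (pos j)))) 0
      (Nat.ble c 4611686018427387903 && Nat.ble h 4611686018427387903) :: models b (j + 1) nd

end Pool.Agent.helper82.QB
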