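import Pool.Agent.helper82.QB.Defs
import Pool.Agent.helper31.IB.Field

/-!
# QB-1: fields of a product of two long numbers

Induction on `i` (for all `Y`) as in `fd_mul_one`: `Y = fd Y 0 + 2^128 (Y / 2^128)`, so
`X Y = X (fd Y 0) + 2^128 (X (Y / 2^128))`; the convolution of `X` and `Y / 2^128` at `i` is at most
the one of `X` and `Y` at `i + 1`.  The other lemmas: copy and adapt the (private) lemmas
`fd_split`, `mod_m1024_aux`, `mod_m1024` of `IB/Field.lean`.
-/

namespace Pool.Agent.helper82.QB

open Pool.Agent.helper31.IB (fd m1024)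
open Pool.Agent.helper31.IB (fd_eq fd_lt fd_zero_left fd_zero fd_succ fd_ext fd_of_lt fd_shl fd_add
  fd_mul_one)

set_option exponentiation.threshold 2000

private theorem fd_mul_pow (X k i : Nat) :
    fd (X * 2 ^ (128 * k)) i = if i < k then 0 else fd X (i - k) := by
  have e1 : Nat.shiftLeft X (128 * k) = X * 2 ^ (128 * k) := Nat.shiftLeft_eq X (128 * k)
  rw [← e1]
  exact fd_shl X k i

private theorem m1024_eq : m1024 = Nat.sub (Nat.pow 2 1024) 1 := by
  delta m1024
  exact Eq.refl _

private theorem mod_mk {P M k l : Nat} (hM : M = Nat.sub (Nat.pow 2 k) 1) (hk : k = l) :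
    Nat.mod P M = P % (2 ^ l - 1) := by
  subst hM
  subst hk
  exact rfl

private theorem dec_aux {P C Q R : Nat} (hC : 0 < C) (h : P = C * Q + R) :
    P = R + Q + (C - 1) * Q := by
  obtain ⟨c, rfl⟩ : ∃ c, C = c + 1 := ⟨C - 1, by omega⟩
  rw [h, Nat.add_sub_cancel, Nat.add_mul, Nat.one_mul]
  omega

private theorem fd_split (P n : Nat) :
    (∀ i, fd (P % 2 ^ (128 * n)) i = if i < n then fd P i else 0) ∧
    (∀ i, fd (P / 2 ^ (128 * n)) i = fd P (i + n)) ∧
    P = 2 ^ (128 * n) * (P / 2 ^ (128 * n)) + P % 2 ^ (128 * n) := by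
  refine ⟨?_, ?_, (Nat.div_add_mod P (2 ^ (128 * n))).symm⟩
  · intro i
    have hlt : P % 2 ^ (128 * n) < 2 ^ (128 * n) := Nat.mod_lt _ (by positivity)
    by_cases hi : i < n
    · rw [if_pos hi]
      have hP : P = P % 2 ^ (128 * n) + P / 2 ^ (128 * n) * 2 ^ (128 * n) :=
        (Nat.mod_add_div' P (2 ^ (128 * n))).symm
      have h1 : fd (P % 2 ^ (128 * n) + P / 2 ^ (128 * n) * 2 ^ (128 * n)) i =
          fd (P % 2 ^ (128 * n)) i + fd (P / 2 ^ (128 * n) * 2 ^ (128 * n)) i := by
        apply fd_add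
        intro j
        by_cases hj : j < n
        · rw [fd_mul_pow, if_pos hj, Nat.add_zero]
          exact fd_lt _ _
        · rw [fd_of_lt hlt (by omega : n ≤ j), Nat.zero_add]
          exact fd_lt _ _
      rw [← hP, fd_mul_pow, if_pos hi, Nat.add_zero] at h1
      exact h1.symm
    · rw [if_neg hi]
      exact fd_of_lt hlt (by omega)
  · intro i
    rw [fd_eq, fd_eq, Nat.div_div_eq_div_mul, ← pow_add, ← Nat.mul_add, Nat.add_comm n i]

private theorem mod_m1024_aux (n : Nat) : ∀ P : Nat,
    (∀ i, i % 8 ≠ 0 ∨ 8 * n ≤ i → fd P i = 0) →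
    ∃ q, P = ∑ j ∈ Finset.range n, fd P (8 * j) + (2 ^ (128 * 8) - 1) * q := by
  induction n with
  | zero =>
    intro P h
    refine ⟨0, ?_⟩
    have : P = 0 := by
      apply fd_ext
      intro i
      rw [fd_zero_left]
      exact h i (Or.inr (by omega))
    rw [this]
    simp
  | succ n ih =>
    intro P h
    obtain ⟨hlo, hhi, hdec⟩ := fd_split P 8
    obtain ⟨q, hq⟩ := ih (P / 2 ^ (128 * 8)) (by
      intro i hi
      rw [hhi]
      apply h
      rcases hi with hi | hi
      · left
        omega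
      · right
        omega)
    have ha : P % 2 ^ (128 * 8) = fd P 0 := by
      apply fd_ext
      intro i
      rw [hlo]
      rcases Nat.eq_zero_or_pos i with hi | hi
      · subst hi
        rw [if_pos (by norm_num), fd_zero (fd P 0)]
        exact (Nat.mod_eq_of_lt (fd_lt P 0)).symm
      · have h1 : fd P 0 < 2 ^ (128 * 1) := by
          rw [Nat.mul_one]
          exact fd_lt P 0
        rw [fd_of_lt h1 (by omega : 1 ≤ i)]
        split_ifs with h2
        · exact h i (Or.inl (by omega))
        · rfl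
    refine ⟨q + P / 2 ^ (128 * 8), ?_⟩
    rw [Finset.sum_range_succ']
    have hs : ∑ j ∈ Finset.range n, fd (P / 2 ^ (128 * 8)) (8 * j) =
        ∑ j ∈ Finset.range n, fd P (8 * (j + 1)) := by
      apply Finset.sum_congr rfl
      intro j _
      rw [hhi, show 8 * j + 8 = 8 * (j + 1) by ring]
    rw [hs] at hq
    rw [ha] at hdec
    rw [Nat.mul_zero]
    have hpos : 0 < (2 : Nat) ^ (128 * 8) := by positivity
    have h9 := dec_aux hpos hdec
    generalize ∑ j ∈ Finset.range n, fd P (8 * (j + 1)) = s at *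
    generalize fd P 0 = a at *
    generalize P / 2 ^ (128 * 8) = Q at *
    rw [h9, hq]
    ring

/-- convolution of the fields -/
def convG (X Y i : Nat) : Nat := ∑ a ∈ Finset.range (i + 1), fd X a * fd Y (i - a)

private theorem convG_succ (X Y i : Nat) :
    convG X Y (i + 1) = convG X (Y / 2 ^ 128) i + fd X (i + 1) * fd Y 0 := by
  unfold convG
  rw [Finset.sum_range_succ]
  congr 1
  · refine Finset.sum_congr rfl fun a ha => ?_
    have h1 : i + 1 - a = (i - a) + 1 := by
      have := Finset.mem_range.mp ha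
      omega
    rw [h1, fd_succ]
  · rw [Nat.sub_self]

theorem fd_mul_gen {X Y : Nat} (h : ∀ i, convG X Y i < 2 ^ 128) (i : Nat) :
    fd (X * Y) i = convG X Y i := by
  have key : ∀ n : Nat, ∀ Y : Nat, Y ≤ n → (∀ i, convG X Y i < 2 ^ 128) →
      ∀ i, fd (X * Y) i = convG X Y i := by
    intro n
    induction n using Nat.strong_induction_on with
    | _ n ih =>
      intro Y hY hc i
      rcases Nat.eq_zero_or_pos Y with h0 | h0
      · subst h0
        rw [Nat.mul_zero, fd_zero_left]
        unfold convG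
        refine (Finset.sum_eq_zero fun a _ => ?_).symm
        rw [fd_zero_left, Nat.mul_zero]
      · have h2 : Y / 2 ^ 128 < Y := Nat.div_lt_self h0 (by norm_num)
        have hc' : ∀ i, convG X (Y / 2 ^ 128) i < 2 ^ 128 := by
          intro j
          have := hc (j + 1)
          rw [convG_succ] at this
          omega
        have h3 := ih (Y / 2 ^ 128) (lt_of_lt_of_le h2 hY) (Y / 2 ^ 128) le_rfl hc'
        have b0 : ∀ i, fd X i * fd Y 0 < 2 ^ 128 := by
          intro j
          rcases Nat.eq_zero_or_pos j with hj | hj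
          · subst hj
            have := hc 0
            unfold convG at this
            simpa using this
          · obtain ⟨d, rfl⟩ : ∃ d, j = d + 1 := ⟨j - 1, by omega⟩
            have := hc (d + 1)
            rw [convG_succ] at this
            omega
        have e0 : ∀ i, fd (X * fd Y 0) i = fd X i * fd Y 0 := fd_mul_one b0
        have e1 : ∀ i, fd (X * (Y / 2 ^ 128) * 2 ^ (128 * 1)) i =
            if i < 1 then 0 else convG X (Y / 2 ^ 128) (i - 1) := by
          intro j
          rw [fd_mul_pow]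
          split_ifs with hj
          · rfl
          · exact h3 (j - 1)
        have hX : X * Y = X * fd Y 0 + X * (Y / 2 ^ 128) * 2 ^ (128 * 1) := by
          have h4 := Nat.div_add_mod Y (2 ^ 128)
          rw [← fd_zero] at h4
          calc X * Y = X * (2 ^ 128 * (Y / 2 ^ 128) + fd Y 0) := by rw [h4]
            _ = _ := by ring
        have hs : ∀ j, fd X j * fd Y 0 + (if j < 1 then 0 else convG X (Y / 2 ^ 128) (j - 1)) =
            convG X Y j := by
          intro j
          rcases Nat.eq_zero_or_pos j with hj | hj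
          · subst hj
            rw [if_pos (by norm_num)]
            unfold convG
            simp
          · obtain ⟨d, rfl⟩ : ∃ d, j = d + 1 := ⟨j - 1, by omega⟩
            rw [if_neg (by omega), convG_succ, Nat.add_sub_cancel]
            omega
        rw [hX, fd_add, e0, e1, hs]
        intro j
        rw [e0, e1, hs]
        exact hc j
  exact key Y Y le_rfl h i

theorem fd_mod_pow (X k i : Nat) : fd (Nat.mod X (Nat.pow 2 (128 * k))) i =
    if i < k then fd X i else 0 := by
  have e : Nat.mod X (Nat.pow 2 (128 * k)) = X % 2 ^ (128 * k) := rfl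
  rw [e]
  exact (fd_split X k).1 i

/-- only the fields `8 j`, `j < n` are nonzero; `2^1024 = 1` modulo `2^1024 - 1` -/
theorem mod_m1024N {P n : Nat} (hn : n ≤ 64) (h : ∀ i, i % 8 ≠ 0 ∨ 8 * n ≤ i → fd P i = 0) :
    Nat.mod P m1024 = ∑ j ∈ Finset.range n, fd P (8 * j) := by
  obtain ⟨q, hq⟩ := mod_m1024_aux n P h
  have e : Nat.mod P m1024 = P % (2 ^ (128 * 8) - 1) :=
    @mod_mk P m1024 1024 (128 * 8) m1024_eq (by norm_num)
  rw [e]
  conv_lhs => rw [hq]
  rw [Nat.add_mul_mod_self_left]
  apply Nat.mod_eq_of_lt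
  have h1 : ∑ j ∈ Finset.range n, fd P (8 * j) ≤ ∑ _j ∈ Finset.range n, 2 ^ 128 :=
    Finset.sum_le_sum (fun j _ => (fd_lt P (8 * j)).le)
  have h3 : n * 2 ^ 128 ≤ 64 * 2 ^ 128 := Nat.mul_le_mul_right _ hn
  refine lt_of_le_of_lt h1 ?_
  rw [Finset.sum_const, Finset.card_range, smul_eq_mul]
  refine lt_of_le_of_lt h3 ?_
  have h2 : (2 : Nat) ^ 200 ≤ 2 ^ (128 * 8) := Nat.pow_le_pow_right (by norm_num) (by norm_num)
  generalize (2 : Nat) ^ (128 * 8) = C at *
  norm_num at h2 ⊢
  omega

end Pool.Agent.helper82.QB
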