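import Pool.Agent.helper82.QB.Model
import Pool.Agent.helper31.IB.ZFun
import Pool.Agent.helper31.IF.Spec
import Pool.Agent.helper31.IA.FSound

/-!
# QB-5: packed second order models: inverse, exponential, logarithm

As in `IB/Fun.lean` (whose private lemmas may be copied).  Write the value of `x` as
`c + δ`, `δ = lin + quad + ρ`, `‖δ‖ ≤ D`, `‖δ - lin‖ ≤ D - G`, `‖δ + lin‖ ≤ D + G` (units), so
`‖δ² - lin²‖ ≤ D² - G²`; `mulX_spec`, `sqr_spec`, `sqr1_spec` lose at most `2` units per block, at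
most `27` blocks, `54` units.

* inverse, `v = δ/c`, `‖v‖ ≤ h`: `1/(c + δ) = (1/c)(1 - v + v² - v³/(1 + v))`;
  `u` is within `2` units of `1/c`, `y` within `54 + 2` units of `u (lin + quad)`,
  `w` within `54 + 54 + ..` units of `-y + (lin y)²`.
* exponential: `exp (c + δ) = exp c (1 + δ + δ²/2 + R)`,
  `‖R‖ ≤ ‖δ‖³/6 (1 + ‖δ‖/4 + ‖δ‖²/20 + ...) ≤ ‖δ‖³ (3 + ‖δ‖)/18` for `‖δ‖ ≤ 1`.
* logarithm: `log (1 + v) = v - v²/2 + R`, `‖R‖ ≤ ‖v‖³/(3 (1 - ‖v‖))`; the principal value and the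
  slit plane as in `IB/Fun.lean`.
(proofs: helper51)
-/

namespace Pool.Agent.helper82.QB

open Complex
open Pool.Agent.helper31.IA (Z Small get RealL)
open Pool.Agent.helper31.IB (fd m512 m1024 m128 One bz mg dmag zinv zinv_spec bz_zero_of_one)
open Pool.Agent.helper31.IF (zexp zlog zexp_spec zlog_spec)

/-! ### analytic cores -/

private theorem inv_core {ι u g d ρ' η : ℝ} {c a L Q ρ vy ly vw X' : ℂ}
    (hι : 0 ≤ ι) (hι2 : 196 * ι ≤ 1) (hc : c ≠ 0) (ha : ‖a - c⁻¹‖ ≤ 2 * ι) (hau : ‖a‖ ≤ u)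
    (hcu : ‖c⁻¹‖ ≤ u) (hL : ‖L‖ ≤ g) (hρ : ‖ρ‖ ≤ ρ') (hκ : ‖Q + ρ‖ ≤ d - g) (hs : ‖L + Q‖ ≤ d)
    (hη : u * d ≤ η) (hη2 : η ≤ 1 / 2) (hvy : ‖vy - a * (L + Q)‖ ≤ 42 * ι)
    (hly : ‖ly - a * L‖ ≤ 14 * ι) (hvw : ‖vw - (-vy + ly ^ 2)‖ ≤ 26 * ι)
    (hX : ‖X' - (a + a * vw)‖ ≤ 42 * ι) :
    c + (L + (Q + ρ)) ≠ 0 ∧ ‖(c + (L + (Q + ρ)))⁻¹ - X'‖ ≤
      48 * ι + 83 * (u * ι) + (u ^ 2 * ρ' + u ^ 3 * (d ^ 2 - g ^ 2)) + u * η ^ 3 / (1 - η) := by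
  obtain ⟨b, hb⟩ : ∃ b, b = c⁻¹ := ⟨_, rfl⟩
  obtain ⟨δ, hδ⟩ : ∃ δ, δ = L + (Q + ρ) := ⟨_, rfl⟩
  obtain ⟨s, hs0⟩ : ∃ s, s = L + Q := ⟨_, rfl⟩
  rw [← hb] at ha hcu
  rw [← hs0] at hs hvy
  rw [← hδ]
  have hu : 0 ≤ u := (norm_nonneg _).trans hau
  have hg : 0 ≤ g := (norm_nonneg _).trans hL
  have hρ0 : 0 ≤ ρ' := (norm_nonneg _).trans hρ
  have hdg : 0 ≤ d - g := (norm_nonneg _).trans hκ
  have hd : 0 ≤ d := (norm_nonneg _).trans hs
  have hη0 : 0 ≤ η := (mul_nonneg hu hd).trans hη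
  have hug : u * g ≤ 1 / 2 := by nlinarith
  have hδn : ‖δ‖ ≤ d := by
    rw [hδ]
    refine (norm_add_le _ _).trans ?_
    linarith
  have hδL : ‖δ - L‖ ≤ d - g := by
    have : δ - L = Q + ρ := by rw [hδ]; ring
    rw [this]
    exact hκ
  have hδL' : ‖δ + L‖ ≤ d + g := by
    have : δ + L = 2 * L + (Q + ρ) := by rw [hδ]; ring
    rw [this]
    refine (norm_add_le _ _).trans ?_
    rw [norm_mul]
    have : ‖(2 : ℂ)‖ = 2 := by simp
    rw [this]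
    linarith
  have hcb : c * b = 1 := by rw [hb]; exact mul_inv_cancel₀ hc
  have hb0 : b ≠ 0 := by rw [hb]; exact inv_ne_zero hc
  obtain ⟨v, hv⟩ : ∃ v, v = b * δ := ⟨_, rfl⟩
  have hvn : ‖v‖ ≤ η := by
    rw [hv, norm_mul]
    exact (mul_le_mul hcu hδn (norm_nonneg _) hu).trans hη
  have hz : c + δ = c * (1 + v) := by
    rw [hv, mul_add, ← mul_assoc, hcb]
    ring
  have h1v : 1 - η ≤ ‖1 + v‖ := by
    have h3 : ‖(1 : ℂ)‖ ≤ ‖1 + v‖ + ‖v‖ := by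
      calc ‖(1 : ℂ)‖ = ‖(1 + v) - v‖ := by congr 1; ring
        _ ≤ ‖1 + v‖ + ‖v‖ := norm_sub_le _ _
    rw [norm_one] at h3
    linarith
  have hp : (0 : ℝ) < 1 - η := by linarith
  have h1v0 : 1 + v ≠ 0 := norm_pos_iff.mp (lt_of_lt_of_le hp h1v)
  refine ⟨by rw [hz]; exact mul_ne_zero hc h1v0, ?_⟩
  have hinv : (c + δ)⁻¹ = b * (1 - v + v ^ 2) - b * v ^ 3 * (1 + v)⁻¹ := by
    rw [hz, mul_inv, ← hb]
    have e1 : (1 + v)⁻¹ = 1 - v + v ^ 2 - v ^ 3 * (1 + v)⁻¹ := by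
      field_simp
      ring
    calc b * (1 + v)⁻¹ = b * (1 - v + v ^ 2 - v ^ 3 * (1 + v)⁻¹) := by rw [← e1]
      _ = _ := by ring
  have hid : (c + δ)⁻¹ - X' =
      -(b * v ^ 3 * (1 + v)⁻¹)
      + (-(b ^ 2 * ρ) + b ^ 3 * ((δ - L) * (δ + L)))
      + -((a - b) * (1 - (a + b) * s + (b ^ 2 + b * a + a ^ 2) * L ^ 2))
      + -(a * ((vw - (-vy + ly ^ 2)) - (vy - a * s) + (ly - a * L) * (ly - a * L + 2 * (a * L))))
      + -(X' - (a + a * vw)) := by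
    rw [hinv, hv]
    have e1 : ρ = δ - s := by rw [hδ, hs0]; ring
    rw [e1]
    ring
  rw [hid]
  have b1 : ‖-(b * v ^ 3 * (1 + v)⁻¹)‖ ≤ u * η ^ 3 / (1 - η) := by
    rw [norm_neg, norm_mul, norm_mul, norm_pow, norm_inv, div_eq_mul_inv]
    have hi : ‖1 + v‖⁻¹ ≤ (1 - η)⁻¹ := inv_anti₀ hp h1v
    gcongr
  have b2 : ‖-(b ^ 2 * ρ) + b ^ 3 * ((δ - L) * (δ + L))‖ ≤ u ^ 2 * ρ' + u ^ 3 * (d ^ 2 - g ^ 2) := by
    refine (norm_add_le _ _).trans (add_le_add ?_ ?_)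
    · rw [norm_neg, norm_mul, norm_pow]
      gcongr
    · rw [norm_mul, norm_pow, norm_mul]
      have h1 : ‖δ - L‖ * ‖δ + L‖ ≤ (d - g) * (d + g) :=
        mul_le_mul hδL hδL' (norm_nonneg _) hdg
      have e : (d - g) * (d + g) = d ^ 2 - g ^ 2 := by ring
      rw [e] at h1
      gcongr
  have hcu2 : ‖(a + b) * s‖ ≤ 1 := by
    rw [norm_mul]
    have h1 : ‖a + b‖ ≤ 2 * u := (norm_add_le _ _).trans (by linarith)
    have h2 : ‖a + b‖ * ‖s‖ ≤ 2 * u * d := mul_le_mul h1 hs (norm_nonneg _) (by positivity)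
    nlinarith
  have hug2 : (u * g) ^ 2 ≤ 1 / 4 := by
    have : 0 ≤ u * g := mul_nonneg hu hg
    nlinarith
  have hcu3 : ‖(b ^ 2 + b * a + a ^ 2) * L ^ 2‖ ≤ 3 / 4 := by
    rw [norm_mul, norm_pow]
    have h1 : ‖b ^ 2 + b * a + a ^ 2‖ ≤ 3 * u ^ 2 := by
      refine (norm_add_le _ _).trans ?_
      have h2 : ‖b ^ 2 + b * a‖ ≤ u ^ 2 + u * u := by
        refine (norm_add_le _ _).trans (add_le_add ?_ ?_)
        · rw [norm_pow]; gcongr
        · rw [norm_mul]; gcongr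
      have h3 : ‖a ^ 2‖ ≤ u ^ 2 := by rw [norm_pow]; gcongr
      linarith
    have h2 : ‖b ^ 2 + b * a + a ^ 2‖ * ‖L‖ ^ 2 ≤ 3 * u ^ 2 * g ^ 2 := by gcongr
    have e : 3 * u ^ 2 * g ^ 2 = 3 * (u * g) ^ 2 := by ring
    rw [e] at h2
    linarith
  have b3 : ‖-((a - b) * (1 - (a + b) * s + (b ^ 2 + b * a + a ^ 2) * L ^ 2))‖ ≤ 6 * ι := by
    rw [norm_neg, norm_mul]
    have h1 : ‖1 - (a + b) * s + (b ^ 2 + b * a + a ^ 2) * L ^ 2‖ ≤ 11 / 4 := by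
      refine (norm_add_le _ _).trans ?_
      have := norm_sub_le (1 : ℂ) ((a + b) * s)
      rw [norm_one] at this
      linarith
    calc ‖a - b‖ * ‖1 - (a + b) * s + (b ^ 2 + b * a + a ^ 2) * L ^ 2‖ ≤ (2 * ι) * (11 / 4) := by
          gcongr
      _ ≤ 6 * ι := by linarith
  have haL : ‖a * L‖ ≤ 1 / 2 := by
    rw [norm_mul]
    exact (mul_le_mul hau hL (norm_nonneg _) hu).trans hug
  have hq : ‖(ly - a * L) * (ly - a * L + 2 * (a * L))‖ ≤ 15 * ι := by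
    rw [norm_mul]
    have h1 : ‖ly - a * L + 2 * (a * L)‖ ≤ 14 * ι + 1 := by
      refine (norm_add_le _ _).trans (add_le_add hly ?_)
      rw [norm_mul]
      have : ‖(2 : ℂ)‖ = 2 := by simp
      rw [this]
      linarith
    have h2 : ‖ly - a * L‖ * ‖ly - a * L + 2 * (a * L)‖ ≤ (14 * ι) * (14 * ι + 1) := by gcongr
    nlinarith
  have b4 : ‖-(a * ((vw - (-vy + ly ^ 2)) - (vy - a * s) +
      (ly - a * L) * (ly - a * L + 2 * (a * L))))‖ ≤ 83 * (u * ι) := by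
    rw [norm_neg, norm_mul]
    have h1 : ‖(vw - (-vy + ly ^ 2)) - (vy - a * s) +
        (ly - a * L) * (ly - a * L + 2 * (a * L))‖ ≤ 83 * ι := by
      refine (norm_add_le _ _).trans ?_
      have := norm_sub_le (vw - (-vy + ly ^ 2)) (vy - a * s)
      linarith
    calc ‖a‖ * _ ≤ u * (83 * ι) := by gcongr
      _ = 83 * (u * ι) := by ring
  have b5 : ‖-(X' - (a + a * vw))‖ ≤ 42 * ι := by rw [norm_neg]; exact hX
  refine (norm_add_le _ _).trans ?_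
  refine (add_le_add (norm_add_le _ _) le_rfl).trans ?_
  refine (add_le_add (add_le_add (norm_add_le _ _) le_rfl) le_rfl).trans ?_
  refine (add_le_add (add_le_add (add_le_add (norm_add_le _ _) le_rfl) le_rfl) le_rfl).trans ?_
  linarith

private theorem exp_core {ι m e g d ρ' : ℝ} {c E1 L Q ρ vw X' : ℂ}
    (hE : ‖E1 - Complex.exp c‖ ≤ e) (hm : ‖Complex.exp c‖ ≤ m) (hm' : ‖E1‖ ≤ m)
    (hL : ‖L‖ ≤ g) (hρ : ‖ρ‖ ≤ ρ') (hκ : ‖Q + ρ‖ ≤ d - g) (hs : ‖L + Q‖ ≤ d) (hd1 : d ≤ 1)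
    (hvw : ‖vw - (L + Q + L ^ 2 / 2)‖ ≤ 26 * ι) (hX : ‖X' - (E1 + E1 * vw)‖ ≤ 42 * ι) :
    ‖Complex.exp (c + (L + (Q + ρ))) - X'‖ ≤
      e * (1 + 2 * d) + m * (ρ' + (d ^ 2 - g ^ 2) / 2 + d ^ 3 * (3 + d) / 18 + 26 * ι) + 42 * ι := by
  obtain ⟨δ, hδ⟩ : ∃ δ, δ = L + (Q + ρ) := ⟨_, rfl⟩
  obtain ⟨s, hs0⟩ : ∃ s, s = L + Q := ⟨_, rfl⟩
  rw [← hs0] at hs hvw
  rw [← hδ]
  have hm0 : 0 ≤ m := (norm_nonneg _).trans hm
  have he : 0 ≤ e := (norm_nonneg _).trans hE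
  have hg : 0 ≤ g := (norm_nonneg _).trans hL
  have hρ0 : 0 ≤ ρ' := (norm_nonneg _).trans hρ
  have hdg : 0 ≤ d - g := (norm_nonneg _).trans hκ
  have hd : 0 ≤ d := (norm_nonneg _).trans hs
  have hδn : ‖δ‖ ≤ d := by
    rw [hδ]
    refine (norm_add_le _ _).trans ?_
    linarith
  have hδL : ‖δ - L‖ ≤ d - g := by
    have : δ - L = Q + ρ := by rw [hδ]; ring
    rw [this]
    exact hκ
  have n2 : ‖(2 : ℂ)‖ = 2 := by simp
  have hδL' : ‖δ + L‖ ≤ d + g := by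
    have : δ + L = 2 * L + (Q + ρ) := by rw [hδ]; ring
    rw [this]
    refine (norm_add_le _ _).trans ?_
    rw [norm_mul, n2]
    linarith
  obtain ⟨R, hR0⟩ : ∃ R, R = Complex.exp δ - (1 + δ + δ ^ 2 / 2) := ⟨_, rfl⟩
  have hR : ‖R‖ ≤ d ^ 3 * (3 + d) / 18 := by
    have hb := Complex.exp_bound (x := δ) (hδn.trans hd1) (n := 4) (by norm_num)
    have hsum : ∑ m ∈ Finset.range 4, δ ^ m / (Nat.factorial m : ℂ) =
        1 + δ + δ ^ 2 / 2 + δ ^ 3 / 6 := by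
      simp [Finset.sum_range_succ, Nat.factorial]
    rw [hsum] at hb
    have e1 : R = (Complex.exp δ - (1 + δ + δ ^ 2 / 2 + δ ^ 3 / 6)) + δ ^ 3 / 6 := by
      rw [hR0]
      ring
    rw [e1]
    refine (norm_add_le _ _).trans ?_
    have h2 : ‖δ ^ 3 / 6‖ ≤ d ^ 3 / 6 := by
      rw [norm_div, norm_pow]
      have : ‖(6 : ℂ)‖ = 6 := by simp
      rw [this]
      gcongr
    have h3 : ‖Complex.exp δ - (1 + δ + δ ^ 2 / 2 + δ ^ 3 / 6)‖ ≤ d ^ 4 / 18 := by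
      refine hb.trans ?_
      have h4 : ‖δ‖ ^ 4 ≤ d ^ 4 := by gcongr
      have h5 : ((Nat.succ 4 : ℕ) : ℝ) * (((Nat.factorial 4 : ℕ) : ℝ) * ((4 : ℕ) : ℝ))⁻¹ ≤ 1 / 18 := by
        norm_num [Nat.factorial]
      calc ‖δ‖ ^ 4 * (((Nat.succ 4 : ℕ) : ℝ) * (((Nat.factorial 4 : ℕ) : ℝ) * ((4 : ℕ) : ℝ))⁻¹)
          ≤ d ^ 4 * (1 / 18) := by gcongr
        _ = d ^ 4 / 18 := by ring
    have e2 : d ^ 3 * (3 + d) / 18 = d ^ 4 / 18 + d ^ 3 / 6 := by ring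
    rw [e2]
    linarith
  have hid : Complex.exp (c + δ) - X' =
      Complex.exp c * (ρ + (δ - L) * (δ + L) / 2 + R)
      + -((E1 - Complex.exp c) * (1 + s + L ^ 2 / 2))
      + -(E1 * (vw - (s + L ^ 2 / 2))) + -(X' - (E1 + E1 * vw)) := by
    rw [Complex.exp_add]
    have e1 : ρ = δ - s := by rw [hδ, hs0]; ring
    have e2 : Complex.exp δ = R + (1 + δ + δ ^ 2 / 2) := by rw [hR0]; ring
    rw [e1, e2]
    ring
  rw [hid]
  have b1 : ‖Complex.exp c * (ρ + (δ - L) * (δ + L) / 2 + R)‖ ≤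
      m * (ρ' + (d ^ 2 - g ^ 2) / 2 + d ^ 3 * (3 + d) / 18) := by
    rw [norm_mul]
    refine mul_le_mul hm ?_ (norm_nonneg _) hm0
    refine (norm_add_le _ _).trans (add_le_add ?_ hR)
    refine (norm_add_le _ _).trans (add_le_add hρ ?_)
    rw [norm_div, norm_mul, n2]
    have h1 : ‖δ - L‖ * ‖δ + L‖ ≤ (d - g) * (d + g) :=
      mul_le_mul hδL hδL' (norm_nonneg _) hdg
    have e : (d - g) * (d + g) = d ^ 2 - g ^ 2 := by ring
    rw [e] at h1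
    linarith
  have b2 : ‖-((E1 - Complex.exp c) * (1 + s + L ^ 2 / 2))‖ ≤ e * (1 + 2 * d) := by
    rw [norm_neg, norm_mul]
    refine mul_le_mul hE ?_ (norm_nonneg _) he
    refine (norm_add_le _ _).trans ?_
    have h1 : ‖(1 : ℂ) + s‖ ≤ 1 + d := by
      refine (norm_add_le _ _).trans ?_
      rw [norm_one]
      linarith
    have h2 : ‖L ^ 2 / 2‖ ≤ d := by
      rw [norm_div, norm_pow, n2]
      have h3 : ‖L‖ ^ 2 ≤ g ^ 2 := by gcongr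
      nlinarith
    linarith
  have b3 : ‖-(E1 * (vw - (s + L ^ 2 / 2)))‖ ≤ m * (26 * ι) := by
    rw [norm_neg, norm_mul]
    exact mul_le_mul hm' hvw (norm_nonneg _) hm0
  have b4 : ‖-(X' - (E1 + E1 * vw))‖ ≤ 42 * ι := by rw [norm_neg]; exact hX
  refine (norm_add_le _ _).trans ?_
  refine (add_le_add (norm_add_le _ _) le_rfl).trans ?_
  refine (add_le_add (add_le_add (norm_add_le _ _) le_rfl) le_rfl).trans ?_
  have e : m * (ρ' + (d ^ 2 - g ^ 2) / 2 + d ^ 3 * (3 + d) / 18 + 26 * ι) =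
    m * (ρ' + (d ^ 2 - g ^ 2) / 2 + d ^ 3 * (3 + d) / 18) + m * (26 * ι) := by ring
  rw [e]
  linarith

private theorem log_core {ι u e g d ρ' η im : ℝ} {c a l1 L0 L Q ρ vy ly vw X' : ℂ}
    (hι : 0 ≤ ι) (hι2 : 196 * ι ≤ 1) (hc : c ≠ 0) (ha : ‖a - c⁻¹‖ ≤ 2 * ι) (hau : ‖a‖ ≤ u)
    (hcu : ‖c⁻¹‖ ≤ u) (hL : ‖L‖ ≤ g) (hρ : ‖ρ‖ ≤ ρ') (hκ : ‖Q + ρ‖ ≤ d - g) (hs : ‖L + Q‖ ≤ d)
    (hη : u * d ≤ η) (hη2 : η ≤ 1 / 2) (hvy : ‖vy - a * (L + Q)‖ ≤ 42 * ι)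
    (hly : ‖ly - a * L‖ ≤ 14 * ι) (hvw : ‖vw - (vy - ly ^ 2 / 2)‖ ≤ 26 * ι)
    (hX : X' = l1 + vw) (hL0 : Complex.exp L0 = c) (hl : ‖L0 - l1‖ ≤ e) (him : |l1.im| ≤ im)
    (hpi : im + (e + 2 * η) ≤ 3.14) :
    c + (L + (Q + ρ)) ∈ slitPlane ∧ ‖Complex.log (c + (L + (Q + ρ))) - X'‖ ≤
      e + 3 * (d * ι) + 76 * ι + (u * ρ' + u ^ 2 * (d ^ 2 - g ^ 2) / 2)
        + η ^ 3 / (3 * (1 - η)) := by
  obtain ⟨b, hb⟩ : ∃ b, b = c⁻¹ := ⟨_, rfl⟩
  obtain ⟨δ, hδ⟩ : ∃ δ, δ = L + (Q + ρ) := ⟨_, rfl⟩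
  obtain ⟨s, hs0⟩ : ∃ s, s = L + Q := ⟨_, rfl⟩
  rw [← hb] at ha hcu
  rw [← hs0] at hs hvy
  rw [← hδ]
  have hu : 0 ≤ u := (norm_nonneg _).trans hau
  have hg : 0 ≤ g := (norm_nonneg _).trans hL
  have hρ0 : 0 ≤ ρ' := (norm_nonneg _).trans hρ
  have hdg : 0 ≤ d - g := (norm_nonneg _).trans hκ
  have hd : 0 ≤ d := (norm_nonneg _).trans hs
  have hη0 : 0 ≤ η := (mul_nonneg hu hd).trans hη
  have hug : u * g ≤ 1 / 2 := by nlinarith
  have n2 : ‖(2 : ℂ)‖ = 2 := by simp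
  have hδn : ‖δ‖ ≤ d := by
    rw [hδ]
    refine (norm_add_le _ _).trans ?_
    linarith
  have hδL : ‖δ - L‖ ≤ d - g := by
    have : δ - L = Q + ρ := by rw [hδ]; ring
    rw [this]
    exact hκ
  have hδL' : ‖δ + L‖ ≤ d + g := by
    have : δ + L = 2 * L + (Q + ρ) := by rw [hδ]; ring
    rw [this]
    refine (norm_add_le _ _).trans ?_
    rw [norm_mul, n2]
    linarith
  have hcb : c * b = 1 := by rw [hb]; exact mul_inv_cancel₀ hc
  obtain ⟨v, hv⟩ : ∃ v, v = b * δ := ⟨_, rfl⟩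
  have hvn : ‖v‖ ≤ η := by
    rw [hv, norm_mul]
    exact (mul_le_mul hcu hδn (norm_nonneg _) hu).trans hη
  have hz : c + δ = c * (1 + v) := by
    rw [hv, mul_add, ← mul_assoc, hcb]
    ring
  have hv2 : ‖v‖ ≤ 1 / 2 := hvn.trans hη2
  have hv1 : ‖v‖ < 1 := lt_of_le_of_lt hv2 (by norm_num)
  have h1v0 : 1 + v ≠ 0 := by
    intro h0
    have : v = -1 := by linear_combination h0
    rw [this] at hv1
    simp at hv1
  have hexp : Complex.exp (L0 + Complex.log (1 + v)) = c + δ := by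
    rw [Complex.exp_add, hL0, Complex.exp_log h1v0, hz]
  have hlog1 : ‖Complex.log (1 + v)‖ ≤ 2 * η := by
    have := Complex.norm_log_one_add_half_le_self hv2
    have h0 := norm_nonneg v
    linarith
  have himL : |(L0 + Complex.log (1 + v)).im| ≤ 3.14 := by
    have e1 : (L0 + Complex.log (1 + v)).im = l1.im + (L0 - l1).im + (Complex.log (1 + v)).im := by
      simp
    rw [e1]
    have t1 : |(L0 - l1).im| ≤ e := (Complex.abs_im_le_norm _).trans hl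
    have t2 : |(Complex.log (1 + v)).im| ≤ 2 * η := (Complex.abs_im_le_norm _).trans hlog1
    calc |l1.im + (L0 - l1).im + (Complex.log (1 + v)).im|
        ≤ |l1.im| + |(L0 - l1).im| + |(Complex.log (1 + v)).im| := by
          refine (abs_add_le _ _).trans (add_le_add ?_ le_rfl)
          exact abs_add_le _ _
      _ ≤ 3.14 := by linarith
  have hpi' : (3.14 : ℝ) < Real.pi := Real.pi_gt_d2
  have himb := abs_le.mp himL
  have hlog : Complex.log (c + δ) = L0 + Complex.log (1 + v) := by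
    rw [← hexp]
    exact Complex.log_exp (by linarith) (by linarith)
  refine ⟨?_, ?_⟩
  · rw [Complex.mem_slitPlane_iff_arg]
    constructor
    · have : Complex.arg (c + δ) = (Complex.log (c + δ)).im := by
        rw [Complex.log_im]
      rw [this, hlog]
      intro hh3
      linarith
    · rw [hz]
      exact mul_ne_zero hc h1v0
  · obtain ⟨R, hR0⟩ : ∃ R, R = Complex.log (1 + v) - (v - v ^ 2 / 2) := ⟨_, rfl⟩
    have hp : (0 : ℝ) < 1 - η := by linarith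
    have hR : ‖R‖ ≤ η ^ 3 / (3 * (1 - η)) := by
      have hb := Complex.norm_log_sub_logTaylor_le 2 hv1
      have hs : Complex.logTaylor (2 + 1) v = v - v ^ 2 / 2 := by
        simp [Complex.logTaylor, Finset.sum_range_succ]
        ring
      rw [hs, ← hR0] at hb
      refine hb.trans ?_
      have h5 : (1 - ‖v‖)⁻¹ ≤ (1 - η)⁻¹ := inv_anti₀ hp (by linarith)
      have h6 : ‖v‖ ^ (2 + 1) ≤ η ^ 3 := by gcongr
      have h7 : ‖v‖ ^ (2 + 1) * (1 - ‖v‖)⁻¹ ≤ η ^ 3 * (1 - η)⁻¹ := by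
        have h50 : 0 ≤ (1 - ‖v‖)⁻¹ := by
          apply inv_nonneg.mpr
          linarith
        gcongr
      calc ‖v‖ ^ (2 + 1) * (1 - ‖v‖)⁻¹ / ((2 : ℕ) + 1)
          ≤ η ^ 3 * (1 - η)⁻¹ / ((2 : ℕ) + 1) := by gcongr
        _ = η ^ 3 / (3 * (1 - η)) := by
          push_cast
          field_simp
          ring
    have hid : Complex.log (c + δ) - X' =
        (L0 - l1) + (-((a - b) * s) + b * ρ) + (-(vy - a * s))
          + (-(b ^ 2 * ((δ - L) * (δ + L)) / 2) + (a - b) * (a + b) * L ^ 2 / 2)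
          + (ly - a * L) * (ly - a * L + 2 * (a * L)) / 2 + -(vw - (vy - ly ^ 2 / 2)) + R := by
      rw [hlog, hX]
      have e1 : ρ = δ - s := by rw [hδ, hs0]; ring
      have e2 : Complex.log (1 + v) = R + (v - v ^ 2 / 2) := by rw [hR0]; ring
      rw [e1, e2, hv]
      ring
    rw [hid]
    have b2 : ‖-((a - b) * s) + b * ρ‖ ≤ 2 * (d * ι) + u * ρ' := by
      refine (norm_add_le _ _).trans (add_le_add ?_ ?_)
      · rw [norm_neg, norm_mul]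
        calc ‖a - b‖ * ‖s‖ ≤ (2 * ι) * d := by gcongr
          _ = 2 * (d * ι) := by ring
      · rw [norm_mul]
        gcongr
    have b3 : ‖-(vy - a * s)‖ ≤ 42 * ι := by rw [norm_neg]; exact hvy
    have b4 : ‖-(b ^ 2 * ((δ - L) * (δ + L)) / 2) + (a - b) * (a + b) * L ^ 2 / 2‖ ≤
        u ^ 2 * (d ^ 2 - g ^ 2) / 2 + d * ι := by
      refine (norm_add_le _ _).trans (add_le_add ?_ ?_)
      · rw [norm_neg, norm_div, norm_mul, norm_pow, norm_mul, n2]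
        have h1 : ‖δ - L‖ * ‖δ + L‖ ≤ (d - g) * (d + g) :=
          mul_le_mul hδL hδL' (norm_nonneg _) hdg
        have e : (d - g) * (d + g) = d ^ 2 - g ^ 2 := by ring
        rw [e] at h1
        gcongr
      · rw [norm_div, norm_mul, norm_mul, norm_pow, n2]
        have h1 : ‖a + b‖ ≤ 2 * u := (norm_add_le _ _).trans (by linarith)
        have h2 : ‖a - b‖ * ‖a + b‖ * ‖L‖ ^ 2 ≤ (2 * ι) * (2 * u) * g ^ 2 := by gcongr
        have h3 : (2 * ι) * (2 * u) * g ^ 2 / 2 ≤ d * ι := by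
          have e : (2 * ι) * (2 * u) * g ^ 2 / 2 = 2 * (u * g) * g * ι := by ring
          rw [e]
          have h4 : 2 * (u * g) * g ≤ d := by nlinarith
          gcongr
        linarith
    have haL : ‖a * L‖ ≤ 1 / 2 := by
      rw [norm_mul]
      exact (mul_le_mul hau hL (norm_nonneg _) hu).trans hug
    have b5 : ‖(ly - a * L) * (ly - a * L + 2 * (a * L)) / 2‖ ≤ 8 * ι := by
      rw [norm_div, norm_mul, n2]
      have h1 : ‖ly - a * L + 2 * (a * L)‖ ≤ 14 * ι + 1 := by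
        refine (norm_add_le _ _).trans (add_le_add hly ?_)
        rw [norm_mul, n2]
        linarith
      have h2 : ‖ly - a * L‖ * ‖ly - a * L + 2 * (a * L)‖ ≤ (14 * ι) * (14 * ι + 1) := by gcongr
      have h3 : (14 * ι) * (14 * ι + 1) ≤ (14 * ι) * (15 / 14) :=
        mul_le_mul_of_nonneg_left (by linarith) (by positivity)
      linarith
    have b6 : ‖-(vw - (vy - ly ^ 2 / 2))‖ ≤ 26 * ι := by rw [norm_neg]; exact hvw
    refine (norm_add_le _ _).trans ?_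
    refine (add_le_add (norm_add_le _ _) le_rfl).trans ?_
    refine (add_le_add (add_le_add (norm_add_le _ _) le_rfl) le_rfl).trans ?_
    refine (add_le_add (add_le_add (add_le_add (norm_add_le _ _) le_rfl) le_rfl) le_rfl).trans ?_
    refine (add_le_add (add_le_add (add_le_add (add_le_add (norm_add_le _ _) le_rfl) le_rfl)
      le_rfl) le_rfl).trans ?_
    refine (add_le_add (add_le_add (add_le_add (add_le_add (add_le_add (norm_add_le _ _) le_rfl)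
      le_rfl) le_rfl) le_rfl) le_rfl).trans ?_
    refine (add_le_add (add_le_add (add_le_add (add_le_add (add_le_add (add_le_add hl b2) b3) b4)
      b5) b6) hR).trans (le_of_eq ?_)
    ring

/-! ### values of packed models -/

private theorem shr_le (n k : ℕ) : (n : ℝ) / 2 ^ k ≤ ((Nat.shiftRight n k : ℕ) : ℝ) + 1 := by
  have h1 : Nat.shiftRight n k = n / 2 ^ k := Nat.shiftRight_eq_div_pow n k
  rw [h1, div_le_iff₀ (by positivity)]
  have h2 : n < 2 ^ k * (n / 2 ^ k + 1) := Nat.lt_mul_div_succ n (by positivity)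
  have h3 : (n : ℝ) < 2 ^ k * (((n / 2 ^ k : ℕ) : ℝ) + 1) := by exact_mod_cast h2
  linarith

private theorem div_le_nat (n d : ℕ) (hd : 0 < d) :
    (n : ℝ) / d ≤ ((Nat.div n d : ℕ) : ℝ) + 1 := by
  have hd' : (0 : ℝ) < d := by exact_mod_cast hd
  rw [div_le_iff₀ hd']
  have h2 : n < d * (n / d + 1) := Nat.lt_mul_div_succ n hd
  have h3 : (n : ℝ) < d * (((n / d : ℕ) : ℝ) + 1) := by exact_mod_cast h2
  have h4 : ((Nat.div n d : ℕ) : ℝ) = ((n / d : ℕ) : ℝ) := rfl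
  rw [h4]
  linarith

private theorem cadd (a b : ℕ) : ((Nat.add a b : ℕ) : ℝ) = (a : ℝ) + b := Nat.cast_add a b

private theorem cmul (a b : ℕ) : ((Nat.mul a b : ℕ) : ℝ) = (a : ℝ) * b := Nat.cast_mul a b

private theorem csub {a b : ℕ} (h : (b : ℝ) ≤ a) : ((Nat.sub a b : ℕ) : ℝ) = (a : ℝ) - b :=
  Nat.cast_sub (by exact_mod_cast h)

private theorem cshl (a k : ℕ) : ((Nat.shiftLeft a k : ℕ) : ℝ) = (a : ℝ) * 2 ^ k := by
  have e0 : Nat.shiftLeft a k = a * 2 ^ k := Nat.shiftLeft_eq _ _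
  rw [e0]
  push_cast
  ring

/-- the value of the blocks -/
private noncomputable def vl (X : Nat) (ε : List ℂ) : ℂ := bz X 0 + (linv X ε + quadv X ε)

private theorem lin_approx {ε : List ℂ} (hε : Small ε) {X : Nat} {f : Nat → ℂ}
    (h : ∀ j, ‖bz X j - f j‖ ≤ 2 / 2 ^ 40) :
    ‖linv X ε - ∑ j ∈ Finset.range 7, f (j + 7) * m1 ε j‖ ≤ 14 / 2 ^ 40 := by
  unfold linv
  rw [← Finset.sum_sub_distrib]
  have h1 : ∀ j ∈ Finset.range 7, ‖bz X (j + 7) * m1 ε j - f (j + 7) * m1 ε j‖ ≤ 2 / 2 ^ 40 := by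
    intro j _
    rw [← sub_mul, norm_mul]
    exact (mul_le_of_le_one_right (norm_nonneg _) (m1_small hε j)).trans (h _)
  refine (norm_sum_le_of_le _ h1).trans (le_of_eq ?_)
  rw [Finset.sum_const, Finset.card_range, nsmul_eq_mul]
  norm_num

private theorem quad_approx {ε : List ℂ} (hε : Small ε) {X : Nat} {f : Nat → ℂ}
    (h : ∀ j, ‖bz X (j + 14) - f j‖ ≤ 2 / 2 ^ 40) :
    ‖quadv X ε - ∑ j ∈ Finset.range 13, f j * m2 ε j‖ ≤ 26 / 2 ^ 40 := by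
  unfold quadv
  rw [← Finset.sum_sub_distrib]
  have h1 : ∀ j ∈ Finset.range 13, ‖bz X (j + 14) * m2 ε j - f j * m2 ε j‖ ≤ 2 / 2 ^ 40 := by
    intro j _
    rw [← sub_mul, norm_mul]
    exact (mul_le_of_le_one_right (norm_nonneg _) (m2_small hε j)).trans (h _)
  refine (norm_sum_le_of_le _ h1).trans (le_of_eq ?_)
  rw [Finset.sum_const, Finset.card_range, nsmul_eq_mul]
  norm_num

private theorem linv_congr {ε : List ℂ} {X Y : Nat} (h : ∀ j, 1 ≤ j → bz X j = bz Y j) :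
    linv X ε = linv Y ε := by
  unfold linv
  exact Finset.sum_congr rfl fun j _ => by rw [h _ (by omega)]

private theorem quadv_congr {ε : List ℂ} {X Y : Nat} (h : ∀ j, 1 ≤ j → bz X j = bz Y j) :
    quadv X ε = quadv Y ε := by
  unfold quadv
  exact Finset.sum_congr rfl fun j _ => by rw [h _ (by omega)]

private theorem vl_add {ε : List ℂ} {m n X Y : Nat} (hX : Clean m X) (hY : Clean n Y)
    (h : m + n ≤ 2 ^ 128) : vl (Nat.add X Y) ε = vl X ε + vl Y ε := by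
  obtain ⟨-, hb⟩ := clean_add hX hY h
  unfold vl linv quadv
  simp only [hb, add_mul, Finset.sum_add_distrib]
  ring

private theorem vl_swap {ε : List ℂ} {n X : Nat} (hn : n ≤ 2 ^ 128) (hX : Clean n X) :
    vl (swap X) ε = -vl X ε := by
  obtain ⟨-, hb⟩ := clean_swap hn hX
  unfold vl linv quadv
  simp only [hb, neg_mul, Finset.sum_neg_distrib]
  ring

private theorem vl_nrm {ε : List ℂ} {n X : Nat} (hn : n ≤ 2 ^ 100) (hX : Clean n X) :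
    vl (nrm X) ε = vl X ε := by
  obtain ⟨-, hb⟩ := clean_nrm hn hX
  unfold vl linv quadv
  simp only [hb]

private theorem vl_one {ε : List ℂ} {n x : Nat} (hx : One n x) : vl x ε = bz x 0 := by
  unfold vl linv quadv
  have h : ∀ j, 1 ≤ j → bz x j = 0 := fun j hj => bz_zero_of_one hx hj
  rw [Finset.sum_eq_zero (fun j _ => by rw [h _ (by omega), zero_mul]),
    Finset.sum_eq_zero (fun j _ => by rw [h _ (by omega), zero_mul])]
  ring

private theorem vl_mulX {ε : List ℂ} (hε : Small ε) {X w : Nat} (hX : Clean (2 ^ 61) X)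
    (hw : One (2 ^ 62) w) :
    ‖vl (mulX X w) ε - bz w 0 * vl X ε‖ ≤ 42 / 2 ^ 40 ∧
      ‖linv (mulX X w) ε - bz w 0 * linv X ε‖ ≤ 14 / 2 ^ 40 := by
  obtain ⟨-, hm⟩ := mulX_spec hX hw
  have hL := lin_approx hε (X := mulX X w) (f := fun j => bz X j * bz w 0) hm
  have hQ := quad_approx hε (X := mulX X w) (f := fun j => bz X (j + 14) * bz w 0)
    (fun j => hm (j + 14))
  have eL : ∑ j ∈ Finset.range 7, bz X (j + 7) * bz w 0 * m1 ε j = bz w 0 * linv X ε := by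
    unfold linv
    rw [Finset.mul_sum]
    exact Finset.sum_congr rfl fun j _ => by ring
  have eQ : ∑ j ∈ Finset.range 13, bz X (j + 14) * bz w 0 * m2 ε j = bz w 0 * quadv X ε := by
    unfold quadv
    rw [Finset.mul_sum]
    exact Finset.sum_congr rfl fun j _ => by ring
  rw [eL] at hL
  rw [eQ] at hQ
  refine ⟨?_, hL⟩
  have h0 := hm 0
  have e : vl (mulX X w) ε - bz w 0 * vl X ε = (bz (mulX X w) 0 - bz X 0 * bz w 0) +
      (linv (mulX X w) ε - bz w 0 * linv X ε) + (quadv (mulX X w) ε - bz w 0 * quadv X ε) := by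
    unfold vl
    ring
  rw [e]
  refine (norm_add_le _ _).trans ?_
  refine (add_le_add (norm_add_le _ _) le_rfl).trans ?_
  refine (add_le_add (add_le_add h0 hL) hQ).trans (le_of_eq ?_)
  norm_num

private theorem vl_tail {ε : List ℂ} {n X : Nat} (hX : Clean n X) :
    vl (Nat.sub X (Nat.land X m512)) ε = linv X ε + quadv X ε ∧
      linv (Nat.sub X (Nat.land X m512)) ε = linv X ε := by
  have h := bz_tail hX
  have h1 : ∀ j, 1 ≤ j → bz (Nat.sub X (Nat.land X m512)) j = bz X j := by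
    intro j hj
    rw [h j, if_neg (by omega)]
  have h0 : bz (Nat.sub X (Nat.land X m512)) 0 = 0 := by rw [h 0, if_pos rfl]
  refine ⟨?_, linv_congr h1⟩
  unfold vl
  rw [linv_congr h1, quadv_congr h1, h0, zero_add]

/-- a number shifted by `14` blocks is a quadratic part -/
private theorem vl_shift {ε : List ℂ} (hε : Small ε) {n S : Nat} (hS : Clean n S)
    (h0 : ∀ i, 8 * 13 ≤ i → fd S i = 0) {f : Nat → ℂ} (hf : ∀ j, ‖bz S j - f j‖ ≤ 2 / 2 ^ 40) :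
    Clean n (Nat.shiftLeft S 14336) ∧ linv (Nat.shiftLeft S 14336) ε = 0 ∧
      ‖vl (Nat.shiftLeft S 14336) ε - ∑ j ∈ Finset.range 13, f j * m2 ε j‖ ≤ 26 / 2 ^ 40 := by
  obtain ⟨h1, h2⟩ := clean_shl hS 14 (fun i hi => h0 i (by omega))
  have e : (1024 * 14 : Nat) = 14336 := by norm_num
  rw [e] at h1 h2
  have hb : bz (Nat.shiftLeft S 14336) 0 = 0 := by rw [h2, if_pos (by norm_num)]
  have hl : linv (Nat.shiftLeft S 14336) ε = 0 := by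
    unfold linv
    refine Finset.sum_eq_zero fun j hj => ?_
    rw [Finset.mem_range] at hj
    rw [h2, if_pos (by omega), zero_mul]
  refine ⟨h1, hl, ?_⟩
  unfold vl
  rw [hb, hl, zero_add, zero_add]
  refine quad_approx hε fun j => ?_
  rw [h2, if_neg (by omega), Nat.add_sub_cancel]
  exact hf j

private theorem vl_sqr {ε : List ℂ} (hε : Small ε) {X : Nat} (hX : Clean (2 ^ 61) X)
    (hs : Sparse X) :
    Clean (2 ^ 88) (Nat.shiftLeft (sh (fold (Nat.mul (lin X) (lin X)))) 14336) ∧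
    linv (Nat.shiftLeft (sh (fold (Nat.mul (lin X) (lin X)))) 14336) ε = 0 ∧
    ‖vl (Nat.shiftLeft (sh (fold (Nat.mul (lin X) (lin X)))) 14336) ε - linv X ε ^ 2‖ ≤
      26 / 2 ^ 40 := by
  obtain ⟨h1, h2, h3⟩ := sqr_spec hX hs
  rw [pow_two, linv_mul hs hs]
  exact vl_shift hε h1 h2 h3

private theorem vl_sqr1 {ε : List ℂ} (hε : Small ε) {X : Nat} (hX : Clean (2 ^ 61) X)
    (hs : Sparse X) :
    Clean (2 ^ 88) (Nat.shiftLeft (sh1 (fold (Nat.mul (lin X) (lin X)))) 14336) ∧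
    linv (Nat.shiftLeft (sh1 (fold (Nat.mul (lin X) (lin X)))) 14336) ε = 0 ∧
    ‖vl (Nat.shiftLeft (sh1 (fold (Nat.mul (lin X) (lin X)))) 14336) ε - linv X ε ^ 2 / 2‖ ≤
      26 / 2 ^ 40 := by
  obtain ⟨h1, h2, h3⟩ := sqr1_spec hX hs
  have e : linv X ε ^ 2 / 2 = ∑ j ∈ Finset.range 13, lprod X X j / 2 * m2 ε j := by
    rw [pow_two, linv_mul hs hs, Finset.sum_div]
    exact Finset.sum_congr rfl fun j _ => by ring
  rw [e]
  exact vl_shift hε h1 h2 h3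

private theorem norm_le_dmag {x : ℕ} (h : One (2 ^ 62) x) : ‖bz x 0‖ ≤ (dmag x : ℝ) / 2 ^ 40 := by
  have h1 := Pool.Agent.helper31.IB.dmag_spec
    (Pool.Agent.helper31.IB.clean_mono (Pool.Agent.helper31.IB.clean_of_one h)
      (by norm_num : 2 ^ 62 ≤ 2 ^ 90))
  rw [le_div_iff₀ (by positivity)]
  refine le_trans ?_ h1
  have h2 : ‖bz x 0‖ ≤ ∑ j ∈ Finset.range 8, ‖bz x j‖ :=
    Finset.single_le_sum (f := fun j => ‖bz x j‖) (fun j _ => norm_nonneg _)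
      (Finset.mem_range.mpr (by norm_num))
  exact mul_le_mul_of_nonneg_right h2 (by positivity)

private theorem bif_ok {b : Bool} {X r : ℕ}
    (h : (bif b then mdl X r true else ⟨0, 0, 0, 0, false⟩ : A).ok = true) :
    b = true := by
  cases b with
  | true => rfl
  | false => exact h

private theorem bif_eq {b : Bool} {X r : ℕ} (h : b = true) :
    (bif b then mdl X r true else ⟨0, 0, 0, 0, false⟩ : A) = mdl X r true := by
  rw [h]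
  rfl

/-- the decomposition of the value, in normalised units -/
private theorem split' {ε : List ℂ} (hε : Small ε) {x : A} {z : ℂ} (h : MemC ε x z) :
    ∃ ρ : ℂ, z = bz x.X 0 + (linv x.X ε + (quadv x.X ε + ρ)) ∧ ‖ρ‖ ≤ (x.r : ℝ) / 2 ^ 40 ∧
      ‖linv x.X ε‖ ≤ (x.G : ℝ) / 2 ^ 40 ∧
      ‖quadv x.X ε + ρ‖ ≤ (x.D : ℝ) / 2 ^ 40 - (x.G : ℝ) / 2 ^ 40 ∧
      ‖linv x.X ε + quadv x.X ε‖ ≤ (x.D : ℝ) / 2 ^ 40 ∧ (x.G : ℝ) ≤ x.D := by
  obtain ⟨ρ, h1, h2, h3, h4, h5⟩ := h.split hε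
  refine ⟨ρ, h1, h2, h3, by rw [← sub_div]; exact h4, ?_, h5⟩
  have hq : ‖quadv x.X ε‖ ≤ ∑ j ∈ Finset.range 13, ‖bz x.X (j + 14)‖ := by
    unfold quadv
    refine (norm_sum_le _ _).trans (Finset.sum_le_sum fun j _ => ?_)
    rw [norm_mul]
    exact mul_le_of_le_one_right (norm_nonneg _) (m2_small hε j)
  have hd := h.dev
  have hr : (0 : ℝ) ≤ x.r := Nat.cast_nonneg _
  refine (norm_add_le _ _).trans ?_
  rw [le_div_iff₀ (by positivity)] at h3 ⊢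
  nlinarith

/-! ### the three functions -/

theorem Mem.inv {ε : List ℂ} (hε : Small ε) {x : A} {u : ℂ} (hx : Mem ε x u)
    (h : x.inv.ok = true) : u ≠ 0 ∧ Mem ε x.inv u⁻¹ := by
  have hcond := bif_ok h
  obtain ⟨c, hc0⟩ : ∃ c : ℕ, c = Nat.land x.X m512 := ⟨_, rfl⟩
  obtain ⟨a, ha0⟩ : ∃ a : ℕ, a = (zinv c).1 := ⟨_, rfl⟩
  obtain ⟨U, hU⟩ : ∃ U : ℕ, U = Nat.add (dmag a) 2 := ⟨_, rfl⟩
  obtain ⟨k, hk0⟩ : ∃ k : ℕ, k = Nat.add (Nat.shiftRight (Nat.mul U x.D) 40) 1 := ⟨_, rfl⟩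
  obtain ⟨y, hy0⟩ : ∃ y : ℕ, y = mulX (Nat.sub x.X c) a := ⟨_, rfl⟩
  obtain ⟨S, hS0⟩ : ∃ S : ℕ, S = Nat.shiftLeft (sh (fold (Nat.mul (lin y) (lin y)))) 14336 :=
    ⟨_, rfl⟩
  obtain ⟨w, hw0⟩ : ∃ w : ℕ, w = nrm (Nat.add (swap y) S) := ⟨_, rfl⟩
  rw [← hc0, ← ha0, ← hU, ← hk0, ← hy0, ← hS0, ← hw0] at hcond
  simp only [Bool.and_eq_true, Nat.ble_eq] at hcond
  obtain ⟨⟨⟨⟨⟨hxok, hn⟩, hk⟩, hga⟩, hgy⟩, hgw⟩ := hcond
  have hM := hx hxok
  obtain ⟨ρ, hz, hρ, hL, hκ, hs, hGD⟩ := split' hε hM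
  have hc1 : One (2 ^ 62) c := by
    rw [hc0]
    exact fun i => ⟨lt_of_lt_of_le (clean_head hM.clean i).1 (by norm_num),
      (clean_head hM.clean i).2⟩
  have hcb : bz c 0 = bz x.X 0 := by rw [hc0]; exact bz_head x.X
  obtain ⟨ha1, hcne, han, -⟩ := zinv_spec hc1 hn
  rw [← ha0] at ha1 han
  rw [hcb] at hcne han
  have hm := norm_le_dmag ha1
  have hUr : (U : ℝ) = dmag a + 2 := by rw [hU, cadd]; norm_num
  have haU : ‖bz a 0‖ ≤ (U : ℝ) / 2 ^ 40 := by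
    refine hm.trans ?_
    rw [hUr]
    gcongr
    linarith
  have hcU : ‖(bz x.X 0)⁻¹‖ ≤ (U : ℝ) / 2 ^ 40 := by
    have e1 : (bz x.X 0)⁻¹ = bz a 0 - (bz a 0 - (bz x.X 0)⁻¹) := by ring
    rw [e1]
    refine (norm_sub_le _ _).trans ?_
    rw [hUr, add_div]
    exact add_le_add hm han
  have hUD : (U : ℝ) / 2 ^ 40 * (x.D / 2 ^ 40) ≤ k / 2 ^ 40 := by
    have := shr_le (Nat.mul U x.D) 40
    rw [cmul] at this
    have hkr : (k : ℝ) = ((Nat.shiftRight (Nat.mul U x.D) 40 : ℕ) : ℝ) + 1 := by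
      rw [hk0, cadd]; norm_num
    rw [← hkr] at this
    have e : (U : ℝ) / 2 ^ 40 * (x.D / 2 ^ 40) = (U : ℝ) * x.D / 2 ^ 40 / 2 ^ 40 := by ring
    rw [e]
    gcongr
  have hk2 : (k : ℝ) / 2 ^ 40 ≤ 1 / 2 := by
    have : (k : ℝ) ≤ (549755813888 : ℕ) := by exact_mod_cast hk
    rw [div_le_iff₀ (by positivity)]
    refine this.trans ?_
    norm_num
  obtain ⟨hyc, hys⟩ := (good_iff y).1 hgy
  obtain ⟨hwc, -⟩ := (good_iff w).1 hgw
  have hT := clean_tail hM.clean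
  have hTv := vl_tail (ε := ε) hM.clean
  rw [← hc0] at hT hTv
  obtain ⟨hvy, hly⟩ := vl_mulX hε hT ha1
  rw [← hy0, hTv.1] at hvy
  rw [← hy0, hTv.2] at hly
  obtain ⟨hSc, -, hSv⟩ := vl_sqr hε hyc hys
  rw [← hS0] at hSc hSv
  have hsw := (clean_swap (by norm_num) hyc).1
  have hadd := (clean_add hsw hSc (by norm_num)).1
  have hwv : vl w ε = -vl y ε + vl S ε := by
    rw [hw0, vl_nrm (by norm_num) hadd, vl_add hsw hSc (by norm_num), vl_swap (by norm_num) hyc]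
  have hvw : ‖vl w ε - (-vl y ε + linv y ε ^ 2)‖ ≤ 26 / 2 ^ 40 := by
    have e : vl w ε - (-vl y ε + linv y ε ^ 2) = vl S ε - linv y ε ^ 2 := by rw [hwv]; ring
    rw [e]
    exact hSv
  obtain ⟨hPc, -⟩ := mulX_spec hwc ha1
  obtain ⟨hPv, -⟩ := vl_mulX hε hwc ha1
  have hX : ‖vl (Nat.add a (mulX w a)) ε - (bz a 0 + bz a 0 * vl w ε)‖ ≤ 42 / 2 ^ 40 := by
    rw [vl_add (clean_of_one ha1) hPc (by norm_num), vl_one ha1]
    have e : bz a 0 + vl (mulX w a) ε - (bz a 0 + bz a 0 * vl w ε) =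
        vl (mulX w a) ε - bz a 0 * vl w ε := by ring
    rw [e]
    exact hPv
  have e2 : (2 : ℝ) / 2 ^ 40 = 2 * (1 / 2 ^ 40) := by ring
  have e14 : (14 : ℝ) / 2 ^ 40 = 14 * (1 / 2 ^ 40) := by ring
  have e26 : (26 : ℝ) / 2 ^ 40 = 26 * (1 / 2 ^ 40) := by ring
  have e42 : (42 : ℝ) / 2 ^ 40 = 42 * (1 / 2 ^ 40) := by ring
  rw [e2] at han
  rw [e14] at hly
  rw [e26] at hvw
  rw [e42] at hvy hX
  have key := inv_core (ι := 1 / 2 ^ 40) (by positivity) (by norm_num) hcne han haU hcU hL hρ hκ hs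
    hUD hk2 hvy hly hvw hX
  rw [← hz] at key
  refine ⟨key.1, ?_⟩
  have hdef : x.inv = mdl (Nat.add a (mulX w a))
      (Nat.add
        (Nat.add
          (Nat.shiftRight (Nat.mul (Nat.mul U U) (Nat.add (Nat.shiftLeft x.r 80)
            (Nat.mul U (Nat.sub (Nat.mul x.D x.D) (Nat.mul x.G x.G))))) 160)
          (Nat.div (Nat.mul U (Nat.mul k (Nat.mul k k)))
            (Nat.shiftLeft (Nat.sub 1099511627776 k) 80)))
        (Nat.add (Nat.shiftRight (Nat.mul 300 U) 40) 100))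
      true := by
    rw [hw0, hS0, hy0, hk0, hU, ha0, hc0]
    exact bif_eq (bif_ok h)
  rw [hdef]
  refine mem_mdl fun _ _ _ => ?_
  refine key.2.trans ?_
  have hG2 : ((Nat.mul x.G x.G : ℕ) : ℝ) ≤ ((Nat.mul x.D x.D : ℕ) : ℝ) := by
    rw [cmul, cmul]
    have : (0 : ℝ) ≤ x.G := Nat.cast_nonneg _
    exact mul_le_mul hGD hGD this (this.trans hGD)
  have s1 := shr_le (Nat.mul (Nat.mul U U) (Nat.add (Nat.shiftLeft x.r 80)
            (Nat.mul U (Nat.sub (Nat.mul x.D x.D) (Nat.mul x.G x.G))))) 160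
  have s2 := shr_le (Nat.mul 300 U) 40
  have hkK : (k : ℝ) ≤ 2 ^ 40 / 2 := by
    rw [div_le_iff₀ (by positivity)] at hk2
    linarith
  have hkK' : (k : ℝ) ≤ (1099511627776 : ℕ) := by
    refine hkK.trans ?_
    norm_num
  have hden : ((Nat.shiftLeft (Nat.sub 1099511627776 k) 80 : ℕ) : ℝ) =
      (2 ^ 40 - (k : ℝ)) * 2 ^ 80 := by
    rw [cshl, csub hkK']
    norm_num
  have hKk : (0 : ℝ) < 2 ^ 40 - k := by
    have : (0 : ℝ) < 2 ^ 40 / 2 := by positivity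
    linarith
  have hdpos : 0 < Nat.shiftLeft (Nat.sub 1099511627776 k) 80 := by
    have : (0 : ℝ) < ((Nat.shiftLeft (Nat.sub 1099511627776 k) 80 : ℕ) : ℝ) := by
      rw [hden]
      positivity
    exact_mod_cast this
  have s3 := div_le_nat (Nat.mul U (Nat.mul k (Nat.mul k k))) _ hdpos
  rw [hden] at s3
  rw [cmul, cmul, cadd, cshl, cmul, csub hG2, cmul, cmul] at s1
  rw [cmul] at s2
  rw [cmul, cmul, cmul] at s3
  rw [cadd, cadd, cadd]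
  have f1 : ((U : ℝ) / 2 ^ 40) ^ 2 * (x.r / 2 ^ 40) +
      ((U : ℝ) / 2 ^ 40) ^ 3 * ((x.D / 2 ^ 40) ^ 2 - (x.G / 2 ^ 40) ^ 2) =
      ((U : ℝ) * U * (x.r * 2 ^ 80 + U * (x.D * x.D - x.G * x.G)) / 2 ^ 160) / 2 ^ 40 := by
    ring
  have f2 : (U : ℝ) / 2 ^ 40 * (k / 2 ^ 40) ^ 3 / (1 - k / 2 ^ 40) =
      ((U : ℝ) * (k * (k * k)) / ((2 ^ 40 - k) * 2 ^ 80)) / 2 ^ 40 := by
    have h1 : (1 - (k : ℝ) / 2 ^ 40) = (2 ^ 40 - k) / 2 ^ 40 := by
      field_simp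
    rw [h1]
    have h2 : (2 ^ 40 - (k : ℝ)) ≠ 0 := hKk.ne'
    field_simp
  have f3 : (83 : ℝ) * ((U : ℝ) / 2 ^ 40 * (1 / 2 ^ 40)) ≤
      (((300 : ℕ) : ℝ) * U / 2 ^ 40) / 2 ^ 40 := by
    have hU0 : (0 : ℝ) ≤ U := Nat.cast_nonneg _
    have e : (83 : ℝ) * ((U : ℝ) / 2 ^ 40 * (1 / 2 ^ 40)) = (83 * U / 2 ^ 40) / 2 ^ 40 := by ring
    rw [e]
    refine div_le_div_of_nonneg_right (div_le_div_of_nonneg_right ?_ (by positivity))
      (by positivity)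
    push_cast
    linarith
  rw [f1, f2]
  have g1 := div_le_div_of_nonneg_right s1 (by positivity : (0 : ℝ) ≤ 2 ^ 40)
  have g2 := div_le_div_of_nonneg_right s2 (by positivity : (0 : ℝ) ≤ 2 ^ 40)
  have g3 := div_le_div_of_nonneg_right s3 (by positivity : (0 : ℝ) ≤ 2 ^ 40)
  refine (add_le_add (add_le_add (add_le_add le_rfl (f3.trans g2)) g1) g3).trans ?_
  rw [mul_one_div, ← add_div, ← add_div, ← add_div]
  refine div_le_div_of_nonneg_right ?_ (by positivity)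
  push_cast
  linarith

theorem Mem.exp {ε : List ℂ} (hε : Small ε) {x : A} {u : ℂ} (hx : Mem ε x u)
    (h : x.exp.ok = true) : Mem ε x.exp (Complex.exp u) := by
  have hb := bif_ok h
  have hcond := hb
  obtain ⟨c, hc0⟩ : ∃ c : ℕ, c = Nat.land x.X m512 := ⟨_, rfl⟩
  obtain ⟨E, hE0⟩ : ∃ E : ℕ, E = (zexp c).1 := ⟨_, rfl⟩
  obtain ⟨e, he0⟩ : ∃ e : ℕ, e = (zexp c).2.1 := ⟨_, rfl⟩
  obtain ⟨M, hM0⟩ : ∃ M : ℕ, M = Nat.add (dmag E) e := ⟨_, rfl⟩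
  obtain ⟨S, hS0⟩ : ∃ S : ℕ, S = Nat.shiftLeft (sh1 (fold (Nat.mul (lin x.X) (lin x.X)))) 14336 :=
    ⟨_, rfl⟩
  obtain ⟨w, hw0⟩ : ∃ w : ℕ, w = nrm (Nat.add (Nat.sub x.X c) S) := ⟨_, rfl⟩
  obtain ⟨q, hq⟩ : ∃ q : ℕ, q = Nat.add (Nat.add (Nat.shiftRight (Nat.sub (Nat.mul x.D x.D)
    (Nat.mul x.G x.G)) 41) (Nat.div (Nat.mul (Nat.mul x.D (Nat.mul x.D x.D))
      (Nat.add 3298534883328 x.D)) (Nat.shiftLeft 18 120))) 60 := ⟨_, rfl⟩
  rw [← hc0, ← hS0, ← hw0, ← hE0] at hcond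
  simp only [Bool.and_eq_true, Nat.ble_eq] at hcond
  obtain ⟨⟨⟨⟨hxok, heok⟩, hD1⟩, hgE⟩, hgw⟩ := hcond
  have hM := hx hxok
  obtain ⟨ρ, hz, hρ, hL, hκ, hs, hGD⟩ := split' hε hM
  have hc1 : One (2 ^ 62) c := by
    rw [hc0]
    exact fun i => ⟨lt_of_lt_of_le (clean_head hM.clean i).1 (by norm_num),
      (clean_head hM.clean i).2⟩
  have hcb : bz c 0 = bz x.X 0 := by rw [hc0]; exact bz_head x.X
  obtain ⟨hE1, hE⟩ := zexp_spec hc1 heok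
  rw [← hE0, ← he0, hcb] at hE
  rw [← hE0] at hE1
  have hm := norm_le_dmag hE1
  have hMr : (M : ℝ) = dmag E + e := by rw [hM0, cadd]
  have hMb : ‖Complex.exp (bz x.X 0)‖ ≤ (M : ℝ) / 2 ^ 40 := by
    have e1 : Complex.exp (bz x.X 0) = bz E 0 - (bz E 0 - Complex.exp (bz x.X 0)) := by ring
    rw [e1]
    refine (norm_sub_le _ _).trans ?_
    rw [hMr, add_div]
    exact add_le_add hm hE
  have hMb' : ‖bz E 0‖ ≤ (M : ℝ) / 2 ^ 40 := by
    refine hm.trans ?_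
    rw [hMr]
    gcongr
    have : (0 : ℝ) ≤ e := Nat.cast_nonneg _
    linarith
  have hDK : (x.D : ℝ) / 2 ^ 40 ≤ 1 := by
    have : (x.D : ℝ) ≤ (1099511627776 : ℕ) := by exact_mod_cast hD1
    rw [div_le_iff₀ (by positivity)]
    refine this.trans ?_
    norm_num
  obtain ⟨hwc, -⟩ := (good_iff w).1 hgw
  have hT := clean_tail hM.clean
  have hTv := vl_tail (ε := ε) hM.clean
  rw [← hc0] at hT hTv
  obtain ⟨hSc, -, hSv⟩ := vl_sqr1 hε hM.clean hM.sparse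
  rw [← hS0] at hSc hSv
  have hadd := (clean_add hT hSc (by norm_num)).1
  have hwv : vl w ε = linv x.X ε + quadv x.X ε + vl S ε := by
    rw [hw0, vl_nrm (by norm_num) hadd, vl_add hT hSc (by norm_num), hTv.1]
  have hvw : ‖vl w ε - (linv x.X ε + quadv x.X ε + linv x.X ε ^ 2 / 2)‖ ≤ 26 / 2 ^ 40 := by
    have e : vl w ε - (linv x.X ε + quadv x.X ε + linv x.X ε ^ 2 / 2) =
        vl S ε - linv x.X ε ^ 2 / 2 := by rw [hwv]; ring
    rw [e]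
    exact hSv
  obtain ⟨hPc, -⟩ := mulX_spec hwc hE1
  obtain ⟨hPv, -⟩ := vl_mulX hε hwc hE1
  have hX : ‖vl (Nat.add E (mulX w E)) ε - (bz E 0 + bz E 0 * vl w ε)‖ ≤ 42 / 2 ^ 40 := by
    rw [vl_add (clean_of_one hE1) hPc (by norm_num), vl_one hE1]
    have e : bz E 0 + vl (mulX w E) ε - (bz E 0 + bz E 0 * vl w ε) =
        vl (mulX w E) ε - bz E 0 * vl w ε := by ring
    rw [e]
    exact hPv
  have e26 : (26 : ℝ) / 2 ^ 40 = 26 * (1 / 2 ^ 40) := by ring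
  have e42 : (42 : ℝ) / 2 ^ 40 = 42 * (1 / 2 ^ 40) := by ring
  rw [e26] at hvw
  rw [e42] at hX
  have key := exp_core (ι := 1 / 2 ^ 40) hE hMb hMb' hL hρ hκ hs hDK hvw hX
  rw [← hz] at key
  have hdef : x.exp = mdl (Nat.add E (mulX w E))
      (Nat.add
        (Nat.add e (Nat.shiftRight (Nat.mul e (Nat.mul 2 x.D)) 40))
        (Nat.add (Nat.shiftRight (Nat.mul M (Nat.add x.r q)) 40) 100))
      true := by
    rw [hq, hw0, hS0, hM0, he0, hE0, hc0]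
    exact bif_eq hb
  rw [hdef]
  refine mem_mdl fun _ _ _ => ?_
  refine key.trans ?_
  have hG2 : ((Nat.mul x.G x.G : ℕ) : ℝ) ≤ ((Nat.mul x.D x.D : ℕ) : ℝ) := by
    rw [cmul, cmul]
    have : (0 : ℝ) ≤ x.G := Nat.cast_nonneg _
    exact mul_le_mul hGD hGD this (this.trans hGD)
  have s1 := shr_le (Nat.mul e (Nat.mul 2 x.D)) 40
  have s2 := shr_le (Nat.mul M (Nat.add x.r q)) 40
  have s3 := shr_le (Nat.sub (Nat.mul x.D x.D) (Nat.mul x.G x.G)) 41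
  have s4 := div_le_nat (Nat.mul (Nat.mul x.D (Nat.mul x.D x.D)) (Nat.add 3298534883328 x.D))
    (Nat.shiftLeft 18 120) (by
      have e : Nat.shiftLeft 18 120 = 18 * 2 ^ 120 := Nat.shiftLeft_eq _ _
      rw [e]
      positivity)
  have hqr : (q : ℝ) = ((Nat.shiftRight (Nat.sub (Nat.mul x.D x.D)
    (Nat.mul x.G x.G)) 41 : ℕ) : ℝ) + ((Nat.div (Nat.mul (Nat.mul x.D (Nat.mul x.D x.D))
      (Nat.add 3298534883328 x.D)) (Nat.shiftLeft 18 120) : ℕ) : ℝ) + 60 := by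
    rw [hq, cadd, cadd]
    norm_num
  rw [cmul, cmul] at s1
  rw [cmul, cadd] at s2
  rw [csub hG2, cmul, cmul] at s3
  rw [cmul, cmul, cmul, cadd, cshl] at s4
  rw [cadd, cadd, cadd]
  have hM0' : (0 : ℝ) ≤ M := Nat.cast_nonneg _
  have f1 : (e : ℝ) / 2 ^ 40 * (1 + 2 * (x.D / 2 ^ 40)) =
      (e + (e : ℝ) * (((2 : ℕ) : ℝ) * x.D) / 2 ^ 40) / 2 ^ 40 := by
    push_cast
    ring
  have f2 : (M : ℝ) / 2 ^ 40 * (x.r / 2 ^ 40 + ((x.D / 2 ^ 40) ^ 2 - (x.G / 2 ^ 40) ^ 2) / 2 +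
      (x.D / 2 ^ 40) ^ 3 * (3 + x.D / 2 ^ 40) / 18 + 26 * (1 / 2 ^ 40)) =
      ((M : ℝ) * (x.r + ((x.D * x.D - x.G * x.G) / 2 ^ 41 +
        x.D * (x.D * x.D) * (((3298534883328 : ℕ) : ℝ) + x.D) / (((18 : ℕ) : ℝ) * 2 ^ 120) + 26))
        / 2 ^ 40) / 2 ^ 40 := by
    push_cast
    ring
  have f3 : (M : ℝ) * (x.r + ((x.D * x.D - x.G * x.G) / 2 ^ 41 +
        x.D * (x.D * x.D) * (((3298534883328 : ℕ) : ℝ) + x.D) / (((18 : ℕ) : ℝ) * 2 ^ 120) + 26))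
        / 2 ^ 40 ≤ (M : ℝ) * (x.r + q) / 2 ^ 40 := by
    have : ((x.D * x.D - x.G * x.G) / 2 ^ 41 +
        x.D * (x.D * x.D) * (((3298534883328 : ℕ) : ℝ) + x.D) / (((18 : ℕ) : ℝ) * 2 ^ 120) + 26 : ℝ)
        ≤ q := by
      rw [hqr]
      linarith
    refine div_le_div_of_nonneg_right (mul_le_mul_of_nonneg_left ?_ hM0') (by positivity)
    exact add_le_add le_rfl this
  rw [f1, f2]
  have g2 := div_le_div_of_nonneg_right (f3.trans s2) (by positivity : (0 : ℝ) ≤ 2 ^ 40)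
  refine (add_le_add (add_le_add le_rfl g2) le_rfl).trans ?_
  rw [mul_one_div, ← add_div, ← add_div]
  refine div_le_div_of_nonneg_right ?_ (by positivity)
  push_cast at s1 ⊢
  linarith

theorem Mem.log {ε : List ℂ} (hε : Small ε) {x : A} {u : ℂ} (hx : Mem ε x u)
    (h : x.log.ok = true) : u ∈ slitPlane ∧ Mem ε x.log (Complex.log u) := by
  have hb := bif_ok h
  have hcond := hb
  obtain ⟨c, hc0⟩ : ∃ c : ℕ, c = Nat.land x.X m512 := ⟨_, rfl⟩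
  obtain ⟨l, hl0⟩ : ∃ l : ℕ, l = (zlog c).1 := ⟨_, rfl⟩
  obtain ⟨e, he0⟩ : ∃ e : ℕ, e = (zlog c).2.1 := ⟨_, rfl⟩
  obtain ⟨a, ha0⟩ : ∃ a : ℕ, a = (zinv c).1 := ⟨_, rfl⟩
  obtain ⟨U, hU⟩ : ∃ U : ℕ, U = Nat.add (dmag a) 2 := ⟨_, rfl⟩
  obtain ⟨k, hk0⟩ : ∃ k : ℕ, k = Nat.add (Nat.shiftRight (Nat.mul U x.D) 40) 1 := ⟨_, rfl⟩
  obtain ⟨im, him0⟩ : ∃ im : ℕ, im = Nat.add (Nat.sub (fd l 1) (fd l 3))
    (Nat.sub (fd l 3) (fd l 1)) := ⟨_, rfl⟩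
  obtain ⟨y, hy0⟩ : ∃ y : ℕ, y = mulX (Nat.sub x.X c) a := ⟨_, rfl⟩
  obtain ⟨S, hS0⟩ : ∃ S : ℕ, S = Nat.shiftLeft (sh1 (fold (Nat.mul (lin y) (lin y)))) 14336 :=
    ⟨_, rfl⟩
  obtain ⟨w, hw0⟩ : ∃ w : ℕ, w = nrm (Nat.add y (swap S)) := ⟨_, rfl⟩
  rw [← hc0, ← ha0, ← hU, ← hk0, ← hl0, ← he0, ← him0, ← hy0, ← hS0, ← hw0] at hcond
  simp only [Bool.and_eq_true, Nat.ble_eq] at hcond
  obtain ⟨⟨⟨⟨⟨⟨⟨⟨hxok, hlok⟩, hn⟩, hk⟩, hga⟩, hgl⟩, hpi⟩, hgy⟩, hgw⟩ := hcond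
  have hM := hx hxok
  obtain ⟨ρ, hz, hρ, hL, hκ, hs, hGD⟩ := split' hε hM
  have hc1 : One (2 ^ 62) c := by
    rw [hc0]
    exact fun i => ⟨lt_of_lt_of_le (clean_head hM.clean i).1 (by norm_num),
      (clean_head hM.clean i).2⟩
  have hcb : bz c 0 = bz x.X 0 := by rw [hc0]; exact bz_head x.X
  obtain ⟨ha1, hcne, han, -⟩ := zinv_spec hc1 hn
  rw [← ha0] at ha1 han
  rw [hcb] at hcne han
  have hm := norm_le_dmag ha1
  obtain ⟨hl1, L0, hL0, hl⟩ := zlog_spec hc1 hlok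
  rw [← hl0] at hl1 hl
  rw [← he0, norm_sub_rev] at hl
  rw [hcb] at hL0
  have hK : (0 : ℝ) < 2 ^ 40 := by positivity
  have hUr : (U : ℝ) = dmag a + 2 := by rw [hU, cadd]; norm_num
  have haU : ‖bz a 0‖ ≤ (U : ℝ) / 2 ^ 40 := by
    refine hm.trans ?_
    rw [hUr]
    gcongr
    linarith
  have hcU : ‖(bz x.X 0)⁻¹‖ ≤ (U : ℝ) / 2 ^ 40 := by
    have e1 : (bz x.X 0)⁻¹ = bz a 0 - (bz a 0 - (bz x.X 0)⁻¹) := by ring
    rw [e1]
    refine (norm_sub_le _ _).trans ?_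
    rw [hUr, add_div]
    exact add_le_add hm han
  have hUD : (U : ℝ) / 2 ^ 40 * (x.D / 2 ^ 40) ≤ k / 2 ^ 40 := by
    have := shr_le (Nat.mul U x.D) 40
    rw [cmul] at this
    have hkr : (k : ℝ) = ((Nat.shiftRight (Nat.mul U x.D) 40 : ℕ) : ℝ) + 1 := by
      rw [hk0, cadd]; norm_num
    rw [← hkr] at this
    have e : (U : ℝ) / 2 ^ 40 * (x.D / 2 ^ 40) = (U : ℝ) * x.D / 2 ^ 40 / 2 ^ 40 := by ring
    rw [e]
    gcongr
  have hk2 : (k : ℝ) / 2 ^ 40 ≤ 1 / 2 := by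
    have : (k : ℝ) ≤ (549755813888 : ℕ) := by exact_mod_cast hk
    rw [div_le_iff₀ (by positivity)]
    refine this.trans ?_
    norm_num
  have himv : (bz l 0).im = ((fd l 1 : ℝ) - fd l 3) / 2 ^ 40 := by
    unfold bz
    simp only [Nat.mul_zero, Nat.zero_add, add_im, mul_im, ofReal_im, ofReal_re, I_im, I_re]
    ring
  have him : |(bz l 0).im| ≤ (im : ℝ) / 2 ^ 40 := by
    rw [himv, abs_div, abs_of_pos hK, him0, cadd]
    gcongr
    rcases le_total (fd l 1) (fd l 3) with hcd | hcd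
    · have e1 : ((Nat.sub (fd l 3) (fd l 1) : ℕ) : ℝ) = fd l 3 - fd l 1 :=
        Nat.cast_sub hcd
      have e2 : (0 : ℝ) ≤ ((Nat.sub (fd l 1) (fd l 3) : ℕ) : ℝ) := Nat.cast_nonneg _
      have e3 : (fd l 1 : ℝ) ≤ fd l 3 := by exact_mod_cast hcd
      rw [e1, abs_of_nonpos (by linarith)]
      linarith
    · have e1 : ((Nat.sub (fd l 1) (fd l 3) : ℕ) : ℝ) = fd l 1 - fd l 3 :=
        Nat.cast_sub hcd
      have e2 : (0 : ℝ) ≤ ((Nat.sub (fd l 3) (fd l 1) : ℕ) : ℝ) := Nat.cast_nonneg _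
      have e3 : (fd l 3 : ℝ) ≤ fd l 1 := by exact_mod_cast hcd
      rw [e1, abs_of_nonneg (by linarith)]
      linarith
  have hpi' : (im : ℝ) / 2 ^ 40 + ((e : ℝ) / 2 ^ 40 + 2 * (k / 2 ^ 40)) ≤ 3.14 := by
    have : ((Nat.add im (Nat.add e (Nat.mul 2 k)) : ℕ) : ℝ) ≤ (3452466511216 : ℕ) := by
      exact_mod_cast hpi
    simp only [cadd, cmul] at this
    push_cast at this
    have e1 : (im : ℝ) / 2 ^ 40 + ((e : ℝ) / 2 ^ 40 + 2 * (k / 2 ^ 40)) =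
        (im + (e + 2 * k)) / 2 ^ 40 := by ring
    rw [e1, div_le_iff₀ hK]
    refine this.trans ?_
    norm_num
  obtain ⟨hyc, hys⟩ := (good_iff y).1 hgy
  have hT := clean_tail hM.clean
  have hTv := vl_tail (ε := ε) hM.clean
  rw [← hc0] at hT hTv
  obtain ⟨hvy, hly⟩ := vl_mulX hε hT ha1
  rw [← hy0, hTv.1] at hvy
  rw [← hy0, hTv.2] at hly
  obtain ⟨hSc, -, hSv⟩ := vl_sqr1 hε hyc hys
  rw [← hS0] at hSc hSv
  have hsw := (clean_swap (by norm_num) hSc).1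
  have hadd := (clean_add hyc hsw (by norm_num)).1
  have hnr := (clean_nrm (by norm_num) hadd).1
  rw [← hw0] at hnr
  have hwv : vl w ε = vl y ε + -vl S ε := by
    rw [hw0, vl_nrm (by norm_num) hadd, vl_add hyc hsw (by norm_num), vl_swap (by norm_num) hSc]
  have hvw : ‖vl w ε - (vl y ε - linv y ε ^ 2 / 2)‖ ≤ 26 / 2 ^ 40 := by
    have e : vl w ε - (vl y ε - linv y ε ^ 2 / 2) = -(vl S ε - linv y ε ^ 2 / 2) := by
      rw [hwv]; ring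
    rw [e, norm_neg]
    exact hSv
  have hX : vl (Nat.add l w) ε = bz l 0 + vl w ε := by
    rw [vl_add (clean_of_one hl1) hnr (by norm_num), vl_one hl1]
  have e2 : (2 : ℝ) / 2 ^ 40 = 2 * (1 / 2 ^ 40) := by ring
  have e14 : (14 : ℝ) / 2 ^ 40 = 14 * (1 / 2 ^ 40) := by ring
  have e26 : (26 : ℝ) / 2 ^ 40 = 26 * (1 / 2 ^ 40) := by ring
  have e42 : (42 : ℝ) / 2 ^ 40 = 42 * (1 / 2 ^ 40) := by ring
  rw [e2] at han
  rw [e14] at hly
  rw [e26] at hvw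
  rw [e42] at hvy
  have key := log_core (ι := 1 / 2 ^ 40) (by positivity) (by norm_num) hcne han haU hcU hL hρ hκ hs
    hUD hk2 hvy hly hvw hX hL0 hl him hpi'
  rw [← hz] at key
  refine ⟨key.1, ?_⟩
  have hdef : x.log = mdl (Nat.add l w)
      (Nat.add
        (Nat.add (Nat.add e (Nat.shiftRight (Nat.mul 4 x.D) 40))
          (Nat.shiftRight (Nat.mul U (Nat.add (Nat.shiftLeft x.r 81)
            (Nat.mul U (Nat.sub (Nat.mul x.D x.D) (Nat.mul x.G x.G))))) 121))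
        (Nat.add (Nat.div (Nat.mul k (Nat.mul k k))
            (Nat.mul 3 (Nat.shiftLeft (Nat.sub 1099511627776 k) 40))) 400))
      true := by
    rw [hw0, hS0, hy0, hk0, hU, he0, hl0, ha0, hc0]
    exact bif_eq hb
  rw [hdef]
  refine mem_mdl fun _ _ _ => ?_
  refine key.2.trans ?_
  have hG2 : ((Nat.mul x.G x.G : ℕ) : ℝ) ≤ ((Nat.mul x.D x.D : ℕ) : ℝ) := by
    rw [cmul, cmul]
    have : (0 : ℝ) ≤ x.G := Nat.cast_nonneg _
    exact mul_le_mul hGD hGD this (this.trans hGD)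
  have s1 := shr_le (Nat.mul 4 x.D) 40
  have s2 := shr_le (Nat.mul U (Nat.add (Nat.shiftLeft x.r 81)
            (Nat.mul U (Nat.sub (Nat.mul x.D x.D) (Nat.mul x.G x.G))))) 121
  have hkK : (k : ℝ) ≤ 2 ^ 40 / 2 := by
    rw [div_le_iff₀ (by positivity)] at hk2
    linarith
  have hkK' : (k : ℝ) ≤ (1099511627776 : ℕ) := by
    refine hkK.trans ?_
    norm_num
  have hden : ((Nat.mul 3 (Nat.shiftLeft (Nat.sub 1099511627776 k) 40) : ℕ) : ℝ) =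
      3 * ((2 ^ 40 - (k : ℝ)) * 2 ^ 40) := by
    rw [cmul, cshl, csub hkK']
    norm_num
  have hKk : (0 : ℝ) < 2 ^ 40 - k := by
    have : (0 : ℝ) < 2 ^ 40 / 2 := by positivity
    linarith
  have hdpos : 0 < Nat.mul 3 (Nat.shiftLeft (Nat.sub 1099511627776 k) 40) := by
    have : (0 : ℝ) < ((Nat.mul 3 (Nat.shiftLeft (Nat.sub 1099511627776 k) 40) : ℕ) : ℝ) := by
      rw [hden]
      positivity
    exact_mod_cast this
  have s3 := div_le_nat (Nat.mul k (Nat.mul k k)) _ hdpos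
  rw [hden] at s3
  rw [cmul] at s1
  rw [cmul, cadd, cshl, cmul, csub hG2, cmul, cmul] at s2
  rw [cmul, cmul] at s3
  rw [cadd, cadd, cadd, cadd]
  have f1 : (U : ℝ) / 2 ^ 40 * (x.r / 2 ^ 40) +
      ((U : ℝ) / 2 ^ 40) ^ 2 * ((x.D / 2 ^ 40) ^ 2 - (x.G / 2 ^ 40) ^ 2) / 2 =
      ((U : ℝ) * (x.r * 2 ^ 81 + U * (x.D * x.D - x.G * x.G)) / 2 ^ 121) / 2 ^ 40 := by
    ring
  have f2 : ((k : ℝ) / 2 ^ 40) ^ 3 / (3 * (1 - k / 2 ^ 40)) =
      ((k : ℝ) * (k * k) / (3 * ((2 ^ 40 - k) * 2 ^ 40))) / 2 ^ 40 := by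
    have h1 : (1 - (k : ℝ) / 2 ^ 40) = (2 ^ 40 - k) / 2 ^ 40 := by
      field_simp
    rw [h1]
    have h2 : (2 ^ 40 - (k : ℝ)) ≠ 0 := hKk.ne'
    field_simp
  have f3 : (3 : ℝ) * ((x.D : ℝ) / 2 ^ 40 * (1 / 2 ^ 40)) ≤
      (((4 : ℕ) : ℝ) * x.D / 2 ^ 40) / 2 ^ 40 := by
    have hD0 : (0 : ℝ) ≤ x.D := Nat.cast_nonneg _
    have e : (3 : ℝ) * ((x.D : ℝ) / 2 ^ 40 * (1 / 2 ^ 40)) = (3 * x.D / 2 ^ 40) / 2 ^ 40 := by ring
    rw [e]
    refine div_le_div_of_nonneg_right (div_le_div_of_nonneg_right ?_ (by positivity))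
      (by positivity)
    push_cast
    linarith
  rw [f1, f2]
  have g1 := div_le_div_of_nonneg_right s1 (by positivity : (0 : ℝ) ≤ 2 ^ 40)
  have g2 := div_le_div_of_nonneg_right s2 (by positivity : (0 : ℝ) ≤ 2 ^ 40)
  have g3 := div_le_div_of_nonneg_right s3 (by positivity : (0 : ℝ) ≤ 2 ^ 40)
  refine (add_le_add (add_le_add (add_le_add (add_le_add le_rfl (f3.trans g1)) le_rfl) g2) g3).trans
    ?_
  rw [mul_one_div, ← add_div, ← add_div, ← add_div, ← add_div]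
  refine div_le_div_of_nonneg_right ?_ (by positivity)
  push_cast
  linarith

end Pool.Agent.helper82.QB
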