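import Pool.Agent.helper82.QB.Blk
import Pool.Agent.helper31.IA.Run

/-!
# QB-4: packed second order models, ring operations

The model `x` has the centre `bz x.X 0`, the linear part `linv` and the quadratic part `quadv`.
Each product loses at most `2` units per block, at most `27` blocks, so `54` units; floors cost one
unit each.
-/

namespace Pool.Agent.helper82.QB

open Complex
open Pool.Agent.helper31.IA (Z Small get RealL)
open Pool.Agent.helper31.IB (fd m512 m1024 m128 One bz mg ofZ)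

/-- the noise symbol of the block `j + 7` -/
noncomputable def m1 (ε : List ℂ) (j : Nat) : ℂ :=
  if j = 0 then get ε 0 else if j = 1 then get ε 1 else if j = 4 then get ε 2 else
    if j = 6 then get ε 3 else 0

/-- the monomial of the block `j + 14` -/
noncomputable def m2 (ε : List ℂ) (j : Nat) : ℂ :=
  if j = 0 then get ε 0 * get ε 0 else if j = 1 then get ε 0 * get ε 1 else
  if j = 2 then get ε 1 * get ε 1 else if j = 4 then get ε 0 * get ε 2 else
  if j = 5 then get ε 1 * get ε 2 else if j = 6 then get ε 0 * get ε 3 else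
  if j = 7 then get ε 1 * get ε 3 else if j = 8 then get ε 2 * get ε 2 else
  if j = 10 then get ε 2 * get ε 3 else if j = 12 then get ε 3 * get ε 3 else 0

noncomputable def linv (X : Nat) (ε : List ℂ) : ℂ := ∑ j ∈ Finset.range 7, bz X (j + 7) * m1 ε j

noncomputable def quadv (X : Nat) (ε : List ℂ) : ℂ := ∑ j ∈ Finset.range 13, bz X (j + 14) * m2 ε j

structure MemC (ε : List ℂ) (x : A) (z : ℂ) : Prop where
  clean : Clean (2 ^ 61) x.X
  sparse : Sparse x.X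
  linb : (∑ j ∈ Finset.range 7, ‖bz x.X (j + 7)‖) * 2 ^ 40 ≤ (x.G : ℝ)
  dev : (x.G : ℝ) + (∑ j ∈ Finset.range 13, ‖bz x.X (j + 14)‖) * 2 ^ 40 + x.r ≤ (x.D : ℝ)
  mem : ‖z - (bz x.X 0 + (linv x.X ε + quadv x.X ε))‖ ≤ (x.r : ℝ) / 2 ^ 40

def Mem (ε : List ℂ) (x : A) (z : ℂ) : Prop := x.ok = true → MemC ε x z

theorem get_small {ε : List ℂ} (hε : Small ε) (i : Nat) : ‖get ε i‖ ≤ 1 := by
  induction ε generalizing i with
  | nil =>
    show ‖(0 : ℂ)‖ ≤ 1
    simp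
  | cons a t ih =>
    cases i with
    | zero => exact hε a (List.mem_cons_self ..)
    | succ n => exact ih (fun z hz => hε z (List.mem_cons_of_mem _ hz)) n

theorem m1_small {ε : List ℂ} (hε : Small ε) (j : Nat) : ‖m1 ε j‖ ≤ 1 := by
  unfold m1
  split_ifs
  · exact get_small hε _
  · exact get_small hε _
  · exact get_small hε _
  · exact get_small hε _
  · simp

theorem m2_small {ε : List ℂ} (hε : Small ε) (j : Nat) : ‖m2 ε j‖ ≤ 1 := by
  have h : ∀ a b : Nat, ‖get ε a * get ε b‖ ≤ 1 := by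
    intro a b
    rw [norm_mul]
    exact mul_le_one₀ (get_small hε a) (norm_nonneg _) (get_small hε b)
  unfold m2
  split_ifs
  all_goals first
    | exact h _ _
    | simp

/-- `mono a * mono b = mono (a + b)`: the product of two linear parts is a quadratic part -/
theorem linv_mul {X Y : Nat} (hX : Sparse X) (hY : Sparse Y) (ε : List ℂ) :
    linv X ε * linv Y ε = ∑ j ∈ Finset.range 13, lprod X Y j * m2 ε j := by
  have e1 : linv X ε * linv Y ε = ∑ a ∈ Finset.range 7, ∑ b ∈ Finset.range 7,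
      bz X (a + 7) * bz Y (b + 7) * (m1 ε a * m1 ε b) := by
    unfold linv
    rw [Finset.sum_mul_sum]
    refine Finset.sum_congr rfl fun a _ => Finset.sum_congr rfl fun b _ => ?_
    ring
  have e2 : ∑ j ∈ Finset.range 13, lprod X Y j * m2 ε j = ∑ a ∈ Finset.range 7,
      ∑ b ∈ Finset.range 7, bz X (a + 7) * bz Y (b + 7) * m2 ε (a + b) := by
    have e3 : ∀ j, lprod X Y j * m2 ε j = ∑ a ∈ Finset.range 7, ∑ b ∈ Finset.range 7,
        if a + b = j then bz X (a + 7) * bz Y (b + 7) * m2 ε (a + b) else 0 := by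
      intro j
      unfold lprod
      rw [Finset.sum_mul]
      refine Finset.sum_congr rfl fun a _ => ?_
      rw [Finset.sum_mul]
      refine Finset.sum_congr rfl fun b _ => ?_
      split_ifs with h
      · rw [h]
      · rw [zero_mul]
    rw [Finset.sum_congr rfl fun j _ => e3 j, Finset.sum_comm]
    refine Finset.sum_congr rfl fun a ha => ?_
    rw [Finset.sum_comm]
    refine Finset.sum_congr rfl fun b hb => ?_
    rw [Finset.sum_ite_eq, if_pos]
    rw [Finset.mem_range] at *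
    omega
  rw [e1, e2]
  refine Finset.sum_congr rfl fun a ha => Finset.sum_congr rfl fun b hb => ?_
  rw [Finset.mem_range] at ha hb
  have hX0 : allowed (a + 7) = false → bz X (a + 7) = 0 := fun h => bz_sparse hX h
  have hY0 : allowed (b + 7) = false → bz Y (b + 7) = 0 := fun h => bz_sparse hY h
  interval_cases a
  all_goals first
    | rw [hX0 rfl, zero_mul, zero_mul, zero_mul]
    | (interval_cases b
       all_goals first
         | rw [hY0 rfl, mul_zero, zero_mul, zero_mul]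
         | (congr 1 <;> simp [m1, m2, mul_comm]))

private theorem norm_linv {ε : List ℂ} (hε : Small ε) (X : Nat) :
    ‖linv X ε‖ ≤ ∑ j ∈ Finset.range 7, ‖bz X (j + 7)‖ := by
  unfold linv
  refine (norm_sum_le _ _).trans (Finset.sum_le_sum fun j _ => ?_)
  rw [norm_mul]
  exact mul_le_of_le_one_right (norm_nonneg _) (m1_small hε j)

private theorem norm_quadv {ε : List ℂ} (hε : Small ε) (X : Nat) :
    ‖quadv X ε‖ ≤ ∑ j ∈ Finset.range 13, ‖bz X (j + 14)‖ := by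
  unfold quadv
  refine (norm_sum_le _ _).trans (Finset.sum_le_sum fun j _ => ?_)
  rw [norm_mul]
  exact mul_le_of_le_one_right (norm_nonneg _) (m2_small hε j)

private theorem linv_approx {ε : List ℂ} (hε : Small ε) {X : Nat} {f : Nat → ℂ}
    (h : ∀ j, 1 ≤ j → ‖bz X j - f j‖ ≤ 2 / 2 ^ 40) :
    ‖linv X ε - ∑ j ∈ Finset.range 7, f (j + 7) * m1 ε j‖ ≤ 14 / 2 ^ 40 := by
  unfold linv
  rw [← Finset.sum_sub_distrib]
  have h1 : ∀ j ∈ Finset.range 7, ‖bz X (j + 7) * m1 ε j - f (j + 7) * m1 ε j‖ ≤ 2 / 2 ^ 40 := by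
    intro j _
    rw [← sub_mul, norm_mul]
    exact (mul_le_of_le_one_right (norm_nonneg _) (m1_small hε j)).trans (h _ (by omega))
  refine (norm_sum_le_of_le _ h1).trans (le_of_eq ?_)
  rw [Finset.sum_const, Finset.card_range, nsmul_eq_mul]
  norm_num

private theorem quadv_approx {ε : List ℂ} (hε : Small ε) {X : Nat} {f : Nat → ℂ}
    (h : ∀ j, 1 ≤ j → ‖bz X j - f j‖ ≤ 2 / 2 ^ 40) :
    ‖quadv X ε - ∑ j ∈ Finset.range 13, f (j + 14) * m2 ε j‖ ≤ 26 / 2 ^ 40 := by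
  unfold quadv
  rw [← Finset.sum_sub_distrib]
  have h1 : ∀ j ∈ Finset.range 13, ‖bz X (j + 14) * m2 ε j - f (j + 14) * m2 ε j‖ ≤ 2 / 2 ^ 40 := by
    intro j _
    rw [← sub_mul, norm_mul]
    exact (mul_le_of_le_one_right (norm_nonneg _) (m2_small hε j)).trans (h _ (by omega))
  refine (norm_sum_le_of_le _ h1).trans (le_of_eq ?_)
  rw [Finset.sum_const, Finset.card_range, nsmul_eq_mul]
  norm_num

private theorem linv_add {ε : List ℂ} {X Y V : Nat} (h : ∀ j, bz V j = bz X j + bz Y j) :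
    linv V ε = linv X ε + linv Y ε := by
  unfold linv
  rw [← Finset.sum_add_distrib]
  exact Finset.sum_congr rfl fun j _ => by rw [h]; ring

private theorem quadv_add {ε : List ℂ} {X Y V : Nat} (h : ∀ j, bz V j = bz X j + bz Y j) :
    quadv V ε = quadv X ε + quadv Y ε := by
  unfold quadv
  rw [← Finset.sum_add_distrib]
  exact Finset.sum_congr rfl fun j _ => by rw [h]; ring

private theorem linv_neg {ε : List ℂ} {X V : Nat} (h : ∀ j, bz V j = -bz X j) :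
    linv V ε = -linv X ε := by
  unfold linv
  rw [← Finset.sum_neg_distrib]
  exact Finset.sum_congr rfl fun j _ => by rw [h]; ring

private theorem quadv_neg {ε : List ℂ} {X V : Nat} (h : ∀ j, bz V j = -bz X j) :
    quadv V ε = -quadv X ε := by
  unfold quadv
  rw [← Finset.sum_neg_distrib]
  exact Finset.sum_congr rfl fun j _ => by rw [h]; ring

private theorem shr40 (N : Nat) : (N : ℝ) / 2 ^ 40 ≤ ((Nat.shiftRight N 40 : Nat) : ℝ) + 1 := by
  have h1 : Nat.shiftRight N 40 = N / 2 ^ 40 := Nat.shiftRight_eq_div_pow N 40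
  rw [h1, div_le_iff₀ (by positivity)]
  have h2 : N < (N / 2 ^ 40 + 1) * 2 ^ 40 := by
    have h3 := Nat.div_add_mod N (2 ^ 40)
    have h4 := Nat.mod_lt N (show 0 < 2 ^ 40 by norm_num)
    omega
  have h3 : (N : ℝ) < ((N / 2 ^ 40 + 1) * 2 ^ 40 : Nat) := by exact_mod_cast h2
  push_cast at h3 ⊢
  linarith

private theorem mdl_ok_aux {X r : Nat} {b : Bool} (h : (mdl X r b).ok = true) :
    b = true ∧ Clean (2 ^ 61) X ∧ Sparse X ∧ r ≤ 2 ^ 62 := by
  have h1 : (b && good X && Nat.ble r 4611686018427387904) = true := h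
  rw [Bool.and_eq_true, Bool.and_eq_true] at h1
  have h2 := (good_iff X).1 h1.1.2
  refine ⟨h1.1.1, h2.1, h2.2, ?_⟩
  have h3 := Nat.le_of_ble_eq_true h1.2
  exact h3

private theorem bz_re (X j : Nat) : (bz X j).re = ((fd X (8 * j) : ℝ) - fd X (8 * j + 2)) / 2 ^ 40 := by
  unfold Pool.Agent.helper31.IB.bz
  rw [Complex.add_re, Complex.mul_re, Complex.ofReal_re, Complex.ofReal_im, Complex.I_re]
  simp

private theorem bz_im (X j : Nat) :
    (bz X j).im = ((fd X (8 * j + 1) : ℝ) - fd X (8 * j + 3)) / 2 ^ 40 := by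
  unfold Pool.Agent.helper31.IB.bz
  rw [Complex.add_im, Complex.mul_im, Complex.ofReal_re, Complex.ofReal_im, Complex.I_re,
    Complex.I_im]
  simp

private theorem ofZ_spec {z : Z} (h : Nat.ble (Nat.add (Nat.add z.a z.b) (Nat.add z.c z.d))
    4611686018427387903 = true) : One (2 ^ 62) (ofZ z) ∧ bz (ofZ z) 0 = z.val := by
  have h1 : z.a + z.b + (z.c + z.d) ≤ 4611686018427387903 := Nat.le_of_ble_eq_true h
  have h2 := Pool.Agent.helper31.IB.pack_spec (n := 2 ^ 62) (a := z.a) (b := z.b) (c := z.c)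
    (d := z.d) (by norm_num) (by omega) (by omega) (by omega) (by omega)
  have h3 := Pool.Agent.helper31.IB.one_nrm (by norm_num) h2.1
  exact ⟨h3.1, h3.2.trans h2.2.1⟩

/-- the estimate in `Mem.mul` -/
private theorem mul_core {ε : List ℂ} (hε : Small ε) {x y : A} {u v ρ1 ρ2 : ℂ}
    (sx : Sparse x.X) (sy : Sparse y.X)
    (hc0 : ‖bz (core x.X y.X) 0 - bz x.X 0 * bz y.X 0‖ ≤ 2 / 2 ^ 40)
    (hcj : ∀ j, 1 ≤ j → ‖bz (core x.X y.X) j - (bz x.X j * bz y.X 0 + bz y.X j * bz x.X 0 +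
        if 14 ≤ j then lprod x.X y.X (j - 14) else 0)‖ ≤ 2 / 2 ^ 40)
    (hu : u = bz x.X 0 + (linv x.X ε + (quadv x.X ε + ρ1)))
    (hv : v = bz y.X 0 + (linv y.X ε + (quadv y.X ε + ρ2)))
    (hρ1 : ‖ρ1‖ ≤ (x.r : ℝ) / 2 ^ 40) (hρ2 : ‖ρ2‖ ≤ (y.r : ℝ) / 2 ^ 40)
    (hl1 : ‖linv x.X ε‖ ≤ (x.G : ℝ) / 2 ^ 40) (hl2 : ‖linv y.X ε‖ ≤ (y.G : ℝ) / 2 ^ 40)
    (hk1 : ‖quadv x.X ε + ρ1‖ ≤ ((x.D : ℝ) - x.G) / 2 ^ 40)
    (hk2 : ‖quadv y.X ε + ρ2‖ ≤ ((y.D : ℝ) - y.G) / 2 ^ 40)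
    (hG1 : (x.G : ℝ) ≤ x.D) (hG2 : (y.G : ℝ) ≤ y.D)
    (hm1 : ‖bz x.X 0‖ ≤ (mg (Nat.land x.X m512) : ℝ) / 2 ^ 40)
    (hm2 : ‖bz y.X 0‖ ≤ (mg (Nat.land y.X m512) : ℝ) / 2 ^ 40) :
    ‖u * v - (bz (core x.X y.X) 0 + (linv (core x.X y.X) ε + quadv (core x.X y.X) ε))‖ ≤
      ((Nat.add (Nat.shiftRight
       (Nat.add (Nat.add (Nat.mul (mg (Nat.land x.X m512)) y.r)
         (Nat.mul (mg (Nat.land y.X m512)) x.r))
         (Nat.sub (Nat.mul x.D y.D) (Nat.mul x.G y.G))) 40) 60 : Nat) : ℝ) / 2 ^ 40 := by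
  set f : Nat → ℂ := fun j => bz x.X j * bz y.X 0 + bz y.X j * bz x.X 0 +
        if 14 ≤ j then lprod x.X y.X (j - 14) else 0 with hf
  set Z0 := core x.X y.X with hZ0
  set c1 := bz x.X 0 with hc1
  set c2 := bz y.X 0 with hc2
  have hL := linv_approx hε (X := Z0) (f := f) hcj
  have hQ := quadv_approx hε (X := Z0) (f := f) hcj
  have eL : ∑ j ∈ Finset.range 7, f (j + 7) * m1 ε j = linv x.X ε * c2 + linv y.X ε * c1 := by
    unfold linv
    rw [Finset.sum_mul, Finset.sum_mul, ← Finset.sum_add_distrib]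
    refine Finset.sum_congr rfl fun j hj => ?_
    rw [Finset.mem_range] at hj
    rw [hf]
    simp only
    rw [if_neg (by omega)]
    ring
  have eQ : ∑ j ∈ Finset.range 13, f (j + 14) * m2 ε j = quadv x.X ε * c2 + quadv y.X ε * c1 +
      linv x.X ε * linv y.X ε := by
    rw [linv_mul sx sy]
    unfold quadv
    rw [Finset.sum_mul, Finset.sum_mul, ← Finset.sum_add_distrib, ← Finset.sum_add_distrib]
    refine Finset.sum_congr rfl fun j hj => ?_
    rw [hf]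
    simp only
    rw [if_pos (by omega), Nat.add_sub_cancel]
    ring
  rw [eL] at hL
  rw [eQ] at hQ
  set L1 := linv x.X ε with hL1
  set L2 := linv y.X ε with hL2
  set K1 := quadv x.X ε with hK1
  set K2 := quadv y.X ε with hK2
  have e : u * v - (bz Z0 0 + (linv Z0 ε + quadv Z0 ε)) =
      (c1 * ρ2 + c2 * ρ1) + (L1 * (K2 + ρ2) + (K1 + ρ1) * L2 + (K1 + ρ1) * (K2 + ρ2)) -
      (bz Z0 0 - c1 * c2) - (linv Z0 ε - (L1 * c2 + L2 * c1)) -
      (quadv Z0 ε - (K1 * c2 + K2 * c1 + L1 * L2)) := by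
    rw [hu, hv]
    ring
  rw [e]
  have p1 : ‖c1 * ρ2‖ ≤ (mg (Nat.land x.X m512) : ℝ) / 2 ^ 40 * ((y.r : ℝ) / 2 ^ 40) := by
    rw [norm_mul]
    exact mul_le_mul hm1 hρ2 (norm_nonneg _) (by positivity)
  have p2 : ‖c2 * ρ1‖ ≤ (mg (Nat.land y.X m512) : ℝ) / 2 ^ 40 * ((x.r : ℝ) / 2 ^ 40) := by
    rw [norm_mul]
    exact mul_le_mul hm2 hρ1 (norm_nonneg _) (by positivity)
  have hxg : (0 : ℝ) ≤ x.G := Nat.cast_nonneg _
  have hyg : (0 : ℝ) ≤ y.G := Nat.cast_nonneg _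
  have q1 : (0 : ℝ) ≤ ((x.D : ℝ) - x.G) / 2 ^ 40 := (norm_nonneg _).trans hk1
  have q2 : (0 : ℝ) ≤ ((y.D : ℝ) - y.G) / 2 ^ 40 := (norm_nonneg _).trans hk2
  have p3 : ‖L1 * (K2 + ρ2)‖ ≤ (x.G : ℝ) / 2 ^ 40 * (((y.D : ℝ) - y.G) / 2 ^ 40) := by
    rw [norm_mul]
    exact mul_le_mul hl1 hk2 (norm_nonneg _) (by positivity)
  have p4 : ‖(K1 + ρ1) * L2‖ ≤ ((x.D : ℝ) - x.G) / 2 ^ 40 * ((y.G : ℝ) / 2 ^ 40) := by
    rw [norm_mul]
    exact mul_le_mul hk1 hl2 (norm_nonneg _) q1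
  have p5 : ‖(K1 + ρ1) * (K2 + ρ2)‖ ≤ ((x.D : ℝ) - x.G) / 2 ^ 40 * (((y.D : ℝ) - y.G) / 2 ^ 40) := by
    rw [norm_mul]
    exact mul_le_mul hk1 hk2 (norm_nonneg _) q1
  have n1 := norm_sub_le ((c1 * ρ2 + c2 * ρ1) + (L1 * (K2 + ρ2) + (K1 + ρ1) * L2 +
      (K1 + ρ1) * (K2 + ρ2)) - (bz Z0 0 - c1 * c2) - (linv Z0 ε - (L1 * c2 + L2 * c1)))
      (quadv Z0 ε - (K1 * c2 + K2 * c1 + L1 * L2))
  have n2 := norm_sub_le ((c1 * ρ2 + c2 * ρ1) + (L1 * (K2 + ρ2) + (K1 + ρ1) * L2 +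
      (K1 + ρ1) * (K2 + ρ2)) - (bz Z0 0 - c1 * c2)) (linv Z0 ε - (L1 * c2 + L2 * c1))
  have n3 := norm_sub_le ((c1 * ρ2 + c2 * ρ1) + (L1 * (K2 + ρ2) + (K1 + ρ1) * L2 +
      (K1 + ρ1) * (K2 + ρ2))) (bz Z0 0 - c1 * c2)
  have n4 := norm_add_le (c1 * ρ2 + c2 * ρ1) (L1 * (K2 + ρ2) + (K1 + ρ1) * L2 +
      (K1 + ρ1) * (K2 + ρ2))
  have n5 := norm_add_le (c1 * ρ2) (c2 * ρ1)
  have n6 := norm_add_le (L1 * (K2 + ρ2) + (K1 + ρ1) * L2) ((K1 + ρ1) * (K2 + ρ2))
  have n7 := norm_add_le (L1 * (K2 + ρ2)) ((K1 + ρ1) * L2)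
  set N : Nat := Nat.add (Nat.add (Nat.mul (mg (Nat.land x.X m512)) y.r)
         (Nat.mul (mg (Nat.land y.X m512)) x.r))
         (Nat.sub (Nat.mul x.D y.D) (Nat.mul x.G y.G)) with hN
  have hNr : (N : ℝ) = (mg (Nat.land x.X m512) : ℝ) * y.r + (mg (Nat.land y.X m512) : ℝ) * x.r +
      ((x.D : ℝ) * y.D - (x.G : ℝ) * y.G) := by
    have h1 : x.G * y.G ≤ x.D * y.D := by
      have a1 : x.G ≤ x.D := by exact_mod_cast hG1
      have a2 : y.G ≤ y.D := by exact_mod_cast hG2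
      exact Nat.mul_le_mul a1 a2
    have h2 : N = mg (Nat.land x.X m512) * y.r + mg (Nat.land y.X m512) * x.r +
      (x.D * y.D - x.G * y.G) := rfl
    rw [h2]
    push_cast [Nat.cast_sub h1]
    ring
  have h40 := shr40 N
  have e3 : ((Nat.add (Nat.shiftRight N 40) 60 : Nat) : ℝ) = (Nat.shiftRight N 40 : ℝ) + 60 := by
    rw [Nat.add_eq]
    push_cast
    ring
  rw [e3]
  have e5 : (N : ℝ) / 2 ^ 40 / 2 ^ 40 ≤ ((Nat.shiftRight N 40 : ℝ) + 1) / 2 ^ 40 :=
    div_le_div_of_nonneg_right h40 (by positivity)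
  have e6 : ((Nat.shiftRight N 40 : ℝ) + 60) / 2 ^ 40 =
      ((Nat.shiftRight N 40 : ℝ) + 1) / 2 ^ 40 + 59 / 2 ^ 40 := by ring
  have e7 : (mg (Nat.land x.X m512) : ℝ) / 2 ^ 40 * ((y.r : ℝ) / 2 ^ 40) +
      (mg (Nat.land y.X m512) : ℝ) / 2 ^ 40 * ((x.r : ℝ) / 2 ^ 40) +
      ((x.G : ℝ) / 2 ^ 40 * (((y.D : ℝ) - y.G) / 2 ^ 40) +
        ((x.D : ℝ) - x.G) / 2 ^ 40 * ((y.G : ℝ) / 2 ^ 40) +
        ((x.D : ℝ) - x.G) / 2 ^ 40 * (((y.D : ℝ) - y.G) / 2 ^ 40)) = (N : ℝ) / 2 ^ 40 / 2 ^ 40 := by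
    rw [hNr]
    ring
  rw [e6]
  have e8 : (59 : ℝ) / 2 ^ 40 = 2 / 2 ^ 40 + 14 / 2 ^ 40 + 26 / 2 ^ 40 + 17 / 2 ^ 40 := by ring
  have e9 : (0 : ℝ) ≤ 17 / 2 ^ 40 := by positivity
  rw [e8]
  linarith

/-- the monomial of the block `b` -/
private noncomputable def mono (ε : List ℂ) (b : Nat) : ℂ :=
  if b < 14 then m1 ε (b - 7) else m2 ε (b - 14)

private theorem lin_quad_sum (X : Nat) (ε : List ℂ) : linv X ε + quadv X ε =
    ∑ b ∈ Finset.range 20, bz X (b + 7) * mono ε (b + 7) := by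
  have h := Finset.sum_range_add (fun b => bz X (b + 7) * mono ε (b + 7)) 7 13
  refine Eq.trans ?_ h.symm
  unfold linv quadv
  refine congrArg₂ (· + ·) ?_ ?_
  · refine Finset.sum_congr rfl fun j hj => ?_
    rw [Finset.mem_range] at hj
    unfold mono
    rw [if_pos (by omega), Nat.add_sub_cancel]
  · refine Finset.sum_congr rfl fun j hj => ?_
    unfold mono
    have e : 7 + j + 7 = j + 14 := by omega
    simp only [e]
    rw [if_neg (by omega), Nat.add_sub_cancel]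

private theorem mono_small {ε : List ℂ} (hε : Small ε) (b : Nat) : ‖mono ε b‖ ≤ 1 := by
  unfold mono
  split_ifs
  · exact m1_small hε _
  · exact m2_small hε _

private theorem mul_im0 {a b : ℂ} (ha : a.im = 0) (hb : b.im = 0) : (a * b).im = 0 := by
  rw [Complex.mul_im, ha, hb]
  simp

private theorem mono_real {nr : Nat} {ε : List ℂ} (hr : RealL nr ε) (hnr : nr ≤ 4) {b : Nat}
    (hb : isR nr b = true) : (mono ε b).im = 0 := by
  have hmem : b ∈ rm nr := by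
    unfold isR at hb
    exact List.contains_iff_mem.1 hb
  interval_cases nr
  · simp [rm] at hmem
  · have h0 := hr 0 (by norm_num)
    simp only [rm, List.mem_cons, List.not_mem_nil, or_false] at hmem
    rcases hmem with rfl | rfl
    · simpa [mono, m1] using h0
    · simpa [mono, m2] using mul_im0 h0 h0
  · have h0 := hr 0 (by norm_num)
    have h1 := hr 1 (by norm_num)
    simp only [rm, List.mem_cons, List.not_mem_nil, or_false] at hmem
    rcases hmem with rfl | rfl | rfl | rfl | rfl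
    · simpa [mono, m1] using h0
    · simpa [mono, m1] using h1
    · simpa [mono, m2] using mul_im0 h0 h0
    · simpa [mono, m2] using mul_im0 h0 h1
    · simpa [mono, m2] using mul_im0 h1 h1
  · have h0 := hr 0 (by norm_num)
    have h1 := hr 1 (by norm_num)
    have h2 := hr 2 (by norm_num)
    simp only [rm, List.mem_cons, List.not_mem_nil, or_false] at hmem
    rcases hmem with rfl | rfl | rfl | rfl | rfl | rfl | rfl | rfl | rfl
    · simpa [mono, m1] using h0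
    · simpa [mono, m1] using h1
    · simpa [mono, m1] using h2
    · simpa [mono, m2] using mul_im0 h0 h0
    · simpa [mono, m2] using mul_im0 h0 h1
    · simpa [mono, m2] using mul_im0 h1 h1
    · simpa [mono, m2] using mul_im0 h0 h2
    · simpa [mono, m2] using mul_im0 h1 h2
    · simpa [mono, m2] using mul_im0 h2 h2
  · have h0 := hr 0 (by norm_num)
    have h1 := hr 1 (by norm_num)
    have h2 := hr 2 (by norm_num)
    have h3 := hr 3 (by norm_num)
    simp only [rm, List.mem_cons, List.not_mem_nil, or_false] at hmem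
    rcases hmem with rfl | rfl | rfl | rfl | rfl | rfl | rfl | rfl | rfl | rfl | rfl | rfl | rfl | rfl
    · simpa [mono, m1] using h0
    · simpa [mono, m1] using h1
    · simpa [mono, m1] using h2
    · simpa [mono, m1] using h3
    · simpa [mono, m2] using mul_im0 h0 h0
    · simpa [mono, m2] using mul_im0 h0 h1
    · simpa [mono, m2] using mul_im0 h1 h1
    · simpa [mono, m2] using mul_im0 h0 h2
    · simpa [mono, m2] using mul_im0 h1 h2
    · simpa [mono, m2] using mul_im0 h0 h3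
    · simpa [mono, m2] using mul_im0 h1 h3
    · simpa [mono, m2] using mul_im0 h2 h2
    · simpa [mono, m2] using mul_im0 h2 h3
    · simpa [mono, m2] using mul_im0 h3 h3

private theorem land_full {a : Nat} (h : a < 2 ^ 128) : Nat.land a (2 ^ 128 - 1) = a := by
  have e : Nat.land a (2 ^ 128 - 1) = a &&& (2 ^ 128 - 1) := rfl
  rw [e, Nat.and_two_pow_sub_one_eq_mod, Nat.mod_eq_of_lt h]

private theorem land_zero (a : Nat) : Nat.land a 0 = 0 := Nat.and_zero a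

private theorem fd_rland {n : Nat} (hn : n ≤ 4) (X i : Nat) : fd (Nat.land X (rmask n)) i =
    if i % 8 < 4 ∧ isR n (i / 8) = true then fd X i else 0 := by
  rw [Pool.Agent.helper31.IB.fd_land, fd_rmask hn]
  split_ifs
  · exact land_full (Pool.Agent.helper31.IB.fd_lt X i)
  · exact land_zero _

private theorem fd_cland {n : Nat} (hn : n ≤ 4) (X i : Nat) : fd (Nat.land X (cmask n)) i =
    if i < 216 ∧ i % 8 < 4 ∧ 8 ≤ i ∧ isR n (i / 8) = false then fd X i else 0 := by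
  rw [Pool.Agent.helper31.IB.fd_land, fd_cmask hn]
  split_ifs
  · exact land_full (Pool.Agent.helper31.IB.fd_lt X i)
  · exact land_zero _

private theorem sum27 (f : Nat → ℝ) : ∑ j ∈ Finset.range 27, f j =
    ∑ j ∈ Finset.range 7, f j + ∑ b ∈ Finset.range 20, f (7 + b) :=
  Finset.sum_range_add f 7 20

private theorem re_bound_aux {nr : Nat} {ε : List ℂ} (hε : Small ε) (hr : RealL nr ε) (hnr : nr ≤ 4)
    {X P Q R1 R2 : Nat}
    (hP : ∀ i, fd P i = if i % 8 < 4 ∧ isR nr (i / 8) = true then fd X i else 0)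
    (hQ : ∀ i, fd Q i =
      if i < 216 ∧ i % 8 < 4 ∧ 8 ≤ i ∧ isR nr (i / 8) = false then fd X i else 0)
    (e1 : R1 = ∑ j ∈ Finset.range 27, (fd P (8 * j) + fd P (8 * j + 2)))
    (e2 : (∑ j ∈ Finset.range 27, ‖bz Q j‖) * 2 ^ 40 ≤ (R2 : ℝ)) :
    -(((R1 : ℝ) + (R2 : ℝ)) / 2 ^ 40) ≤ (linv X ε + quadv X ε).re := by
  have s1 : ∑ b ∈ Finset.range 20, (if isR nr (b + 7) = true then
      (fd X (8 * (b + 7)) : ℝ) + fd X (8 * (b + 7) + 2) else 0) ≤
      (R1 : ℝ) := by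
    rw [e1]
    push_cast
    rw [sum27]
    have h1 : ∀ b ∈ Finset.range 20, (if isR nr (b + 7) = true then
        (fd X (8 * (b + 7)) : ℝ) + fd X (8 * (b + 7) + 2) else 0) ≤
        (fd P (8 * (7 + b)) : ℝ) +
          (fd P (8 * (7 + b) + 2) : ℝ) := by
      intro b _
      have e : 7 + b = b + 7 := by omega
      rw [e, hP, hP]
      have a1 : 8 * (b + 7) / 8 = b + 7 := by omega
      have a2 : (8 * (b + 7) + 2) / 8 = b + 7 := by omega
      have a3 : 8 * (b + 7) % 8 < 4 := by omega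
      have a4 : (8 * (b + 7) + 2) % 8 < 4 := by omega
      rw [a1, a2]
      by_cases hb : isR nr (b + 7) = true
      · rw [if_pos hb, if_pos ⟨a3, hb⟩, if_pos ⟨a4, hb⟩]
      · rw [if_neg hb, if_neg (fun h => hb h.2), if_neg (fun h => hb h.2)]
        simp
    have h2 := Finset.sum_le_sum h1
    have h3 : (0 : ℝ) ≤ ∑ j ∈ Finset.range 7, ((fd P (8 * j) : ℝ) +
        (fd P (8 * j + 2) : ℝ)) :=
      Finset.sum_nonneg fun _ _ => add_nonneg (Nat.cast_nonneg _) (Nat.cast_nonneg _)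
    linarith
  have s2 : (∑ b ∈ Finset.range 20, (if isR nr (b + 7) = true then 0 else ‖bz X (b + 7)‖)) * 2 ^ 40 ≤
      (R2 : ℝ) := by
    refine le_trans (mul_le_mul_of_nonneg_right ?_ (by positivity)) e2
    rw [sum27]
    have h1 : ∀ b ∈ Finset.range 20, (if isR nr (b + 7) = true then 0 else ‖bz X (b + 7)‖) ≤
        ‖bz Q (7 + b)‖ := by
      intro b hb
      rw [Finset.mem_range] at hb
      by_cases hb2 : isR nr (b + 7) = true
      · rw [if_pos hb2]
        exact norm_nonneg _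
      · rw [if_neg hb2]
        have hb3 : isR nr (b + 7) = false := by
          cases h : isR nr (b + 7)
          · rfl
          · exact absurd h hb2
        have e : bz Q (7 + b) = bz X (b + 7) := by
          have e0 : 7 + b = b + 7 := by omega
          rw [e0]
          have g : ∀ m < 4, fd Q (8 * (b + 7) + m) = fd X (8 * (b + 7) + m) := by
            intro m hm
            rw [hQ, if_pos]
            refine ⟨by omega, by omega, by omega, ?_⟩
            have a1 : (8 * (b + 7) + m) / 8 = b + 7 := by omega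
            rw [a1]
            exact hb3
          have g0 := g 0 (by norm_num)
          have g1 := g 1 (by norm_num)
          have g2 := g 2 (by norm_num)
          have g3 := g 3 (by norm_num)
          rw [Nat.add_zero] at g0
          unfold Pool.Agent.helper31.IB.bz
          rw [g0, g1, g2, g3]
        rw [e]
    have h2 := Finset.sum_le_sum h1
    have h3 : (0 : ℝ) ≤ ∑ j ∈ Finset.range 7, ‖bz Q j‖ :=
      Finset.sum_nonneg fun _ _ => norm_nonneg _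
    linarith
  rw [lin_quad_sum, Complex.re_sum]
  have key : ∀ b ∈ Finset.range 20, -((if isR nr (b + 7) = true then
      (fd X (8 * (b + 7)) : ℝ) + fd X (8 * (b + 7) + 2) else 0) / 2 ^ 40 +
      (if isR nr (b + 7) = true then 0 else ‖bz X (b + 7)‖)) ≤
      (bz X (b + 7) * mono ε (b + 7)).re := by
    intro b _
    by_cases hb : isR nr (b + 7) = true
    · rw [if_pos hb, if_pos hb, add_zero, Complex.mul_re, mono_real hr hnr hb, mul_zero, sub_zero,
        bz_re]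
      have h1 : |(mono ε (b + 7)).re| ≤ 1 := (Complex.abs_re_le_norm _).trans (mono_small hε _)
      have h2 : |((fd X (8 * (b + 7)) : ℝ) - fd X (8 * (b + 7) + 2)) / 2 ^ 40| ≤
          ((fd X (8 * (b + 7)) : ℝ) + fd X (8 * (b + 7) + 2)) / 2 ^ 40 := by
        rw [abs_div, abs_of_pos (by positivity : (0 : ℝ) < 2 ^ 40)]
        apply div_le_div_of_nonneg_right _ (by positivity)
        have ha : (0 : ℝ) ≤ fd X (8 * (b + 7)) := Nat.cast_nonneg _
        have hb : (0 : ℝ) ≤ fd X (8 * (b + 7) + 2) := Nat.cast_nonneg _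
        rw [abs_le]
        constructor <;> linarith
      have h3 : |((fd X (8 * (b + 7)) : ℝ) - fd X (8 * (b + 7) + 2)) / 2 ^ 40 *
          (mono ε (b + 7)).re| ≤ ((fd X (8 * (b + 7)) : ℝ) + fd X (8 * (b + 7) + 2)) / 2 ^ 40 := by
        rw [abs_mul]
        exact (mul_le_of_le_one_right (abs_nonneg _) h1).trans h2
      exact (abs_le.1 h3).1
    · rw [if_neg hb, if_neg hb, zero_div, zero_add]
      have h1 : ‖bz X (b + 7) * mono ε (b + 7)‖ ≤ ‖bz X (b + 7)‖ := by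
        rw [norm_mul]
        exact mul_le_of_le_one_right (norm_nonneg _) (mono_small hε _)
      have h2 := (abs_le.1 (Complex.abs_re_le_norm (bz X (b + 7) * mono ε (b + 7)))).1
      linarith
  have h5 := Finset.sum_le_sum key
  rw [Finset.sum_neg_distrib, Finset.sum_add_distrib, ← Finset.sum_div] at h5
  refine le_trans ?_ h5
  rw [neg_le_neg_iff]
  have e9 : ((R1 : ℝ) + (R2 : ℝ)) / 2 ^ 40 =
      (R1 : ℝ) / 2 ^ 40 +
        (R2 : ℝ) / 2 ^ 40 := by ring
  rw [e9]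
  refine add_le_add (div_le_div_of_nonneg_right s1 (by positivity)) ?_
  rw [le_div_iff₀ (by positivity)]
  exact s2

private theorem re_bound {nr : Nat} {ε : List ℂ} (hε : Small ε) (hr : RealL nr ε) (hnr : nr ≤ 4)
    {X : Nat} (hX : Clean (2 ^ 61) X) (_hs : Sparse X) :
    -(((reSum (Nat.land X (rmask nr)) : ℝ) + (tot (rmag (Nat.land X (cmask nr))) : ℝ)) / 2 ^ 40) ≤
      (linv X ε + quadv X ε).re := by
  have hR : Clean (2 ^ 90) (Nat.land X (rmask nr)) := by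
    intro i
    rw [fd_rland hnr]
    have h1 := hX i
    split_ifs with h
    · exact ⟨lt_trans h1.1 (by norm_num), h1.2⟩
    · exact ⟨by norm_num, fun _ => rfl⟩
  have hC : Clean (2 ^ 90) (Nat.land X (cmask nr)) := by
    intro i
    rw [fd_cland hnr]
    have h1 := hX i
    split_ifs with h
    · exact ⟨lt_trans h1.1 (by norm_num), h1.2⟩
    · exact ⟨by norm_num, fun _ => rfl⟩
  have e1 := reSum_spec hR
  have e2 := tot_spec hC
  have hP : ∀ i, fd (Nat.land X (rmask nr)) i =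
    if i % 8 < 4 ∧ isR nr (i / 8) = true then fd X i else 0 := fun i => fd_rland hnr X i
  have hQ : ∀ i, fd (Nat.land X (cmask nr)) i =
    if i < 216 ∧ i % 8 < 4 ∧ 8 ≤ i ∧ isR nr (i / 8) = false then fd X i else 0 :=
    fun i => fd_cland hnr X i
  exact re_bound_aux hε hr hnr hP hQ e1 e2

private theorem var_lin {X j : Nat} (hj : j < 4) {ε : List ℂ} {c h : ℂ}
    (h2 : ∀ i, bz X i = if i = 0 then c else if i = pos j then h else 0) :
    linv X ε = h * get ε j ∧ quadv X ε = 0 := by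
  constructor
  · unfold linv
    simp only [Finset.sum_range_succ, Finset.sum_range_zero, h2]
    interval_cases j <;> simp [pos, m1]
  · unfold quadv
    refine Finset.sum_eq_zero fun k _ => ?_
    rw [h2, if_neg (by omega), if_neg, zero_mul]
    interval_cases j <;> simp [pos]

/-- `z = c + (lin + κ)`, `‖lin‖ ≤ G`, `‖κ‖ ≤ D - G` (units) with `κ = quad + ρ` -/
theorem MemC.split {ε : List ℂ} (hε : Small ε) {x : A} {z : ℂ} (h : MemC ε x z) :
    ∃ ρ : ℂ, z = bz x.X 0 + (linv x.X ε + (quadv x.X ε + ρ)) ∧ ‖ρ‖ ≤ (x.r : ℝ) / 2 ^ 40 ∧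
      ‖linv x.X ε‖ ≤ (x.G : ℝ) / 2 ^ 40 ∧
      ‖quadv x.X ε + ρ‖ ≤ ((x.D : ℝ) - x.G) / 2 ^ 40 ∧ (x.G : ℝ) ≤ x.D := by
  refine ⟨z - (bz x.X 0 + (linv x.X ε + quadv x.X ε)), by ring, h.mem, ?_, ?_, ?_⟩
  · rw [le_div_iff₀ (by positivity)]
    exact le_trans (mul_le_mul_of_nonneg_right (norm_linv hε _) (by positivity)) h.linb
  · have h1 := norm_add_le (quadv x.X ε) (z - (bz x.X 0 + (linv x.X ε + quadv x.X ε)))
    refine h1.trans ?_
    have h2 := h.mem
    have h3 := norm_quadv hε x.X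
    have h4 := h.dev
    rw [le_div_iff₀ (by positivity)] at h2 ⊢
    nlinarith
  · have h4 := h.dev
    have h5 : 0 ≤ ∑ j ∈ Finset.range 13, ‖bz x.X (j + 14)‖ :=
      Finset.sum_nonneg fun _ _ => norm_nonneg _
    have h6 : (0 : ℝ) ≤ x.r := Nat.cast_nonneg _
    nlinarith

/-- the constructor `mdl`: range, sparseness and the bounds `G`, `D` are automatic (`good_iff`,
`GD_spec` for `X >>> 1024`) -/
theorem mem_mdl {ε : List ℂ} {X r : Nat} {b : Bool} {z : ℂ}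
    (h : b = true → Clean (2 ^ 61) X → Sparse X →
      ‖z - (bz X 0 + (linv X ε + quadv X ε))‖ ≤ (r : ℝ) / 2 ^ 40) :
    Mem ε (mdl X r b) z := by
  intro hok
  obtain ⟨hb, hc, hs, hr⟩ := mdl_ok_aux hok
  have hS : Clean (2 ^ 90) (Nat.shiftRight X 1024) :=
    clean_mono (clean_shr hc 1) (by norm_num)
  have hbz : ∀ j, bz (Nat.shiftRight X 1024) j = bz X (j + 1) := fun j => bz_shr X 1 j
  obtain ⟨g1, g2⟩ := GD_spec hS
  refine ⟨hc, hs, ?_, ?_, h hb hc hs⟩
  · refine le_trans (mul_le_mul_of_nonneg_right ?_ (by positivity)) g1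
    have h1 : ∀ j, bz (Nat.shiftRight X 1024) (6 + j) = bz X (j + 7) := by
      intro j
      rw [hbz]
      congr 1
      omega
    have h3 : ∑ j ∈ Finset.range 7, ‖bz X (j + 7)‖ =
        ∑ j ∈ Finset.range 7, ‖bz (Nat.shiftRight X 1024) (6 + j)‖ :=
      Finset.sum_congr rfl fun j _ => by rw [h1]
    have h4 : ∑ j ∈ Finset.range 13, ‖bz (Nat.shiftRight X 1024) j‖ =
        ∑ j ∈ Finset.range 6, ‖bz (Nat.shiftRight X 1024) j‖ +
        ∑ j ∈ Finset.range 7, ‖bz (Nat.shiftRight X 1024) (6 + j)‖ :=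
      Finset.sum_range_add (fun j => ‖bz (Nat.shiftRight X 1024) j‖) 6 7
    change ∑ j ∈ Finset.range 7, ‖bz X (j + 7)‖ ≤ _
    rw [h3, h4]
    have h2 : 0 ≤ ∑ j ∈ Finset.range 6, ‖bz (Nat.shiftRight X 1024) j‖ :=
      Finset.sum_nonneg fun _ _ => norm_nonneg _
    linarith
  · have h1 : ∀ j, bz (Nat.shiftRight X 1024) (j + 13) = bz X (j + 14) := by
      intro j
      rw [hbz]
    have h3 : ∑ j ∈ Finset.range 13, ‖bz (Nat.shiftRight X 1024) (j + 13)‖ =
        ∑ j ∈ Finset.range 13, ‖bz X (j + 14)‖ := Finset.sum_congr rfl fun j _ => by rw [h1]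
    rw [Finset.sum_range_succ (fun j => ‖bz (Nat.shiftRight X 1024) (j + 13)‖) 13, h3] at g2
    have h2 : 0 ≤ ‖bz (Nat.shiftRight X 1024) (13 + 13)‖ := norm_nonneg _
    have e1 : ((mdl X r b).D : ℝ) = (tot (rmag (Nat.shiftRight X 1024)) : ℝ) + 27 + r := by
      change ((Nat.add (Nat.add (tot (rmag (Nat.shiftRight X 1024))) 27) r : Nat) : ℝ) = _
      simp only [Nat.add_eq]
      push_cast
      ring
    have e2 : ((mdl X r b).G : ℝ) =
      (tot (Nat.mod (rmag (Nat.shiftRight X 1024)) (Nat.pow 2 13312)) : ℝ) := rfl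
    have e3 : ((mdl X r b).r : ℝ) = r := rfl
    have e4 : (mdl X r b).X = X := rfl
    rw [e1, e2, e3, e4]
    nlinarith

theorem mdl_ok {X r : Nat} {b : Bool} (h : (mdl X r b).ok = true) :
    b = true ∧ Clean (2 ^ 61) X ∧ Sparse X ∧ r ≤ 2 ^ 62 := by
  exact mdl_ok_aux h

theorem Mem.const (ε : List ℂ) (z : Z) : Mem ε (A.const z) z.val := by
  unfold A.const
  refine mem_mdl fun hb _ _ => ?_
  obtain ⟨h1, h2⟩ := ofZ_spec hb
  have h3 : ∀ j, 1 ≤ j → bz (ofZ z) j = 0 := fun j hj => Pool.Agent.helper31.IB.bz_zero_of_one h1 hj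
  have h4 : linv (ofZ z) ε = 0 := by
    unfold linv
    exact Finset.sum_eq_zero fun j _ => by rw [h3 _ (by omega), zero_mul]
  have h5 : quadv (ofZ z) ε = 0 := by
    unfold quadv
    exact Finset.sum_eq_zero fun j _ => by rw [h3 _ (by omega), zero_mul]
  rw [h2, h4, h5]
  simp

theorem Mem.add {ε : List ℂ} {x y : A} {u v : ℂ} (hx : Mem ε x u) (hy : Mem ε y v) :
    Mem ε (x.add y) (u + v) := by
  unfold A.add
  intro hok
  have hok1 := (mdl_ok_aux hok).1
  rw [Bool.and_eq_true] at hok1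
  have hx' := hx hok1.1
  have hy' := hy hok1.2
  refine mem_mdl (fun _ _ _ => ?_) hok
  have h1 := clean_add hx'.clean hy'.clean (by norm_num)
  have h2 := clean_nrm (by norm_num) h1.1
  have h3 : ∀ j, bz (nrm (Nat.add x.X y.X)) j = bz x.X j + bz y.X j := fun j => by
    rw [h2.2, h1.2]
  rw [linv_add h3, quadv_add h3, h3]
  have e : u + v - (bz x.X 0 + bz y.X 0 + (linv x.X ε + linv y.X ε + (quadv x.X ε + quadv y.X ε))) =
      (u - (bz x.X 0 + (linv x.X ε + quadv x.X ε))) +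
        (v - (bz y.X 0 + (linv y.X ε + quadv y.X ε))) := by ring
  rw [e]
  refine (norm_add_le _ _).trans ((add_le_add hx'.mem hy'.mem).trans (le_of_eq ?_))
  simp only [Nat.add_eq]
  push_cast
  ring

theorem Mem.neg {ε : List ℂ} {x : A} {u : ℂ} (hx : Mem ε x u) : Mem ε x.neg (-u) := by
  unfold A.neg
  intro hok
  have hok1 := (mdl_ok_aux hok).1
  have hx' := hx hok1
  refine mem_mdl (fun _ _ _ => ?_) hok
  have h1 := clean_swap (by norm_num) hx'.clean
  rw [linv_neg h1.2, quadv_neg h1.2, h1.2]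
  have e : -u - (-bz x.X 0 + (-linv x.X ε + -quadv x.X ε)) =
      -(u - (bz x.X 0 + (linv x.X ε + quadv x.X ε))) := by ring
  rw [e, norm_neg]
  exact hx'.mem

theorem Mem.sub {ε : List ℂ} {x y : A} {u v : ℂ} (hx : Mem ε x u) (hy : Mem ε y v) :
    Mem ε (x.sub y) (u - v) := by
  unfold A.sub
  intro hok
  have hok1 := (mdl_ok_aux hok).1
  rw [Bool.and_eq_true] at hok1
  have hx' := hx hok1.1
  have hy' := hy hok1.2
  refine mem_mdl (fun _ _ _ => ?_) hok
  have h0 := clean_swap (by norm_num) hy'.clean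
  have h1 := clean_add hx'.clean h0.1 (by norm_num)
  have h2 := clean_nrm (by norm_num) h1.1
  have h3 : ∀ j, bz (nrm (Nat.add x.X (swap y.X))) j = bz x.X j + bz (swap y.X) j := fun j => by
    rw [h2.2, h1.2]
  rw [linv_add h3, quadv_add h3, h3, linv_neg h0.2, quadv_neg h0.2, h0.2]
  have e : u - v - (bz x.X 0 + -bz y.X 0 + (linv x.X ε + -linv y.X ε +
      (quadv x.X ε + -quadv y.X ε))) =
      (u - (bz x.X 0 + (linv x.X ε + quadv x.X ε))) -
        (v - (bz y.X 0 + (linv y.X ε + quadv y.X ε))) := by ring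
  rw [e]
  refine (norm_sub_le _ _).trans ((add_le_add hx'.mem hy'.mem).trans (le_of_eq ?_))
  simp only [Nat.add_eq]
  push_cast
  ring

/-- `x.mul y = mdl (core x.X y.X) _ _`; with `δ = lin + κ`:
`(c1 + δ1)(c2 + δ2) = c1 c2 + c2 (lin1 + quad1) + c1 (lin2 + quad2) + lin1 lin2 + c2 ρ1 + c1 ρ2 +
(δ1 δ2 - lin1 lin2)`, `‖δ1 δ2 - lin1 lin2‖ ≤ D1 D2 - G1 G2` -/
theorem Mem.mul {ε : List ℂ} (hε : Small ε) {x y : A} {u v : ℂ} (hx : Mem ε x u)
    (hy : Mem ε y v) : Mem ε (x.mul y) (u * v) := by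
  unfold A.mul
  intro hok
  have hok1 := (mdl_ok_aux hok).1
  rw [Bool.and_eq_true] at hok1
  have hx' := hx hok1.1
  have hy' := hy hok1.2
  refine mem_mdl (fun _ _ _ => ?_) hok
  have hcore := core_spec hx'.clean hy'.clean hx'.sparse hy'.sparse
  obtain ⟨-, hc0, hcj⟩ := hcore
  obtain ⟨ρ1, hu, hρ1, hl1, hk1, hG1⟩ := hx'.split hε
  obtain ⟨ρ2, hv, hρ2, hl2, hk2, hG2⟩ := hy'.split hε
  have hm1 : ‖bz x.X 0‖ ≤ (mg (Nat.land x.X m512) : ℝ) / 2 ^ 40 := by
    rw [← bz_head]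
    exact Pool.Agent.helper31.IB.norm_le_mg (by norm_num) (clean_head hx'.clean)
  have hm2 : ‖bz y.X 0‖ ≤ (mg (Nat.land y.X m512) : ℝ) / 2 ^ 40 := by
    rw [← bz_head]
    exact Pool.Agent.helper31.IB.norm_le_mg (by norm_num) (clean_head hy'.clean)
  exact mul_core hε hx'.sparse hy'.sparse hc0 hcj hu hv hρ1 hρ2 hl1 hl2 hk1 hk2 hG1 hG2 hm1 hm2

theorem Mem.scale {ε : List ℂ} (hε : Small ε) (z : Z) {x : A} {u : ℂ} (hx : Mem ε x u) :
    Mem ε (x.scale z) (z.val * u) := by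
  unfold A.scale
  intro hok
  have hok1 := (mdl_ok_aux hok).1
  rw [Bool.and_eq_true] at hok1
  have hx' := hx hok1.1
  refine mem_mdl (fun _ _ _ => ?_) hok
  obtain ⟨h1, h2⟩ := ofZ_spec hok1.2
  obtain ⟨-, hm⟩ := mulX_spec hx'.clean h1
  have hmg : ‖z.val‖ ≤ (mg (ofZ z) : ℝ) / 2 ^ 40 := by
    rw [← h2]
    exact Pool.Agent.helper31.IB.norm_le_mg (by norm_num) h1
  obtain ⟨ρ, hu, hρ, -, -, -⟩ := hx'.split hε
  have hL := linv_approx hε (X := mulX x.X (ofZ z)) (f := fun j => bz x.X j * bz (ofZ z) 0)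
    (fun j _ => hm j)
  have hQ := quadv_approx hε (X := mulX x.X (ofZ z)) (f := fun j => bz x.X j * bz (ofZ z) 0)
    (fun j _ => hm j)
  have eL : ∑ j ∈ Finset.range 7, bz x.X (j + 7) * bz (ofZ z) 0 * m1 ε j = z.val * linv x.X ε := by
    unfold linv
    rw [Finset.mul_sum, h2]
    exact Finset.sum_congr rfl fun j _ => by ring
  have eQ : ∑ j ∈ Finset.range 13, bz x.X (j + 14) * bz (ofZ z) 0 * m2 ε j =
      z.val * quadv x.X ε := by
    unfold quadv
    rw [Finset.mul_sum, h2]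
    exact Finset.sum_congr rfl fun j _ => by ring
  rw [eL] at hL
  rw [eQ] at hQ
  have h0 := hm 0
  rw [h2] at h0
  have hpr : ‖z.val * ρ‖ ≤ (mg (ofZ z) : ℝ) / 2 ^ 40 * ((x.r : ℝ) / 2 ^ 40) := by
    rw [norm_mul]
    exact mul_le_mul hmg hρ (norm_nonneg _) (by positivity)
  have e : z.val * u - (bz (mulX x.X (ofZ z)) 0 + (linv (mulX x.X (ofZ z)) ε +
      quadv (mulX x.X (ofZ z)) ε)) = z.val * ρ - (bz (mulX x.X (ofZ z)) 0 - bz x.X 0 * z.val) -
      (linv (mulX x.X (ofZ z)) ε - z.val * linv x.X ε) -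
      (quadv (mulX x.X (ofZ z)) ε - z.val * quadv x.X ε) := by
    rw [hu]
    ring
  rw [e]
  have n1 := norm_sub_le (z.val * ρ - (bz (mulX x.X (ofZ z)) 0 - bz x.X 0 * z.val) -
      (linv (mulX x.X (ofZ z)) ε - z.val * linv x.X ε))
      (quadv (mulX x.X (ofZ z)) ε - z.val * quadv x.X ε)
  have n2 := norm_sub_le (z.val * ρ - (bz (mulX x.X (ofZ z)) 0 - bz x.X 0 * z.val))
      (linv (mulX x.X (ofZ z)) ε - z.val * linv x.X ε)
  have n3 := norm_sub_le (z.val * ρ) (bz (mulX x.X (ofZ z)) 0 - bz x.X 0 * z.val)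
  have h40 := shr40 (Nat.mul (mg (ofZ z)) x.r)
  have e2 : ((Nat.mul (mg (ofZ z)) x.r : Nat) : ℝ) = (mg (ofZ z) : ℝ) * x.r := by
    rw [Nat.mul_eq]
    push_cast
    ring
  rw [e2] at h40
  have e3 : ((Nat.add (Nat.shiftRight (Nat.mul (mg (ofZ z)) x.r) 40) 60 : Nat) : ℝ) =
      (Nat.shiftRight (Nat.mul (mg (ofZ z)) x.r) 40 : ℝ) + 60 := by
    rw [Nat.add_eq]
    push_cast
    ring
  rw [e3]
  have e4 : (mg (ofZ z) : ℝ) / 2 ^ 40 * ((x.r : ℝ) / 2 ^ 40) =
      (mg (ofZ z) : ℝ) * x.r / 2 ^ 40 / 2 ^ 40 := by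
    ring
  rw [e4] at hpr
  have e5 : (mg (ofZ z) : ℝ) * x.r / 2 ^ 40 / 2 ^ 40 ≤
      ((Nat.shiftRight (Nat.mul (mg (ofZ z)) x.r) 40 : ℝ) + 1) / 2 ^ 40 :=
    div_le_div_of_nonneg_right h40 (by positivity)
  have e6 : ((Nat.shiftRight (Nat.mul (mg (ofZ z)) x.r) 40 : ℝ) + 60) / 2 ^ 40 =
      ((Nat.shiftRight (Nat.mul (mg (ofZ z)) x.r) 40 : ℝ) + 1) / 2 ^ 40 + 59 / 2 ^ 40 := by ring
  rw [e6]
  have e8 : (59 : ℝ) / 2 ^ 40 = 2 / 2 ^ 40 + 14 / 2 ^ 40 + 26 / 2 ^ 40 + 17 / 2 ^ 40 := by ring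
  have e9 : (0 : ℝ) ≤ 17 / 2 ^ 40 := by positivity
  rw [e8]
  linarith

/-! ### comparisons -/

/-- the blocks of `rm nr` have real monomials, they contribute at most `|Re|`; the other blocks at
most their absolute value. -/
theorem isPos_sound {nr : Nat} {ε : List ℂ} (hε : Small ε) (hr : RealL nr ε) {x : A} {u : ℂ}
    (hx : Mem ε x u) (h : x.isPos nr = true) : 0 < u.re := by
  unfold A.isPos at h
  rw [Bool.and_eq_true, Bool.and_eq_true] at h
  obtain ⟨⟨hok, hnr⟩, hle⟩ := h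
  have hnr4 : nr ≤ 4 := Nat.le_of_ble_eq_true hnr
  have hle2 := Nat.le_of_ble_eq_true hle
  have hx' := hx hok
  obtain ⟨ρ, hu, hρ, -, -, -⟩ := hx'.split hε
  have hbnd := re_bound hε hr hnr4 hx'.clean hx'.sparse
  have h0 : (bz x.X 0).re = ((fd x.X 0 : ℝ) - fd x.X 2) / 2 ^ 40 := bz_re x.X 0
  have hρ2 : -((x.r : ℝ) / 2 ^ 40) ≤ ρ.re := by
    have h1 := (abs_le.1 (Complex.abs_re_le_norm ρ)).1
    linarith
  have hcast : (fd x.X 2 : ℝ) + ((reSum (Nat.land x.X (rmask nr)) : ℝ) +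
      (tot (rmag (Nat.land x.X (cmask nr))) : ℝ)) + (x.r + 1) ≤ (fd x.X 0 : ℝ) := by
    have h1 : fd x.X 2 + (reSum (Nat.land x.X (rmask nr)) +
      tot (rmag (Nat.land x.X (cmask nr)))) + (x.r + 1) ≤ fd x.X 0 := hle2
    exact_mod_cast h1
  rw [hu, Complex.add_re, Complex.add_re, Complex.add_re, h0]
  rw [Complex.add_re] at hbnd
  have h5 : -(((reSum (Nat.land x.X (rmask nr)) : ℝ) +
      (tot (rmag (Nat.land x.X (cmask nr))) : ℝ)) / 2 ^ 40) ≤
      (linv x.X ε).re + (quadv x.X ε).re := hbnd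
  have h6 : (0 : ℝ) < ((fd x.X 0 : ℝ) - fd x.X 2) / 2 ^ 40 - ((reSum (Nat.land x.X (rmask nr)) : ℝ) +
      (tot (rmag (Nat.land x.X (cmask nr))) : ℝ)) / 2 ^ 40 - (x.r : ℝ) / 2 ^ 40 := by
    have e : ((fd x.X 0 : ℝ) - fd x.X 2) / 2 ^ 40 - ((reSum (Nat.land x.X (rmask nr)) : ℝ) +
      (tot (rmag (Nat.land x.X (cmask nr))) : ℝ)) / 2 ^ 40 - (x.r : ℝ) / 2 ^ 40 =
      ((fd x.X 0 : ℝ) - fd x.X 2 - ((reSum (Nat.land x.X (rmask nr)) : ℝ) +
      (tot (rmag (Nat.land x.X (cmask nr))) : ℝ)) - x.r) / 2 ^ 40 := by ring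
    rw [e]
    apply div_pos _ (by positivity)
    linarith
  linarith

theorem isLt_sound {ε : List ℂ} (hε : Small ε) {x : A} {u : ℂ} (hx : Mem ε x u) {B : Nat}
    (h : x.isLt B = true) : ‖u‖ < (B : ℝ) / 2 ^ 40 := by
  unfold A.isLt at h
  simp only [Bool.and_eq_true] at h
  obtain ⟨⟨hok, hDB⟩, hle⟩ := h
  have hDB2 : x.D + 1 ≤ B := Nat.le_of_ble_eq_true hDB
  have hle2 := Nat.le_of_ble_eq_true hle
  have hx' := hx hok
  obtain ⟨ρ, hu, -, hl, hk, -⟩ := hx'.split hε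
  have hc : ‖bz x.X 0‖ < ((B : ℝ) - x.D) / 2 ^ 40 := by
    have hp : ∀ a b : Nat, ((Nat.add (Nat.sub a b) (Nat.sub b a) : Nat) : ℝ) ^ 2 =
        ((a : ℝ) - b) ^ 2 := by
      intro a b
      have e0 : Nat.add (Nat.sub a b) (Nat.sub b a) = (a - b) + (b - a) := rfl
      rw [e0]
      rcases le_total a b with hab | hab
      · rw [Nat.sub_eq_zero_of_le hab, zero_add, Nat.cast_sub hab]
        ring
      · rw [Nat.sub_eq_zero_of_le hab, add_zero, Nat.cast_sub hab]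
    have h1 : ((Nat.add (Nat.sub (fd x.X 0) (fd x.X 2)) (Nat.sub (fd x.X 2) (fd x.X 0)) : Nat) : ℝ) ^ 2 +
        ((Nat.add (Nat.sub (fd x.X 1) (fd x.X 3)) (Nat.sub (fd x.X 3) (fd x.X 1)) : Nat) : ℝ) ^ 2 + 1 ≤
        ((B : ℝ) - x.D) ^ 2 := by
      have h2 : (Nat.add (Nat.sub (fd x.X 0) (fd x.X 2)) (Nat.sub (fd x.X 2) (fd x.X 0))) ^ 2 +
        (Nat.add (Nat.sub (fd x.X 1) (fd x.X 3)) (Nat.sub (fd x.X 3) (fd x.X 1))) ^ 2 + 1 ≤
        (B - x.D) ^ 2 := by
        rw [sq, sq, sq]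
        exact hle2
      have h3 : ((B - x.D : Nat) : ℝ) = (B : ℝ) - x.D := Nat.cast_sub (by omega)
      rw [← h3]
      exact_mod_cast h2
    rw [hp, hp] at h1
    have h4 : ‖bz x.X 0‖ ^ 2 = (((fd x.X 0 : ℝ) - fd x.X 2) ^ 2 + ((fd x.X 1 : ℝ) - fd x.X 3) ^ 2) /
        (2 ^ 40) ^ 2 := by
      rw [← Complex.normSq_eq_norm_sq, Complex.normSq_apply, bz_re, bz_im]
      ring
    have h5 : (0 : ℝ) ≤ ((B : ℝ) - x.D) / 2 ^ 40 := by
      apply div_nonneg _ (by positivity)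
      have : (x.D : ℝ) + 1 ≤ B := by exact_mod_cast hDB2
      linarith
    apply lt_of_pow_lt_pow_left₀ 2 h5
    rw [h4, div_pow]
    apply div_lt_div_of_pos_right _ (by positivity)
    linarith
  rw [hu]
  have n1 := norm_add_le (bz x.X 0) (linv x.X ε + (quadv x.X ε + ρ))
  have n2 := norm_add_le (linv x.X ε) (quadv x.X ε + ρ)
  have e : (B : ℝ) / 2 ^ 40 = ((B : ℝ) - x.D) / 2 ^ 40 + ((x.G : ℝ) / 2 ^ 40 +
      ((x.D : ℝ) - x.G) / 2 ^ 40) := by ring
  rw [e]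
  linarith

/-! ### variables -/

/-- one real variable: noise symbol `j` has the value `(t - c)/h` (`0` if `h = 0`) -/
theorem mem_var {c h j : Nat} (hj : j < 4) {ε : List ℂ} {t : ℝ}
    (ht : (t : ℂ) = (((c : ℝ) / 2 ^ 40 : ℝ) : ℂ) + (((h : ℝ) / 2 ^ 40 : ℝ) : ℂ) * get ε j) :
    Mem ε (mdl (Nat.add c (Nat.shiftLeft h (Nat.mul 1024 (pos j)))) 0
      (Nat.ble c 4611686018427387903 && Nat.ble h 4611686018427387903)) (t : ℂ) := by
  refine mem_mdl fun hb _ _ => ?_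
  rw [Bool.and_eq_true] at hb
  have hc : c < 2 ^ 62 := lt_of_le_of_lt (Nat.le_of_ble_eq_true hb.1) (by norm_num)
  have hh : h < 2 ^ 62 := lt_of_le_of_lt (Nat.le_of_ble_eq_true hb.2) (by norm_num)
  obtain ⟨-, h2⟩ := var_spec hc hh hj
  obtain ⟨e1, e2⟩ := var_lin hj h2
  rw [e1, e2, h2 0, if_pos rfl, ht]
  simp

theorem mem_disc {j : Nat} (hj : j < 4) (ε : List ℂ) :
    Mem ε (mdl (Nat.shiftLeft 1099511627776 (Nat.mul 1024 (pos j))) 0 true) (get ε j) := by
  refine mem_mdl fun _ _ _ => ?_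
  obtain ⟨-, h2⟩ := var_spec (c := 0) (h := 1099511627776) (j := j) (by norm_num) (by norm_num) hj
  have e0 : Nat.add 0 (Nat.shiftLeft 1099511627776 (Nat.mul 1024 (pos j))) =
      Nat.shiftLeft 1099511627776 (Nat.mul 1024 (pos j)) := Nat.zero_add _
  rw [e0] at h2
  obtain ⟨e1, e2⟩ := var_lin hj h2
  rw [e1, e2, h2 0, if_pos rfl]
  norm_num

end Pool.Agent.helper82.QB
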